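import Mathlib

section

/-! Abstract renewal structure: a law on pieces (slabs), lists of pieces and their weights. -/

namespace Pool.Agent.MP_db8016_pr
open MeasureTheory ProbabilityTheory Filter
open scoped ENNReal

instance listMS (S : Type) : MeasurableSpace (List S) := ⊤
instance listDMS (S : Type) : DiscreteMeasurableSpace (List S) := ⟨fun _ => trivial⟩

/-- A law `f` on pieces with width `W`, transversal displacement `ξ` and, for each slope `m`,
a bound `R m` for the deviation from the line of slope `m` inside the piece. -/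
structure Side (S : Type) [MeasurableSpace S] where
  f : Measure S
  W : S → ℝ
  ξ : S → ℝ
  R : ℝ → S → ℝ

/-- The list stays in `[-F, F]`, with margins `ρ` and increments `ζ`, when started at `x`. -/
def Ins {S : Type} (ρ ζ : S → ℝ) (F : ℝ) : ℝ → List S → Prop
  | x, [] => |x| ≤ F
  | x, σ :: l => |x| + ρ σ ≤ F ∧ Ins ρ ζ F (x + ζ σ) l

/-- Explicit bound for the tail of the series with terms (i+1)^2 over 2^i. -/
noncomputable def ck (k : ℕ) : ℝ := (1 / 2) ^ k * (2 * (k : ℝ) ^ 2 + 8 * k + 12)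

namespace Side
variable {S T : Type} [MeasurableSpace S] [MeasurableSpace T] (P : Side S) (Q : Side T)

def ζ (m : ℝ) (σ : S) : ℝ := P.ξ σ - m * P.W σ

noncomputable def lw (l : List S) : ℝ≥0∞ := (l.map fun σ => P.f {σ}).prod

noncomputable def LM : Measure (List S) := Measure.sum fun l => P.lw l • Measure.dirac l

def TW (l : List S) : ℝ := (l.map P.W).sum

def win (t : ℝ) : Set (List S) := {l | t ≤ P.TW l ∧ P.TW l < t + 1}

noncomputable def Bad (m F t : ℝ) : ℝ≥0∞ :=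
  P.LM (P.win t ∩ {l | ¬ Ins (P.R m) (P.ζ m) F 0 l})

def Good (p w m F : ℝ) : Prop :=
  ∀ t, 1 ≤ t → t ≤ w → P.Bad m F t ≤ ENNReal.ofReal (p / 4)

def Tail (w m F : ℝ) : Prop :=
  ∀ k : ℕ, 1 ≤ k → P.f {σ | P.W σ ≤ w ∧ k * F < P.R m σ} ≤ ENNReal.ofReal ((1 / 2) ^ k / w)

/-- Truncated second moment. -/
noncomputable def V (w m : ℝ) : ℝ := ∫ σ in {σ | P.W σ ≤ w}, (P.ζ m σ) ^ 2 ∂P.f

/-- Truncated mean. -/
noncomputable def M (w m : ℝ) : ℝ := ∫ σ in {σ | P.W σ ≤ w}, P.ζ m σ ∂P.f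

structure Ok (p : ℝ) : Prop where
  W_ge : ∀ σ, 1 ≤ P.W σ
  ζ_le : ∀ m σ, |P.ζ m σ| ≤ P.R m σ
  R_lip : ∀ m m' σ, P.R m' σ ≤ P.R m σ + |m - m'| * P.W σ
  U1 : ∀ t, P.LM (P.win t) ≤ 1
  U2 : ∀ t, 1 ≤ t → ENNReal.ofReal p ≤ P.LM (P.win t)

/-- The renewal facts. -/
structure Ren : Prop where
  prob : IsProbabilityMeasure P.f
  intW : Integrable P.W P.f

/-- Square integrability of the deviations of pieces of bounded width. -/
def Int2 : Prop := ∀ w m, IntegrableOn (fun σ => (P.R m σ) ^ 2) {σ | P.W σ ≤ w} P.f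

/-- Second moment bound that follows from the exponential tails. -/
def Mom : Prop := ∀ w m F, 0 < w → 0 < F → P.Tail w m F → ∀ k : ℕ, 1 ≤ k →
  ∫ σ in {σ | P.W σ ≤ w ∧ k * F < P.R m σ}, (P.R m σ) ^ 2 ∂P.f ≤ ck k * F ^ 2 / w

/-- Confined crossers of `Q` are barriers for `P`. -/
def Bar (p : ℝ) : Prop := ∀ w m F, 2 * |m| + 2 ≤ F → Q.Good p w m F →
  ∀ (n : ℕ) (t : ℝ), 1 ≤ t → t + 4 ≤ w →
    P.Bad m (18 * n * F) t ≤ ENNReal.ofReal (2 * (1 - p / 2) ^ n)

/-- Maximal inequality of Kolmogorov type for lists in a window. -/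
def Kolm : Prop := ∀ (ρ ζ : S → ℝ) (w F₁ F₂ : ℝ), 0 < F₁ → 0 ≤ F₂ →
  IntegrableOn (fun σ => (ζ σ) ^ 2) {σ | P.W σ ≤ w} P.f →
  ∫ σ in {σ | P.W σ ≤ w}, ζ σ ∂P.f = 0 →
  ∀ (n : ℕ) (t : ℝ), t ≤ n →
    P.LM (P.win t ∩ {l | ¬ Ins ρ ζ (F₁ + F₂) 0 l}) ≤ ENNReal.ofReal
      (n * (P.f.real {σ | w < P.W σ} + P.f.real {σ | P.W σ ≤ w ∧ F₂ < ρ σ}
        + (∫ σ in {σ | P.W σ ≤ w}, (ζ σ) ^ 2 ∂P.f) / F₁ ^ 2))

/-- The slope of confinement is close to the slope of zero truncated mean. -/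
def Link (p C w₀ : ℝ) : Prop := ∀ w m m' F, w₀ ≤ w → 0 < F → P.Good p w m F →
  P.V w m ≤ F ^ 2 / w → P.M w m' = 0 → |m' - m| * w ≤ C * F

/-- Confinement of `Q` at scale `4 w` gives tails for both sides at scale `w`. -/
def Boost (p Λ : ℝ) : Prop := ∀ w m F, 5 ≤ w → 2 * |m| + 2 ≤ F → Q.Good p (4 * w) m F →
  P.Tail w m (Λ * F) ∧ Q.Tail w m (Λ * F) ∧ P.Good p w m (Λ * F) ∧ Q.Good p w m (Λ * F)

/-- The outcome of the induction over scales. -/
structure Scales (m K C : ℝ) (w F : ℕ → ℝ) : Prop where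
  K_ge : 4 ≤ K
  C_pos : 0 < C
  w_zero : 2 ≤ w 0
  w_succ : ∀ j, w (j + 1) = K * w j
  F_zero : 0 < F 0
  F_lo : ∀ j, 2 * F j ≤ F (j + 1)
  F_hi : ∀ j, F (j + 1) ≤ K / 2 * F j
  tailP : ∀ j, P.Tail (w j) m (F j)
  tailQ : ∀ j, Q.Tail (w j) m (F j)
  VP : ∀ j, P.V (w j) m ≤ F j ^ 2 / w j
  VQ : ∀ j, Q.V (w j) m ≤ F j ^ 2 / w j
  MP : ∀ j, |P.M (w j) m| ≤ C * F j / w j
  MQ : ∀ j, |Q.M (w j) m| ≤ C * F j / w j
  Vlo : ∀ᶠ j in atTop, F j ^ 2 ≤ C * w j * (P.V (w j) m + Q.V (w j) m)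

/-- The truncated means are negligible along the scales. -/
def Mean (m : ℝ) (w F : ℕ → ℝ) : Prop :=
  ∀ θ : ℝ, 0 < θ → ∀ᶠ j in atTop, |P.M (w j) m| ≤ θ * F j / w j

/-- Supersolutions of the two-clock chain. -/
structure Super (m : ℝ) (v : ℝ → ℝ → ℝ → ℝ≥0∞) : Prop where
  anti : ∀ ρ ρ' D o, ρ ≤ ρ' → v ρ' D o ≤ v ρ D o
  stepX : ∀ ρ D o, 2 * ρ < D → 0 < o →
    1 + ∫⁻ σ in {σ | 2 * P.R m σ ≤ ρ}, v ρ (D + P.ζ m σ) (o - P.W σ) ∂P.f ≤ v ρ D o
  stepY : ∀ ρ D o, 2 * ρ < D → o ≤ 0 →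
    ∫⁻ σ in {σ | 2 * Q.R m σ ≤ ρ}, v ρ (D - Q.ζ m σ) (o + Q.W σ) ∂Q.f ≤ v ρ D o

/-- Every supersolution is infinite on some set of starting states. -/
def Blow : Prop := ∃ m H : ℝ, 0 ≤ H ∧ ∀ v, P.Super Q m v →
  ∀ D o, H ≤ D → D ≤ H + 4 * |m| + 1 → |o| ≤ 2 → v 0 D o = ∞

@[simp] lemma lw_nil : P.lw [] = 1 := by simp [lw]
@[simp] lemma lw_cons (σ : S) (l : List S) : P.lw (σ :: l) = P.f {σ} * P.lw l := by simp [lw]
@[simp] lemma lw_append (l l' : List S) : P.lw (l ++ l') = P.lw l * P.lw l' := by simp [lw]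
@[simp] lemma TW_nil : P.TW [] = 0 := by simp [TW]
@[simp] lemma TW_cons (σ : S) (l : List S) : P.TW (σ :: l) = P.W σ + P.TW l := by simp [TW]
@[simp] lemma TW_append (l l' : List S) : P.TW (l ++ l') = P.TW l + P.TW l' := by simp [TW]

lemma lintegral_LM (g : List S → ℝ≥0∞) : ∫⁻ l, g l ∂P.LM = ∑' l, P.lw l * g l := by
  rw [LM, lintegral_sum_measure]
  refine tsum_congr fun l => ?_
  rw [lintegral_smul_measure, lintegral_dirac' _ Measurable.of_discrete, smul_eq_mul]

lemma LM_apply (A : Set (List S)) : P.LM A = ∑' l, A.indicator P.lw l := by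
  rw [← lintegral_indicator_one MeasurableSet.of_discrete, lintegral_LM]
  refine tsum_congr fun l => ?_
  by_cases h : l ∈ A <;> simp [h]

lemma LM_apply' (A : Set (List S)) : P.LM A = ∑' l : A, P.lw l := by
  rw [LM_apply, tsum_subtype]

lemma LM_singleton (l : List S) : P.LM {l} = P.lw l := by
  rw [LM_apply']; simp

omit [MeasurableSpace S] in
lemma tsum_list (g : List S → ℝ≥0∞) : ∑' l, g l = g [] + ∑' σ, ∑' l, g (σ :: l) := by
  classical
  rw [ENNReal.tsum_eq_add_tsum_ite [], ← ENNReal.tsum_prod (f := fun σ l => g (σ :: l))]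
  congr 1
  have hinj : Function.Injective (fun x : S × List S => x.1 :: x.2) := by
    rintro ⟨σ, l⟩ ⟨σ', l'⟩ h
    simpa using h
  rw [← hinj.tsum_eq]
  · exact tsum_congr fun x => by simp
  · intro l hl
    cases l with
    | nil => simp at hl
    | cons σ l => exact ⟨(σ, l), rfl⟩

variable [Countable S] [DiscreteMeasurableSpace S]

/-- Decomposition along the first piece. -/
lemma lintegral_LM_cons (g : List S → ℝ≥0∞) :
    ∫⁻ l, g l ∂P.LM = g [] + ∫⁻ σ, ∫⁻ l, g (σ :: l) ∂P.LM ∂P.f := by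
  rw [lintegral_LM, tsum_list, lintegral_countable']
  simp only [lw_nil, one_mul, lw_cons, lintegral_LM]
  congr 1
  refine tsum_congr fun σ => ?_
  rw [← ENNReal.tsum_mul_right]
  exact tsum_congr fun l => by ring

lemma lintegral_LM_cons' (g : List S → ℝ≥0∞) :
    ∫⁻ l, g l ∂P.LM = g [] + ∫⁻ l, ∫⁻ σ, g (σ :: l) ∂P.f ∂P.LM := by
  rw [lintegral_LM, tsum_list, ENNReal.tsum_comm, lintegral_LM]
  simp only [lw_nil, one_mul, lw_cons]
  congr 1
  refine tsum_congr fun l => ?_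
  rw [lintegral_countable', ← ENNReal.tsum_mul_left]
  exact tsum_congr fun σ => by ring

lemma LM_cons (A : Set (List S)) :
    P.LM A = A.indicator 1 [] + ∫⁻ σ, P.LM {l | σ :: l ∈ A} ∂P.f := by
  rw [← lintegral_indicator_one MeasurableSet.of_discrete, lintegral_LM_cons]
  congr 1
  refine lintegral_congr fun σ => ?_
  rw [← lintegral_indicator_one MeasurableSet.of_discrete]
  rfl

lemma LM_cons' (A : Set (List S)) :
    P.LM A = A.indicator 1 [] + ∫⁻ l, P.f {σ | σ :: l ∈ A} ∂P.LM := by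
  rw [← lintegral_indicator_one MeasurableSet.of_discrete, lintegral_LM_cons']
  congr 1
  refine lintegral_congr fun σ => ?_
  rw [← lintegral_indicator_one MeasurableSet.of_discrete]
  rfl

omit [Countable S] [DiscreteMeasurableSpace S] in
/-- Gluing: `j π l` is `π ++ l` or `l ++ π`, injective when `π` runs through `A`. -/
lemma glue_le (j : List S → List S → List S) (hj : ∀ π l, P.lw (j π l) = P.lw π * P.lw l)
    (A C : Set (List S)) (B : List S → Set (List S))
    (hinj : ∀ π ∈ A, ∀ π' ∈ A, ∀ l l', j π l = j π' l' → π = π' ∧ l = l')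
    (hC : ∀ π ∈ A, ∀ l ∈ B π, j π l ∈ C) (q : ℝ≥0∞) (hq : ∀ π ∈ A, q ≤ P.LM (B π)) :
    q * P.LM A ≤ P.LM C := by
  calc q * P.LM A = ∑' π : A, P.lw π * q := by
        rw [LM_apply', ← ENNReal.tsum_mul_left]; exact tsum_congr fun _ => mul_comm _ _
    _ ≤ ∑' π : A, ∑' l : B π, P.lw (j π l) := by
        refine ENNReal.tsum_le_tsum fun π => ?_
        simp only [hj]
        rw [ENNReal.tsum_mul_left, ← LM_apply']
        exact mul_le_mul' le_rfl (hq _ π.2)
    _ = ∑' x : (Σ π : A, B π), P.lw (j x.1 x.2) := by rw [ENNReal.tsum_sigma']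
    _ ≤ P.LM C := by
        rw [LM_apply']
        refine ENNReal.tsum_comp_le_tsum_of_injective
          (f := fun x : (Σ π : A, B π) => (⟨j x.1 x.2, hC _ x.1.2 _ x.2.2⟩ : C)) ?_
          (fun l : C => P.lw l)
        rintro ⟨⟨π, hπ⟩, ⟨l, hl⟩⟩ ⟨⟨π', hπ'⟩, ⟨l', hl'⟩⟩ h
        obtain ⟨rfl, rfl⟩ := hinj π hπ π' hπ' l l' (congrArg Subtype.val h)
        rfl

end Side

lemma Ins.mono {S : Type} {ρ ζ : S → ℝ} {F F' : ℝ} (h : F ≤ F') {x : ℝ} {l : List S}
    (hl : Ins ρ ζ F x l) : Ins ρ ζ F' x l := by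
  induction l generalizing x with
  | nil => exact le_trans hl h
  | cons σ l ih => exact ⟨hl.1.trans h, ih hl.2⟩

lemma Ins.end_le {S : Type} {ρ ζ : S → ℝ} {F : ℝ} {x : ℝ} {l : List S}
    (hl : Ins ρ ζ F x l) : |x + (l.map ζ).sum| ≤ F := by
  induction l generalizing x with
  | nil => simpa [Ins] using hl
  | cons σ l ih => simpa [add_assoc] using ih hl.2

lemma Ins.le_of_mem {S : Type} {ρ ζ : S → ℝ} {F : ℝ} {x : ℝ} {l : List S}
    (hl : Ins ρ ζ F x l) {σ : S} (hσ : σ ∈ l) : ρ σ ≤ F := by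
  induction l generalizing x with
  | nil => simp at hσ
  | cons τ l ih =>
    rcases List.mem_cons.1 hσ with rfl | h
    · linarith [hl.1, abs_nonneg x]
    · exact ih hl.2 h

namespace Side
variable {S : Type} [MeasurableSpace S] (P : Side S)

lemma Bad_mono (m t : ℝ) {F F' : ℝ} (h : F ≤ F') : P.Bad m F' t ≤ P.Bad m F t :=
  measure_mono fun _ hl => ⟨hl.1, fun h' => hl.2 (h'.mono h)⟩

lemma Good.mono {p w w' m F F' : ℝ} (h : P.Good p w m F) (hw : w' ≤ w) (hF : F ≤ F') :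
    P.Good p w' m F' := fun t h1 h2 => (P.Bad_mono m t hF).trans (h t h1 (h2.trans hw))

lemma Tail.mono {w m F F' : ℝ} (h : P.Tail w m F) (hF : F ≤ F') : P.Tail w m F' := by
  intro k hk
  refine le_trans (measure_mono ?_) (h k hk)
  intro σ hσ
  refine ⟨hσ.1, lt_of_le_of_lt ?_ hσ.2⟩
  gcongr

lemma TW_nonneg {p : ℝ} (h : P.Ok p) (l : List S) : 0 ≤ P.TW l := by
  induction l with
  | nil => simp
  | cons σ l ih => rw [TW_cons]; linarith [h.W_ge σ]

lemma R_nonneg {p : ℝ} (h : P.Ok p) (m : ℝ) (σ : S) : 0 ≤ P.R m σ :=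
  (abs_nonneg _).trans (h.ζ_le m σ)

end Side

end Pool.Agent.MP_db8016_pr

end

section

/-! Consequences of the integrability of the width. -/

namespace Pool.Agent.MP_db8016_pr
open MeasureTheory ProbabilityTheory Filter
open scoped ENNReal

variable {S : Type} [MeasurableSpace S] [Countable S] [DiscreteMeasurableSpace S] {P : Side S}

omit [Countable S] in
theorem Side.Ren.tendsto_r (h : P.Ren) :
    Tendsto (fun w : ℝ => w * P.f.real {σ | w < P.W σ}) atTop (nhds 0) := by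
  have := h.prob
  have key := tendsto_integral_filter_of_dominated_convergence (μ := P.f) (l := atTop)
    (F := fun (w : ℝ) σ => {σ | w < P.W σ}.indicator (fun _ => w) σ) (f := fun _ => (0 : ℝ))
    (fun σ => |P.W σ|) (Eventually.of_forall fun w => Measurable.of_discrete.aestronglyMeasurable)
    (by
      filter_upwards [eventually_ge_atTop (0 : ℝ)] with w hw
      refine Eventually.of_forall fun σ => ?_
      by_cases hσ : w < P.W σ
      · rw [Set.indicator_of_mem (by exact hσ), Real.norm_eq_abs, abs_of_nonneg hw]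
        exact hσ.le.trans (le_abs_self _)
      · rw [Set.indicator_of_notMem (by exact hσ)]; simp)
    h.intW.abs
    (Eventually.of_forall fun σ => by
      refine tendsto_const_nhds.congr' ?_
      filter_upwards [eventually_ge_atTop (P.W σ)] with w hw
      rw [Set.indicator_of_notMem (by simpa using hw)])
  simp only [integral_zero] at key
  refine key.congr fun w => ?_
  rw [integral_indicator MeasurableSet.of_discrete]
  simp [mul_comm]

omit [Countable S] in
theorem Side.Ren.tendsto_e (h : P.Ren) (hW : ∀ σ, 1 ≤ P.W σ) :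
    Tendsto (fun w : ℝ => (∫ σ in {σ | P.W σ ≤ w}, (P.W σ) ^ 2 ∂P.f) / w) atTop (nhds 0) := by
  have := h.prob
  have key := tendsto_integral_filter_of_dominated_convergence (μ := P.f) (l := atTop)
    (F := fun (w : ℝ) σ => {σ | P.W σ ≤ w}.indicator (fun σ => P.W σ ^ 2 / w) σ)
    (f := fun _ => (0 : ℝ))
    (fun σ => |P.W σ|) (Eventually.of_forall fun w => Measurable.of_discrete.aestronglyMeasurable)
    (by
      filter_upwards [eventually_gt_atTop (0 : ℝ)] with w hw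
      refine Eventually.of_forall fun σ => ?_
      have h1 := hW σ
      by_cases hσ : P.W σ ≤ w
      · rw [Set.indicator_of_mem (by exact hσ), Real.norm_eq_abs, abs_of_nonneg (by positivity),
          abs_of_nonneg (by linarith), div_le_iff₀ hw]
        nlinarith
      · rw [Set.indicator_of_notMem (by exact hσ)]; simp)
    h.intW.abs
    (Eventually.of_forall fun σ => by
      have h0 : Tendsto (fun w : ℝ => P.W σ ^ 2 / w) atTop (nhds 0) :=
        tendsto_const_nhds.div_atTop tendsto_id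
      refine h0.congr' ?_
      filter_upwards [eventually_ge_atTop (P.W σ)] with w hw
      rw [Set.indicator_of_mem (by simpa using hw)])
  simp only [integral_zero] at key
  refine key.congr fun w => ?_
  rw [integral_indicator MeasurableSet.of_discrete, integral_div]

omit [Countable S] in
theorem Side.Ren.eventually_half (h : P.Ren) :
    ∀ᶠ w : ℝ in atTop, 1 / 2 ≤ P.f.real {σ | P.W σ ≤ w} := by
  have := h.prob
  have h1 := (h.tendsto_r.eventually (gt_mem_nhds (show (0 : ℝ) < 1 / 2 by norm_num)))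
  filter_upwards [h1, eventually_ge_atTop (1 : ℝ)] with w hw hw1
  have e : {σ | P.W σ ≤ w} = {σ | w < P.W σ}ᶜ := by ext σ; simp
  rw [e, probReal_compl_eq_one_sub MeasurableSet.of_discrete]
  have : 0 ≤ P.f.real {σ | w < P.W σ} := measureReal_nonneg
  nlinarith

end Pool.Agent.MP_db8016_pr

end
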