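import Mathlib
import Pool.Agent.Mg.Fdb8016a.G43c2de
import Pool.Agent.MP_db8016_pr.Defs

section

/-! Paths, stacks of arrows and their weights. -/

namespace Pool.Agent.MP_db8016_pr
open MeasureTheory ProbabilityTheory
open scoped ENNReal

abbrev Dir := Fin 4
abbrev Pt := ℤ × ℤ

/-- The first `n` entries of a sequence. -/
def pre (a : ℕ → Dir) (n : ℕ) : List Dir := (List.range n).map a

/-- Sequences that begin with the list `l`. -/
def cyl (l : List Dir) : Set (ℕ → Dir) := {a | pre a l.length = l}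

@[simp] lemma pre_length (a : ℕ → Dir) (n : ℕ) : (pre a n).length = n := by simp [pre]

@[simp] lemma pre_zero (a : ℕ → Dir) : pre a 0 = [] := by simp [pre]

lemma pre_succ (a : ℕ → Dir) (n : ℕ) : pre a (n + 1) = pre a n ++ [a n] := by
  simp [pre, List.range_succ]

lemma mem_cyl_pre (a : ℕ → Dir) (n : ℕ) : a ∈ cyl (pre a n) := by simp [cyl]

@[simp] lemma cyl_nil : cyl [] = Set.univ := by ext a; simp [cyl]

lemma mem_cyl_snoc {a : ℕ → Dir} {l : List Dir} {d : Dir} :
    a ∈ cyl (l ++ [d]) ↔ a ∈ cyl l ∧ a l.length = d := by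
  simp only [cyl, Set.mem_setOf_eq, List.length_append, List.length_singleton, pre_succ]
  constructor
  · intro h
    have := List.append_inj h (by simp)
    exact ⟨this.1, by simpa using this.2⟩
  · rintro ⟨h1, h2⟩
    rw [h1, h2]

lemma cyl_append_subset (l l' : List Dir) : cyl (l ++ l') ⊆ cyl l := by
  induction l' using List.reverseRecOn with
  | nil => simp
  | append_singleton l' d ih =>
    intro a ha
    rw [← List.append_assoc] at ha
    exact ih (mem_cyl_snoc.1 ha).1

lemma apply_of_mem_cyl {a : ℕ → Dir} {l l' : List Dir} {d : Dir}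
    (h : a ∈ cyl (l ++ d :: l')) : a l.length = d := by
  have : a ∈ cyl ((l ++ [d]) ++ l') := by simpa using h
  exact (mem_cyl_snoc.1 (cyl_append_subset _ _ this)).2

lemma measurableSet_cyl (l : List Dir) : MeasurableSet (cyl l) := by
  induction l using List.reverseRecOn with
  | nil => simp
  | append_singleton l d ih =>
    have : cyl (l ++ [d]) = cyl l ∩ (fun a : ℕ → Dir => a l.length) ⁻¹' {d} := by
      ext a; simp [mem_cyl_snoc]
    rw [this]
    exact ih.inter (measurable_pi_apply _ (measurableSet_singleton _))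

lemma pre_add (a : ℕ → Dir) (n k : ℕ) : ∃ τ, pre a (n + k) = pre a n ++ τ ∧ τ.length = k := by
  induction k with
  | zero => exact ⟨[], by simp, rfl⟩
  | succ k ih =>
    obtain ⟨τ, h, hl⟩ := ih
    exact ⟨τ ++ [a (n + k)], by rw [← add_assoc, pre_succ, h, List.append_assoc], by simp [hl]⟩

lemma list_trichotomy (γ γ' : List Dir) : (∃ τ, γ' = γ ++ τ) ∨ (∃ τ, γ = γ' ++ τ) ∨
    ∃ π d d' τ τ', d ≠ d' ∧ γ = π ++ d :: τ ∧ γ' = π ++ d' :: τ' := by
  induction γ generalizing γ' with
  | nil => exact Or.inl ⟨γ', by simp⟩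
  | cons d γ ih =>
    cases γ' with
    | nil => exact Or.inr (Or.inl ⟨d :: γ, by simp⟩)
    | cons d' γ' =>
      by_cases h : d = d'
      · subst h
        rcases ih γ' with ⟨τ, h⟩ | ⟨τ, h⟩ | ⟨π, e, e', τ, τ', h1, h2, h3⟩
        · exact Or.inl ⟨τ, by simp [h]⟩
        · exact Or.inr (Or.inl ⟨τ, by simp [h]⟩)
        · exact Or.inr (Or.inr ⟨d :: π, e, e', τ, τ', h1, by simp [h2], by simp [h3]⟩)
      · exact Or.inr (Or.inr ⟨[], d, d', γ, γ', h, by simp, by simp⟩)

lemma comparable_of_mem_cyl {a : ℕ → Dir} {γ γ' : List Dir} (h : a ∈ cyl γ) (h' : a ∈ cyl γ') :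
    (∃ τ, γ' = γ ++ τ) ∨ (∃ τ, γ = γ' ++ τ) := by
  rcases list_trichotomy γ γ' with h1 | h1 | ⟨π, d, d', τ, τ', h1, rfl, rfl⟩
  · exact Or.inl h1
  · exact Or.inr h1
  · exact absurd ((apply_of_mem_cyl h).symm.trans (apply_of_mem_cyl h')) h1

section Paths
variable (vec : Dir → Pt)

/-- Total displacement of a list of steps. -/
def disp (γ : List Dir) : Pt := (γ.map vec).sum

/-- The steps made at site `z` by the path with start `x` and steps `γ`, in order. -/
def exits : Pt → List Dir → Pt → List Dir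
  | _, [], _ => []
  | x, d :: γ, z => (if x = z then [d] else []) ++ exits (x + vec d) γ z

/-- The sites from which the path makes a step. -/
def pts : Pt → List Dir → Finset Pt
  | _, [] => ∅
  | x, d :: γ => insert x (pts (x + vec d) γ)

/-- The configurations of arrows that make a walker started at `x` follow `γ`. -/
def Fol (x : Pt) (γ : List Dir) : Set (Pt → ℕ → Dir) := {a | ∀ z, a z ∈ cyl (exits vec x γ z)}

/-- The averaged probability of a path. -/
noncomputable def wt (ν : Measure (ℕ → Dir)) (x : Pt) (γ : List Dir) : ℝ≥0∞ :=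
  ∏ z ∈ pts vec x γ, ν (cyl (exits vec x γ z))

@[simp] lemma disp_nil : disp vec [] = 0 := by simp [disp]
@[simp] lemma disp_cons (d : Dir) (γ : List Dir) : disp vec (d :: γ) = vec d + disp vec γ := by
  simp [disp]
@[simp] lemma disp_append (γ δ : List Dir) : disp vec (γ ++ δ) = disp vec γ + disp vec δ := by
  simp [disp]
@[simp] lemma exits_nil (x z : Pt) : exits vec x [] z = [] := rfl
lemma exits_cons (x z : Pt) (d : Dir) (γ : List Dir) :
    exits vec x (d :: γ) z = (if x = z then [d] else []) ++ exits vec (x + vec d) γ z := rfl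
@[simp] lemma pts_nil (x : Pt) : pts vec x [] = ∅ := rfl
lemma pts_cons (x : Pt) (d : Dir) (γ : List Dir) :
    pts vec x (d :: γ) = insert x (pts vec (x + vec d) γ) := rfl

lemma exits_append (x z : Pt) (γ δ : List Dir) :
    exits vec x (γ ++ δ) z = exits vec x γ z ++ exits vec (x + disp vec γ) δ z := by
  induction γ generalizing x with
  | nil => simp
  | cons d γ ih => simp [exits_cons, ih, add_assoc]

lemma pts_append (x : Pt) (γ δ : List Dir) :
    pts vec x (γ ++ δ) = pts vec x γ ∪ pts vec (x + disp vec γ) δ := by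
  induction γ generalizing x with
  | nil => simp
  | cons d γ ih => simp [pts_cons, ih, add_assoc]

lemma exits_eq_nil_iff {x z : Pt} {γ : List Dir} : exits vec x γ z = [] ↔ z ∉ pts vec x γ := by
  induction γ generalizing x with
  | nil => simp
  | cons d γ ih =>
    rw [exits_cons, pts_cons, List.append_eq_nil_iff, ih, Finset.mem_insert]
    by_cases h : x = z
    · simp [h]
    · simp [h, Ne.symm h]

lemma mem_pts_iff {x u : Pt} {γ : List Dir} :
    u ∈ pts vec x γ ↔ ∃ α d β, γ = α ++ d :: β ∧ u = x + disp vec α := by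
  induction γ generalizing x with
  | nil => simp
  | cons d γ ih =>
    rw [pts_cons, Finset.mem_insert, ih]
    constructor
    · rintro (rfl | ⟨α, e, β, rfl, rfl⟩)
      · exact ⟨[], d, γ, by simp, by simp⟩
      · exact ⟨d :: α, e, β, by simp, by simp [add_assoc]⟩
    · rintro ⟨α, e, β, h, rfl⟩
      cases α with
      | nil => left; simp
      | cons d' α =>
        simp only [List.cons_append, List.cons.injEq] at h
        obtain ⟨rfl, rfl⟩ := h
        right
        exact ⟨α, e, β, rfl, by simp [add_assoc]⟩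

lemma mem_pts_shift {x u : Pt} {γ : List Dir} : u ∈ pts vec x γ ↔ u - x ∈ pts vec 0 γ := by
  simp only [mem_pts_iff, zero_add, sub_eq_iff_eq_add']

lemma exits_map (g : Pt → Pt) (vec' : Dir → Pt) (hg : Function.Injective g)
    (h : ∀ x d, g (x + vec d) = g x + vec' d) (x z : Pt) (γ : List Dir) :
    exits vec' (g x) γ (g z) = exits vec x γ z := by
  induction γ generalizing x with
  | nil => simp
  | cons d γ ih => rw [exits_cons, exits_cons, ← h, ih]; simp [hg.eq_iff]

lemma pts_map (g : Pt → Pt) (vec' : Dir → Pt)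
    (h : ∀ x d, g (x + vec d) = g x + vec' d) (x : Pt) (γ : List Dir) :
    pts vec' (g x) γ = (pts vec x γ).image g := by
  induction γ generalizing x with
  | nil => simp
  | cons d γ ih => rw [pts_cons, pts_cons, ← h, ih]; simp

lemma wt_map (ν : Measure (ℕ → Dir)) (g : Pt → Pt) (vec' : Dir → Pt) (hg : Function.Injective g)
    (h : ∀ x d, g (x + vec d) = g x + vec' d) (x : Pt) (γ : List Dir) :
    wt vec' ν (g x) γ = wt vec ν x γ := by
  unfold wt
  rw [pts_map vec g vec' h, Finset.prod_image (fun a _ b _ hab => hg hab)]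
  simp only [exits_map vec g vec' hg h]

lemma wt_shift (ν : Measure (ℕ → Dir)) (x : Pt) (γ : List Dir) :
    wt vec ν x γ = wt vec ν 0 γ := by
  have := wt_map vec ν (fun z => z + x) vec (add_left_injective x) (fun z d => by abel) 0 γ
  simpa using this

variable (ν : Measure (ℕ → Dir)) [IsProbabilityMeasure ν]

lemma wt_eq_prod {x : Pt} {γ : List Dir} {T : Finset Pt} (hT : pts vec x γ ⊆ T) :
    wt vec ν x γ = ∏ z ∈ T, ν (cyl (exits vec x γ z)) := by
  unfold wt
  refine Finset.prod_subset hT fun z _ hz => ?_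
  rw [(exits_eq_nil_iff vec).2 hz]; simp

omit [IsProbabilityMeasure ν] in
@[simp] lemma wt_nil (x : Pt) : wt vec ν x [] = 1 := by simp [wt]

lemma Fol_eq_pi (x : Pt) (γ : List Dir) :
    Fol vec x γ = Set.pi (pts vec x γ : Set Pt) (fun z => cyl (exits vec x γ z)) := by
  ext a
  simp only [Fol, Set.mem_setOf_eq, Set.mem_pi, Finset.mem_coe]
  refine ⟨fun h z _ => h z, fun h z => ?_⟩
  by_cases hz : z ∈ pts vec x γ
  · exact h z hz
  · rw [(exits_eq_nil_iff vec).2 hz]; simp

lemma measurableSet_Fol (x : Pt) (γ : List Dir) : MeasurableSet (Fol vec x γ) := by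
  rw [Fol_eq_pi]
  exact MeasurableSet.pi (Finset.countable_toSet _) fun z _ => measurableSet_cyl _

/-- The product law of the arrows. -/
noncomputable def arrows : Measure (Pt → ℕ → Dir) := Measure.infinitePi fun _ : Pt => ν

instance : IsProbabilityMeasure (arrows ν) := by unfold arrows; infer_instance

lemma arrows_Fol (x : Pt) (γ : List Dir) : arrows ν (Fol vec x γ) = wt vec ν x γ := by
  rw [Fol_eq_pi, arrows, Measure.infinitePi_pi _ (fun z _ => measurableSet_cyl _)]
  rfl

lemma wt_append_of_disjoint {x : Pt} {γ δ : List Dir}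
    (h : Disjoint (pts vec x γ) (pts vec (x + disp vec γ) δ)) :
    wt vec ν x (γ ++ δ) = wt vec ν x γ * wt vec ν (x + disp vec γ) δ := by
  unfold wt
  rw [pts_append, Finset.prod_union h]
  congr 1
  · refine Finset.prod_congr rfl fun z hz => ?_
    rw [exits_append, (exits_eq_nil_iff vec).2 (Finset.disjoint_left.1 h hz)]; simp
  · refine Finset.prod_congr rfl fun z hz => ?_
    rw [exits_append, (exits_eq_nil_iff vec).2 (Finset.disjoint_right.1 h hz)]; simp

lemma wt_snoc_ge {κ : ℝ≥0∞} (hκ : ∀ l d, κ * ν (cyl l) ≤ ν (cyl (l ++ [d])))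
    (x : Pt) (γ : List Dir) (d : Dir) : κ * wt vec ν x γ ≤ wt vec ν x (γ ++ [d]) := by
  have h1 : pts vec x γ ⊆ pts vec x (γ ++ [d]) := by rw [pts_append]; exact Finset.subset_union_left
  have h2 : x + disp vec γ ∈ pts vec x (γ ++ [d]) := by rw [pts_append]; simp [pts_cons]
  rw [wt_eq_prod vec ν h1]
  unfold wt
  rw [← Finset.mul_prod_erase _ _ h2, ← Finset.mul_prod_erase _ _ h2, ← mul_assoc]
  refine mul_le_mul' ?_ (le_of_eq (Finset.prod_congr rfl fun z hz => ?_))
  · rw [exits_append]; simpa [exits_cons] using hκ _ d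
  · rw [exits_append]; simp [exits_cons, (Finset.ne_of_mem_erase hz).symm]

lemma wt_append_ge {κ : ℝ≥0∞} (hκ : ∀ l d, κ * ν (cyl l) ≤ ν (cyl (l ++ [d])))
    (x : Pt) (γ δ : List Dir) : κ ^ δ.length * wt vec ν x γ ≤ wt vec ν x (γ ++ δ) := by
  induction δ using List.reverseRecOn with
  | nil => simp
  | append_singleton δ d ih =>
    rw [← List.append_assoc]
    refine le_trans ?_ (wt_snoc_ge vec ν hκ x _ d)
    simp only [List.length_append, List.length_singleton, pow_succ', mul_assoc]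
    gcongr

omit [IsProbabilityMeasure ν] in
lemma cyl_ge {κ : ℝ≥0∞} (hκ : ∀ l d, κ * ν (cyl l) ≤ ν (cyl (l ++ [d])))
    (l l' : List Dir) : κ ^ l'.length * ν (cyl l) ≤ ν (cyl (l ++ l')) := by
  induction l' using List.reverseRecOn with
  | nil => simp
  | append_singleton δ d ih =>
    rw [← List.append_assoc]
    refine le_trans ?_ (hκ _ d)
    simp only [List.length_append, List.length_singleton, pow_succ', mul_assoc]
    gcongr

lemma Fol_append_subset (x : Pt) (γ δ : List Dir) : Fol vec x (γ ++ δ) ⊆ Fol vec x γ := by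
  intro a ha z
  have := ha z
  rw [exits_append] at this
  exact cyl_append_subset _ _ this

lemma comparable_of_mem_Fol {a : Pt → ℕ → Dir} {x : Pt} {γ γ' : List Dir}
    (h : a ∈ Fol vec x γ) (h' : a ∈ Fol vec x γ') :
    (∃ τ, γ' = γ ++ τ) ∨ (∃ τ, γ = γ' ++ τ) := by
  rcases list_trichotomy γ γ' with h1 | h1 | ⟨π, d, d', τ, τ', h1, rfl, rfl⟩
  · exact Or.inl h1
  · exact Or.inr h1
  · exfalso
    have e1 := h (x + disp vec π)
    have e2 := h' (x + disp vec π)
    rw [exits_append, exits_cons] at e1 e2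
    simp only [if_true, List.singleton_append] at e1 e2
    exact h1 ((apply_of_mem_cyl e1).symm.trans (apply_of_mem_cyl e2))

/-- The weight of a family of paths none of which extends another. -/
lemma arrows_iUnion {ι : Type} [Countable ι] (x : Pt) (γ : ι → List Dir)
    (h : ∀ i j τ, γ j = γ i ++ τ → i = j) :
    arrows ν (⋃ i, Fol vec x (γ i)) = ∑' i, wt vec ν 0 (γ i) := by
  rw [measure_iUnion _ (fun i => measurableSet_Fol vec x _)]
  · simp only [arrows_Fol, wt_shift vec ν x]
  · intro i j hij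
    refine Set.disjoint_left.2 fun a ha hb => hij ?_
    rcases comparable_of_mem_Fol vec ha hb with ⟨τ, e⟩ | ⟨τ, e⟩
    · exact h _ _ _ e
    · exact (h _ _ _ e).symm

lemma tsum_wt_le_one {ι : Type} [Countable ι] (γ : ι → List Dir)
    (h : ∀ i j τ, γ j = γ i ++ τ → i = j) : ∑' i, wt vec ν 0 (γ i) ≤ 1 := by
  rw [← arrows_iUnion vec ν 0 γ h]; exact prob_le_one

end Paths

end Pool.Agent.MP_db8016_pr

end

section

/-! Levels, bridges, slabs, and the statements that are passed between the files. -/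

namespace Pool.Agent.MP_db8016_pr
open MeasureTheory ProbabilityTheory Filter
open scoped ENNReal

structure IsVec (vec : Dir → Pt) : Prop where
  unit : ∀ d, vec d = (1, 0) ∨ vec d = (-1, 0) ∨ vec d = (0, 1) ∨ vec d = (0, -1)
  right : ∃ d, vec d = (1, 0)
  left : ∃ d, vec d = (-1, 0)
  up : ∃ d, vec d = (0, 1)

/-- The level `ε (z₁ + s z₂)`. -/
def lev (s ε : ℝ) : Pt →+ ℝ where
  toFun z := ε * ((z.1 : ℝ) + s * (z.2 : ℝ))
  map_zero' := by simp
  map_add' a b := by simp only [Prod.fst_add, Prod.snd_add, Int.cast_add]; ring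

lemma lev_apply (s ε : ℝ) (z : Pt) : lev s ε z = ε * ((z.1 : ℝ) + s * (z.2 : ℝ)) := rfl

/-- The height above the line of slope `m`. -/
def phi (s m : ℝ) : Pt →+ ℝ where
  toFun z := (z.2 : ℝ) - m * ((z.1 : ℝ) + s * (z.2 : ℝ))
  map_zero' := by simp
  map_add' a b := by simp only [Prod.fst_add, Prod.snd_add, Int.cast_add]; ring

lemma phi_apply (s m : ℝ) (z : Pt) :
    phi s m z = (z.2 : ℝ) - m * ((z.1 : ℝ) + s * (z.2 : ℝ)) := rfl

/-- Uniform ellipticity of the law of a stack of arrows. -/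
def UEL (ν : Measure (ℕ → Dir)) (κ : ℝ≥0∞) : Prop :=
  ∀ l d, κ * ν (cyl l) ≤ ν (cyl (l ++ [d]))

section
variable (vec : Dir → Pt)

/-- All points of a path, the end point included. -/
def allp (x : Pt) (γ : List Dir) : Finset Pt := insert (x + disp vec γ) (pts vec x γ)

/-- Each level is reached without going below `0` with probability at least `q`. -/
def Esc (ν : Measure (ℕ → Dir)) (L : Pt → ℝ) (q : ℝ≥0∞) : Prop := ∀ t : ℝ,
  q ≤ ∑' γ : {γ : List Dir // (∀ u ∈ pts vec 0 γ, 0 ≤ L u ∧ L u < t) ∧ t ≤ L (disp vec γ)},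
    wt vec ν 0 γ

/-- Step sequences that are transient for the level `L`. -/
def Transi (L : Pt → ℝ) : Set (ℕ → Dir) :=
  {e | Tendsto (fun n => L (disp vec (pre e n))) atTop atTop}

def IsBridge (L : Pt → ℝ) (γ : List Dir) : Prop :=
  ∀ u ∈ pts vec 0 γ, 0 ≤ L u ∧ L u + 1 ≤ L (disp vec γ)

def IsSlab (L : Pt → ℝ) (γ : List Dir) : Prop :=
  γ ≠ [] ∧ IsBridge vec L γ ∧
    ∀ α β, γ = α ++ β → IsBridge vec L α → IsBridge vec L β → α = [] ∨ β = []

def Slab (L : Pt → ℝ) : Type := {γ : List Dir // IsSlab vec L γ}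

instance (L : Pt → ℝ) : Countable (Slab vec L) := by unfold Slab; infer_instance
instance (L : Pt → ℝ) : MeasurableSpace (Slab vec L) := ⊤
instance (L : Pt → ℝ) : DiscreteMeasurableSpace (Slab vec L) := ⟨fun _ => trivial⟩

/-- Concatenation of a list of slabs. -/
def flat {L : Pt → ℝ} (l : List (Slab vec L)) : List Dir := (l.map Subtype.val).flatten

/-- The renewal structure of the walk for the level `lev s ε`. -/
noncomputable def side (ν : Measure (ℕ → Dir)) (s ε : ℝ) : Side (Slab vec (lev s ε)) where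
  f := Measure.sum fun σ => wt vec ν 0 σ.1 • Measure.dirac σ
  W σ := lev s ε (disp vec σ.1)
  ξ σ := ε * ((disp vec σ.1).2 : ℝ)
  R m σ := (allp vec 0 σ.1).sup' (Finset.insert_nonempty _ _) fun u => |phi s m u|

end

/-- The deterministic barrier: a confined crosser of a strip cannot be passed by a walker that
reads the same arrows and stays in the strip. -/
def FlowStmt : Prop := ∀ (vec : Dir → Pt), IsVec vec → ∀ (s m c G ε η : ℝ), 0 ≤ s → s ≤ 1 →
  (ε = 1 ∨ ε = -1) → (η = 1 ∨ η = -1) →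
  ∀ (a : Pt → ℕ → Dir) (x y : Pt) (γ δ : List Dir), a ∈ Fol vec x γ → a ∈ Fol vec y δ →
  (∀ u ∈ allp vec x γ, lev s ε u + 1 ≤ lev s ε y ∧ lev s ε (y + disp vec δ) + 1 ≤ lev s ε u) →
  (∀ u ∈ allp vec y δ, |phi s m u - c| ≤ G) →
  η * (phi s m x - c) < -(G + |m|) → G + |m| < η * (phi s m (x + disp vec γ) - c) → False

/-- The zero-one law for the law `S` of the step sequence and a normalised direction. -/
def CoreStmt : Prop := ∀ (vec : Dir → Pt), IsVec vec → ∀ (s : ℝ), 0 ≤ s → s ≤ 1 →
  ∀ (ν : Measure (ℕ → Dir)), IsProbabilityMeasure ν → ∀ κ : ℝ≥0∞, κ ≠ 0 → UEL ν κ →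
  ∀ (S : Measure (ℕ → Dir)), IsProbabilityMeasure S → (∀ γ, S (cyl γ) = wt vec ν 0 γ) →
  S (Transi vec (lev s 1)) = 0 ∨ S (Transi vec (lev s 1)) = 1

end Pool.Agent.MP_db8016_pr

end

section

/-! The escape probability of a transient walk and the Kalikow zero-one law. -/

namespace Pool.Agent.MP_db8016_pr
open MeasureTheory ProbabilityTheory Filter
open scoped ENNReal

namespace Zl

lemma pre_of_append {e : ℕ → Dir} {m : ℕ} {π τ : List Dir} (h : pre e m = π ++ τ) :
    pre e π.length = π :=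
  cyl_append_subset π τ (h ▸ mem_cyl_pre e m)

lemma tsum_cyl (S : Measure (ℕ → Dir)) {ι : Type} [Countable ι] (γ : ι → List Dir)
    (h : ∀ i j τ, γ j = γ i ++ τ → i = j) : ∑' i, S (cyl (γ i)) = S (⋃ i, cyl (γ i)) := by
  rw [measure_iUnion _ (fun i => measurableSet_cyl _)]
  intro i j hij
  refine Set.disjoint_left.2 fun a ha hb => hij ?_
  rcases comparable_of_mem_cyl ha hb with ⟨τ, e⟩ | ⟨τ, e⟩
  · exact h _ _ _ e
  · exact (h _ _ _ e).symm

/-- The lists that satisfy `A` while no proper initial segment does. -/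
def First (A : List Dir → Prop) : Set (List Dir) :=
  {δ | A δ ∧ ∀ π τ, δ = π ++ τ → A π → τ = []}

lemma first_free (A : List Dir → Prop) (i j : First A) (τ : List Dir) (h : j.1 = i.1 ++ τ) :
    i = j := by
  have := j.2.2 _ _ h i.2.1
  subst this
  exact Subtype.ext (by simpa using h.symm)

lemma first_cover {A : List Dir → Prop} {e : ℕ → Dir} (h : ∃ m, A (pre e m)) :
    ∃ δ : First A, e ∈ cyl δ.1 := by
  classical
  refine ⟨⟨pre e (Nat.find h), Nat.find_spec h, fun π τ h1 h2 => ?_⟩, mem_cyl_pre _ _⟩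
  by_contra hτ
  have h3 := congrArg List.length h1
  rw [pre_length, List.length_append] at h3
  have h4 := List.length_pos_iff.2 hτ
  exact Nat.find_min h (m := π.length) (by omega) (by rwa [pre_of_append h1])

lemma zero_of (S : Measure (ℕ → Dir)) [IsProbabilityMeasure S] (E : Set (ℕ → Dir)) {θ : ℝ≥0∞}
    (hθ : θ < 1) (St : List Dir → Prop) (h1 : ∀ e ∈ E, ∀ n, ∃ m, n ≤ m ∧ St (pre e m))
    (h2 : ∀ δ, St δ → ∃ B : Set (List Dir), E ∩ cyl δ ⊆ ⋃ τ : B, cyl (δ ++ τ.1) ∧
      ∑' τ : B, S (cyl (δ ++ τ.1)) ≤ θ * S (cyl δ)) : S E = 0 := by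
  have key : ∀ k : ℕ, ∀ γ, S (E ∩ cyl γ) ≤ θ ^ k * S (cyl γ) := by
    intro k
    induction k with
    | zero => intro γ; simpa using measure_mono Set.inter_subset_right
    | succ k ih =>
      have h3 : ∀ δ, St δ → S (E ∩ cyl δ) ≤ θ ^ (k + 1) * S (cyl δ) := fun δ hδ => by
        obtain ⟨B, h4, h5⟩ := h2 δ hδ
        calc S (E ∩ cyl δ) ≤ S (⋃ τ : B, E ∩ cyl (δ ++ τ.1)) := by
              refine measure_mono fun e he => ?_
              obtain ⟨τ, hτ⟩ := Set.mem_iUnion.1 (h4 he)
              exact Set.mem_iUnion.2 ⟨τ, he.1, hτ⟩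
          _ ≤ ∑' τ : B, θ ^ k * S (cyl (δ ++ τ.1)) :=
              (measure_iUnion_le _).trans (ENNReal.tsum_le_tsum fun τ => ih _)
          _ ≤ θ ^ (k + 1) * S (cyl δ) := by
              rw [ENNReal.tsum_mul_left, pow_succ, mul_assoc]; gcongr
      intro γ
      let A : List Dir → Prop := fun δ => (∃ τ, δ = γ ++ τ) ∧ St δ
      calc S (E ∩ cyl γ) ≤ S (⋃ δ : First A, E ∩ cyl δ.1) := by
            refine measure_mono fun e he => ?_
            obtain ⟨m, hm, h4⟩ := h1 e he.1 γ.length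
            obtain ⟨j, rfl⟩ := Nat.exists_eq_add_of_le hm
            obtain ⟨τ, h5, _⟩ := pre_add e γ.length j
            rw [show pre e γ.length = γ from he.2] at h5
            obtain ⟨δ, hδ⟩ := first_cover (A := A) ⟨_, ⟨τ, h5⟩, h4⟩
            exact Set.mem_iUnion.2 ⟨δ, he.1, hδ⟩
        _ ≤ ∑' δ : First A, θ ^ (k + 1) * S (cyl δ.1) :=
            (measure_iUnion_le _).trans (ENNReal.tsum_le_tsum fun δ => h3 _ δ.2.1.2)
        _ ≤ θ ^ (k + 1) * S (cyl γ) := by
            rw [ENNReal.tsum_mul_left, tsum_cyl S _ (first_free A)]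
            gcongr
            refine Set.iUnion_subset fun δ => ?_
            obtain ⟨τ, h⟩ := δ.2.1.1
            rw [h]; exact cyl_append_subset _ _
  refine le_antisymm (ge_of_tendsto' (ENNReal.tendsto_pow_atTop_nhds_zero_of_lt_one hθ)
    fun k => ?_) zero_le
  simpa using key k []

variable {vec : Dir → Pt} {L : Pt →+ ℝ}

lemma mem_pts_pre {e : ℕ → Dir} {m : ℕ} {u : Pt} :
    u ∈ pts vec 0 (pre e m) ↔ ∃ i < m, u = disp vec (pre e i) := by
  induction m with
  | zero => simp
  | succ m ih =>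
    rw [pre_succ, pts_append, Finset.mem_union, ih]
    simp only [pts_cons, pts_nil, zero_add, Finset.mem_insert, Finset.notMem_empty, or_false]
    constructor
    · rintro (⟨i, hi, h⟩ | h)
      · exact ⟨i, by omega, h⟩
      · exact ⟨m, by omega, h⟩
    · rintro ⟨i, hi, h⟩
      rcases Nat.lt_succ_iff_lt_or_eq.1 hi with h1 | rfl
      · exact Or.inl ⟨i, h1, h⟩
      · exact Or.inr h

lemma abs_lev (hL : ∀ d, |L (vec d)| ≤ 1) (γ : List Dir) : |L (disp vec γ)| ≤ γ.length := by
  induction γ with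
  | nil => simp
  | cons d γ ih =>
    rw [disp_cons, map_add, List.length_cons, Nat.cast_succ]
    linarith [abs_add_le (L (vec d)) (L (disp vec γ)), hL d]

lemma lev_rep {d₀ : Dir} (hd₀ : L (vec d₀) = 1) (n : ℕ) :
    L (disp vec (List.replicate n d₀)) = n := by
  induction n with
  | zero => simp
  | succ n ih => rw [List.replicate_succ, disp_cons, map_add, hd₀, ih]; push_cast; ring

lemma pts_rep {d₀ : Dir} (hd₀ : L (vec d₀) = 1) (n : ℕ) (x u : Pt)
    (h : u ∈ pts vec x (List.replicate n d₀)) : L x ≤ L u ∧ L u < L x + n := by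
  induction n generalizing x with
  | zero => simp at h
  | succ n ih =>
    rw [List.replicate_succ, pts_cons, Finset.mem_insert] at h
    have h0 : (0 : ℝ) ≤ n := n.cast_nonneg
    push_cast
    rcases h with rfl | h
    · exact ⟨le_rfl, by linarith⟩
    · have := ih _ h
      rw [map_add, hd₀] at this
      exact ⟨by linarith [this.1], by linarith [this.2]⟩

lemma sub_fam {t : ℝ} {β : List Dir} (h1 : ∀ u ∈ pts vec 0 β, 0 ≤ L u) (h2 : t ≤ L (disp vec β)) :
    cyl β ⊆ ⋃ γ : {γ : List Dir // (∀ u ∈ pts vec 0 γ, 0 ≤ L u ∧ L u < t) ∧ t ≤ L (disp vec γ)},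
      cyl γ.1 := by
  classical
  intro e he
  have hb : pre e β.length = β := he
  have h : ∃ m, t ≤ L (disp vec (pre e m)) := ⟨β.length, by rwa [hb]⟩
  have h3 : Nat.find h ≤ β.length := Nat.find_min' h (by rwa [hb])
  refine Set.mem_iUnion.2 ⟨⟨pre e (Nat.find h), fun u hu => ?_, Nat.find_spec h⟩, mem_cyl_pre _ _⟩
  obtain ⟨i, hi, rfl⟩ := mem_pts_pre.1 hu
  exact ⟨h1 _ (hb ▸ mem_pts_pre.2 ⟨i, by omega, rfl⟩), not_le.1 (Nat.find_min h hi)⟩

lemma wt_three (ν : Measure (ℕ → Dir)) [IsProbabilityMeasure ν] (α β γ : List Dir)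
    (h : Disjoint (pts vec 0 α) (pts vec (disp vec α + disp vec β) γ)) :
    wt vec ν 0 (α ++ β) * wt vec ν 0 (β ++ γ) ≤ wt vec ν 0 (α ++ (β ++ γ)) := by
  rw [← wt_shift vec ν (disp vec α) (β ++ γ),
    wt_eq_prod vec ν (γ := α ++ β) (T := pts vec 0 (α ++ (β ++ γ))) (by
      rw [← List.append_assoc, pts_append vec 0 (α ++ β)]; exact Finset.subset_union_left),
    wt_eq_prod vec ν (γ := β ++ γ) (T := pts vec 0 (α ++ (β ++ γ))) (by
      rw [pts_append vec 0 α, zero_add]; exact Finset.subset_union_right),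
    ← Finset.prod_mul_distrib, wt]
  refine Finset.prod_le_prod' fun z _ => ?_
  by_cases hz : z ∈ pts vec 0 α
  · rw [← List.append_assoc, exits_append vec 0 z (α ++ β), disp_append, zero_add,
      (exits_eq_nil_iff vec).2 (Finset.disjoint_left.1 h hz), List.append_nil]
    exact mul_le_of_le_one_right' prob_le_one
  · rw [exits_append vec 0 z α (β ++ γ), (exits_eq_nil_iff vec).2 hz, List.nil_append, zero_add]
    exact mul_le_of_le_one_left' prob_le_one

end Zl

open Zl

theorem esc_of_trans (vec : Dir → Pt) (ν S : Measure (ℕ → Dir)) [IsProbabilityMeasure ν]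
    [IsProbabilityMeasure S] (L : Pt →+ ℝ) (hL : ∀ d, |L (vec d)| ≤ 1) (d₀ : Dir)
    (hd₀ : L (vec d₀) = 1) {κ : ℝ≥0∞} (hκ : κ ≠ 0) (hU : UEL ν κ)
    (hS : ∀ γ, S (cyl γ) = wt vec ν 0 γ) (h : S (Transi vec L) ≠ 0) :
    ∃ q, q ≠ 0 ∧ Esc vec ν L q := by
  let E : ℕ → Set (ℕ → Dir) := fun n =>
    {e | e ∈ Transi vec L ∧ ∀ m, n ≤ m → 0 ≤ L (disp vec (pre e m))}
  obtain ⟨n, hn⟩ : ∃ n, S (E n) ≠ 0 := by
    by_contra hc
    push Not at hc
    refine h (measure_mono_null (fun e he => ?_) (measure_iUnion_null hc))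
    obtain ⟨n, h1⟩ := tendsto_atTop_atTop.1 he 0
    exact Set.mem_iUnion.2 ⟨n, he, h1⟩
  refine ⟨κ ^ (n + n) * S (E n), mul_ne_zero (pow_ne_zero _ hκ) hn, fun t => ?_⟩
  let A : List Dir → Prop := fun γ =>
    ∃ e ∈ E n, ∃ k, γ = pre e (n + k) ∧ t ≤ L (disp vec (pre e (n + k)))
  let α := List.replicate n d₀
  have hα : L (disp vec α) = n := lev_rep hd₀ n
  calc κ ^ (n + n) * S (E n) ≤ κ ^ (n + n) * ∑' γ : First A, S (cyl γ.1) := by
        gcongr
        refine le_trans (measure_mono fun e he => ?_) (measure_iUnion_le _)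
        obtain ⟨k, hk⟩ := tendsto_atTop_atTop.1 he.1 t
        exact Set.mem_iUnion.2 (first_cover ⟨n + k, e, he, k, rfl, hk _ (by omega)⟩)
    _ ≤ ∑' γ : First A, S (cyl (α ++ γ.1)) := by
        rw [← ENNReal.tsum_mul_left]
        refine ENNReal.tsum_le_tsum fun γ => ?_
        obtain ⟨e, he, k, h1, -⟩ := γ.2.1
        obtain ⟨τ, h2, -⟩ := pre_add e n k
        rw [h1, h2, hS, hS]
        refine le_trans ?_ (wt_three ν α (pre e n) τ (Finset.disjoint_left.2 fun u h3 h4 => ?_))
        · gcongr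
          simpa [α] using wt_append_ge vec ν hU 0 [] (α ++ pre e n)
        · obtain ⟨a, d, b, rfl, rfl⟩ := (mem_pts_iff vec).1 h4
          have h5 := (pts_rep hd₀ n _ _ h3).2
          rw [← List.append_assoc] at h2
          have h6 := he.2 (pre e n ++ a).length (by simp)
          rw [pre_of_append h2, disp_append] at h6
          rw [add_assoc, map_add, hα, map_zero] at h5
          linarith
    _ ≤ S (⋃ γ : {γ : List Dir // (∀ u ∈ pts vec 0 γ, 0 ≤ L u ∧ L u < t) ∧ t ≤ L (disp vec γ)},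
          cyl γ.1) := by
        rw [tsum_cyl S _ fun i j τ h => first_free A i j τ
          (List.append_cancel_left (h.trans (List.append_assoc _ _ _)))]
        refine measure_mono (Set.iUnion_subset fun γ => ?_)
        obtain ⟨e, he, k, h1, h2⟩ := γ.2.1
        have h0 : (0 : ℝ) ≤ n := n.cast_nonneg
        rw [h1]
        refine sub_fam (fun u hu => ?_) (by rw [disp_append, map_add, hα]; linarith)
        rw [pts_append, Finset.mem_union, zero_add] at hu
        rcases hu with hu | hu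
        · simpa using (pts_rep hd₀ n _ _ hu).1
        · obtain ⟨i, -, h3⟩ := mem_pts_pre.1 ((mem_pts_shift vec).1 hu)
          have h4 := congrArg L h3
          rw [map_sub, hα] at h4
          rcases le_total n i with h5 | h5
          · linarith [he.2 i h5]
          · have h6 := (abs_le.1 (abs_lev hL (pre e i))).1
            rw [pre_length] at h6
            have h7 : (i : ℝ) ≤ n := by exact_mod_cast h5
            linarith
    _ ≤ _ := (measure_iUnion_le _).trans (le_of_eq (tsum_congr fun γ => hS _))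

theorem trans_or (vec : Dir → Pt) (ν S : Measure (ℕ → Dir)) [IsProbabilityMeasure ν]
    [IsProbabilityMeasure S] (L : Pt →+ ℝ) (hL : ∀ d, |L (vec d)| ≤ 1) (d₀ : Dir)
    (hd₀ : L (vec d₀) = 1) {κ : ℝ≥0∞} (hκ : κ ≠ 0) (hU : UEL ν κ)
    (hS : ∀ γ, S (cyl γ) = wt vec ν 0 γ) {q : ℝ≥0∞} (hq : q ≠ 0) (h : Esc vec ν L q) :
    S (Transi vec L ∪ Transi vec (fun z => -L z))ᶜ = 0 := by
  classical
  let Ea : ℕ → Set (ℕ → Dir) := fun c => {e | (∀ m, L (disp vec (pre e m)) ≤ c) ∧
    ∀ n, ∃ m, n ≤ m ∧ -(c : ℝ) ≤ L (disp vec (pre e m))}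
  let Eb : ℕ → Set (ℕ → Dir) := fun c => {e | (∀ M : ℕ, ∃ m, (M : ℝ) < L (disp vec (pre e m))) ∧
    ∀ n, ∃ m, n ≤ m ∧ L (disp vec (pre e m)) < c}
  have ha : ∀ c, S (Ea c) = 0 := fun c => by
    refine zero_of S _ (θ := 1 - κ ^ (2 * c + 1))
      (ENNReal.sub_lt_self ENNReal.one_ne_top one_ne_zero (pow_ne_zero _ hκ))
      (fun δ => -(c : ℝ) ≤ L (disp vec δ)) (fun e he => he.2) fun δ hδ =>
        ⟨{τ | τ.length = 2 * c + 1 ∧ τ ≠ List.replicate (2 * c + 1) d₀}, fun e he => ?_, ?_⟩
    · obtain ⟨τ, h1, h2⟩ := pre_add e δ.length (2 * c + 1)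
      rw [show pre e δ.length = δ from he.2] at h1
      refine Set.mem_iUnion.2 ⟨⟨τ, h2, fun h3 => ?_⟩, h1 ▸ mem_cyl_pre e _⟩
      have h4 := he.1.1 (δ.length + (2 * c + 1))
      rw [h1, h3, disp_append, map_add, lev_rep hd₀] at h4
      push_cast at h4
      linarith
    · rw [tsum_cyl S _ fun i j τ h => ?_]
      · refine le_trans (b := S (cyl δ \ cyl (δ ++ List.replicate (2 * c + 1) d₀)))
          (measure_mono (Set.iUnion_subset fun τ e he =>
            ⟨cyl_append_subset _ _ he, fun h1 => τ.2.2 ?_⟩)) ?_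
        · have h2 : pre e _ = _ := he
          have h3 : pre e _ = _ := h1
          rw [List.length_append, τ.2.1] at h2
          rw [List.length_append, List.length_replicate, h2] at h3
          exact List.append_cancel_left h3
        · rw [measure_sdiff (cyl_append_subset _ _) (measurableSet_cyl _).nullMeasurableSet
            (measure_ne_top _ _), ENNReal.sub_mul fun _ _ => measure_ne_top _ _, one_mul]
          refine tsub_le_tsub_left ?_ _
          simpa [hS] using wt_append_ge vec ν hU 0 δ (List.replicate (2 * c + 1) d₀)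
      · have h1 := List.append_cancel_left (h.trans (List.append_assoc _ _ _))
        have h2 := congrArg List.length h1
        rw [List.length_append, i.2.1, j.2.1] at h2
        rw [List.length_eq_zero_iff.1 (show τ.length = 0 by omega), List.append_nil] at h1
        exact Subtype.ext h1.symm
  have hN : S {e | ∃ n, L (disp vec (pre e n)) < 0} ≤ 1 - q := by
    have h1 : {e | ∃ n, L (disp vec (pre e n)) < 0} =
        ⋃ k : ℕ, {e | ∃ n ≤ k, L (disp vec (pre e n)) < 0} := by
      ext e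
      simp only [Set.mem_ofPred_eq, Set.mem_iUnion]
      exact ⟨fun ⟨n, h⟩ => ⟨n, n, le_rfl, h⟩, fun ⟨_, n, _, h⟩ => ⟨n, h⟩⟩
    have h0 : Monotone fun k : ℕ => {e | ∃ n ≤ k, L (disp vec (pre e n)) < 0} :=
      fun k k' hk e ⟨n, h2, h3⟩ => ⟨n, h2.trans hk, h3⟩
    rw [h1, h0.measure_iUnion]
    refine iSup_le fun k => ?_
    have h2 := h (k + 1)
    simp only [← hS] at h2
    rw [tsum_cyl S _ fun i j τ h => ?_] at h2
    · refine le_trans (measure_mono ?_) ((prob_compl_eq_one_sub
        (MeasurableSet.iUnion fun _ => measurableSet_cyl _)).le.trans (tsub_le_tsub_left h2 _))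
      rintro e ⟨n, h3, h4⟩ h5
      obtain ⟨γ, hγ⟩ := Set.mem_iUnion.1 h5
      have h6 := γ.2.2.trans ((le_abs_self _).trans (abs_lev hL γ.1))
      have h7 : k + 1 ≤ γ.1.length := by exact_mod_cast h6
      have h8 : pre e _ = _ := hγ
      exact absurd (γ.2.1 _ (h8 ▸ mem_pts_pre.2 ⟨n, by omega, rfl⟩)).1 (not_le.2 h4)
    · cases τ with
      | nil => exact Subtype.ext (by simpa using h.symm)
      | cons d τ =>
        exact absurd (j.2.1 _ ((mem_pts_iff vec).2 ⟨_, d, τ, h, (zero_add _).symm⟩)).2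
          (not_lt.2 i.2.2)
  have hb : ∀ c, S (Eb c) = 0 := fun c => by
    refine zero_of S _ (θ := 1 - q) (ENNReal.sub_lt_self ENNReal.one_ne_top one_ne_zero hq)
      (fun δ => (∀ u ∈ pts vec 0 δ, L u < L (disp vec δ)) ∧ (c : ℝ) ≤ L (disp vec δ))
      (fun e he n => ?_) fun δ hδ =>
        ⟨{τ | (∀ u ∈ pts vec 0 τ, 0 ≤ L u) ∧ L (disp vec τ) < 0}, fun e he => ?_, ?_⟩
    · have h1 := he.1 (n + c)
      have h2 := Nat.find_spec h1
      have h3 := h2.trans_le ((le_abs_self _).trans (abs_lev hL _))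
      rw [pre_length] at h3
      have h4 : n + c < Nat.find h1 := by exact_mod_cast h3
      refine ⟨Nat.find h1, by omega, fun u hu => ?_, le_trans ?_ h2.le⟩
      · obtain ⟨i, hi, rfl⟩ := mem_pts_pre.1 hu
        exact (not_lt.1 (Nat.find_min h1 hi)).trans_lt h2
      · exact_mod_cast Nat.le_add_left c n
    · have h0 : pre e δ.length = δ := he.2
      have h1 : ∃ k, L (disp vec (pre e (δ.length + k))) < L (disp vec δ) := by
        obtain ⟨m, h2, h3⟩ := he.1.2 δ.length
        obtain ⟨k, rfl⟩ := Nat.exists_eq_add_of_le h2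
        exact ⟨k, h3.trans_le hδ.2⟩
      obtain ⟨τ, h2, h3⟩ := pre_add e δ.length (Nat.find h1)
      have h4 := Nat.find_spec h1
      rw [h0] at h2
      rw [h2, disp_append, map_add] at h4
      refine Set.mem_iUnion.2 ⟨⟨τ, fun u hu => ?_, by linarith⟩, h2 ▸ mem_cyl_pre e _⟩
      obtain ⟨a, d, b, rfl, rfl⟩ := (mem_pts_iff vec).1 hu
      rw [← List.append_assoc] at h2
      have h5 := Nat.find_min h1 (m := a.length) (by rw [← h3]; simp)
      rw [← List.length_append, pre_of_append h2, disp_append, map_add] at h5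
      rw [zero_add]
      linarith
    · have h1 : ∀ τ : {τ | (∀ u ∈ pts vec 0 τ, 0 ≤ L u) ∧ L (disp vec τ) < 0},
          S (cyl (δ ++ τ.1)) = S (cyl τ.1) * S (cyl δ) := fun τ => by
        rw [hS, hS, hS, wt_append_of_disjoint vec ν (Finset.disjoint_left.2 fun u h2 h3 => ?_),
          wt_shift vec ν (0 + _), mul_comm]
        have h4 := τ.2.1 _ ((mem_pts_shift vec).1 h3)
        rw [zero_add, map_sub] at h4
        linarith [hδ.1 u h2]
      simp only [h1]
      rw [ENNReal.tsum_mul_right, tsum_cyl S _ fun i j τ h => ?_]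
      · gcongr
        refine le_trans (measure_mono (Set.iUnion_subset fun τ e he => ?_)) hN
        exact ⟨τ.1.length, by rw [show pre e τ.1.length = τ.1 from he]; exact τ.2.2⟩
      · cases τ with
        | nil => exact Subtype.ext (by simpa using h.symm)
        | cons d τ =>
          exact absurd (j.2.1 _ ((mem_pts_iff vec).2 ⟨_, d, τ, h, (zero_add _).symm⟩))
            (not_le.2 i.2.2)
  refine measure_mono_null (fun e he => ?_)
    (measure_union_null (measure_iUnion_null ha) (measure_iUnion_null hb))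
  simp only [Transi, Set.mem_compl_iff, Set.mem_union, Set.mem_ofPred_eq, tendsto_atTop_atTop,
    not_or, not_forall, not_exists, not_le] at he
  obtain ⟨⟨b, h1⟩, b', h2⟩ := he
  by_cases h3 : ∀ M : ℕ, ∃ m, (M : ℝ) < L (disp vec (pre e m))
  · refine Or.inr (Set.mem_iUnion.2 ⟨⌈b⌉₊, h3, fun n => ?_⟩)
    obtain ⟨m, h4, h5⟩ := h1 n
    exact ⟨m, h4, h5.trans_le (Nat.le_ceil b)⟩
  · push Not at h3
    obtain ⟨M, h3⟩ := h3
    have h4 := Nat.le_ceil b'
    have h5 : (0 : ℝ) ≤ M := M.cast_nonneg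
    have h6 : (0 : ℝ) ≤ ⌈b'⌉₊ := Nat.cast_nonneg _
    refine Or.inl (Set.mem_iUnion.2 ⟨M + ⌈b'⌉₊, fun m => ?_, fun n => ?_⟩)
    · push_cast; linarith [h3 m]
    · obtain ⟨m, h7, h8⟩ := h2 n
      exact ⟨m, h7, by push_cast; linarith⟩

end Pool.Agent.MP_db8016_pr

end

section

/-! From the cookie environment to the statement about step sequences. -/

namespace Pool.Agent.MP_db8016_pr
open MeasureTheory ProbabilityTheory Filter
open scoped ENNReal

namespace StmtAux

/-- The weight of a list of exits for a stack of cookies. -/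
noncomputable def cw (b : Fin 4 → ℕ → ℝ) (l : List Dir) : ℝ≥0∞ :=
  ∏ i ∈ Finset.range l.length, ENNReal.ofReal (b (l.getD i 0) i)

@[simp] lemma cw_nil (b : Fin 4 → ℕ → ℝ) : cw b [] = 1 := by simp [cw]

lemma cw_snoc (b : Fin 4 → ℕ → ℝ) (l : List Dir) (d : Dir) :
    cw b (l ++ [d]) = cw b l * ENNReal.ofReal (b d l.length) := by
  unfold cw
  rw [List.length_append, List.length_singleton, Finset.prod_range_succ]
  congr 1
  · refine Finset.prod_congr rfl fun i hi => ?_
    rw [List.getD_append _ _ _ _ (Finset.mem_range.1 hi)]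
  · simp

lemma measurable_cw (l : List Dir) : Measurable fun b => cw b l := by
  unfold cw
  refine Finset.measurable_prod _ fun i _ => ENNReal.measurable_ofReal.comp ?_
  exact (measurable_pi_apply i).comp (measurable_pi_apply _)

/-- The direction chosen by a uniform variable. -/
noncomputable def pick (a : Fin 4 → ℝ) (u : ℝ) : Dir :=
  if u < a 0 then 0 else if u < a 0 + a 1 then 1 else if u < a 0 + a 1 + a 2 then 2 else 3

lemma measurable_pick : Measurable fun x : (Fin 4 → ℝ) × ℝ => pick x.1 x.2 := by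
  unfold pick
  refine Measurable.ite (measurableSet_lt (by fun_prop) (by fun_prop)) measurable_const ?_
  refine Measurable.ite (measurableSet_lt (by fun_prop) (by fun_prop)) measurable_const ?_
  exact Measurable.ite (measurableSet_lt (by fun_prop) (by fun_prop)) measurable_const
    measurable_const

/-- The uniform law. -/
noncomputable def lam : Measure ℝ := volume.restrict (Set.Ico 0 1)

instance : IsProbabilityMeasure lam := ⟨by simp [lam]⟩

lemma measurableSet_pick (a : Fin 4 → ℝ) (d : Dir) : MeasurableSet {u | pick a u = d} :=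
  (measurable_pick.comp (measurable_const.prodMk measurable_id)) (measurableSet_singleton d)

lemma lam_pick {a : Fin 4 → ℝ} (h0 : ∀ d, 0 ≤ a d) (h1 : ∑ d, a d = 1) (d : Dir) :
    lam {u | pick a u = d} = ENNReal.ofReal (a d) := by
  rw [lam, Measure.restrict_apply (measurableSet_pick a d)]
  rw [Fin.sum_univ_four] at h1
  have a0 := h0 0
  have a1 := h0 1
  have a2 := h0 2
  have a3 := h0 3
  have key : ∀ x y : ℝ, y - x = a d → (∀ u, (pick a u = d ∧ 0 ≤ u ∧ u < 1) ↔ (x ≤ u ∧ u < y)) →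
      volume ({u | pick a u = d} ∩ Set.Ico 0 1) = ENNReal.ofReal (a d) := by
    intro x y h2 h3
    rw [← h2, ← Real.volume_Ico]
    congr 1
    ext u
    exact h3 u
  fin_cases d
  · refine key 0 (a 0) (by simp) fun u => ?_
    unfold pick
    split_ifs <;> simp <;> grind
  · refine key (a 0) (a 0 + a 1) (by simp) fun u => ?_
    unfold pick
    split_ifs <;> simp <;> grind
  · refine key (a 0 + a 1) (a 0 + a 1 + a 2) (by simp) fun u => ?_
    unfold pick
    split_ifs <;> simp <;> grind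
  · refine key (a 0 + a 1 + a 2) 1 (by simp; linarith) fun u => ?_
    unfold pick
    split_ifs <;> simp <;> grind

lemma mem_cyl_iff {a : ℕ → Dir} {l : List Dir} :
    a ∈ cyl l ↔ ∀ i < l.length, a i = l.getD i 0 := by
  induction l using List.reverseRecOn with
  | nil => simp
  | append_singleton l d ih =>
    rw [mem_cyl_snoc, ih, List.length_append, List.length_singleton]
    constructor
    · rintro ⟨h1, h2⟩ i hi
      rcases Nat.lt_succ_iff_lt_or_eq.1 hi with h | rfl
      · rw [List.getD_append _ _ _ _ h]; exact h1 i h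
      · simpa using h2
    · intro h
      refine ⟨fun i hi => ?_, by simpa using h l.length (by omega)⟩
      rw [h i (by omega), List.getD_append _ _ _ _ hi]

lemma exists_nu (μ : Measure (ℤ × ℤ → Fin 4 → ℕ → ℝ)) [IsProbabilityMeasure μ]
    (hsum : ∀ᵐ ω ∂μ, ∀ z i, ∑ e, ω z e i = 1) (h0 : ∀ᵐ ω ∂μ, ∀ z e i, 0 ≤ ω z e i) :
    ∃ ν : Measure (ℕ → Dir), IsProbabilityMeasure ν ∧
      ∀ l, ν (cyl l) = ∫⁻ ω, cw (ω 0) l ∂μ := by
  let F : (ℤ × ℤ → Fin 4 → ℕ → ℝ) × (ℕ → ℝ) → ℕ → Dir :=
    fun x i => pick (fun e => x.1 0 e i) (x.2 i)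
  have hF : Measurable F := by
    refine measurable_pi_lambda _ fun i => ?_
    refine measurable_pick.comp
      (f := fun x : (ℤ × ℤ → Fin 4 → ℕ → ℝ) × (ℕ → ℝ) => ((fun e => x.1 0 e i), x.2 i)) ?_
    fun_prop
  refine ⟨(μ.prod (Measure.infinitePi fun _ : ℕ => lam)).map F,
    Measure.isProbabilityMeasure_map hF.aemeasurable, fun l => ?_⟩
  rw [Measure.map_apply hF (measurableSet_cyl l), Measure.prod_apply (hF (measurableSet_cyl l))]
  refine lintegral_congr_ae ?_
  filter_upwards [hsum, h0] with ω h1 h2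
  have : Prod.mk ω ⁻¹' (F ⁻¹' cyl l) = Set.pi (Finset.range l.length : Set ℕ)
      fun i => {u | pick (fun e => ω 0 e i) u = l.getD i 0} := by
    ext u
    simp only [Set.mem_preimage, mem_cyl_iff, Set.mem_pi, Finset.coe_range, Set.mem_Iio,
      Set.mem_ofPred_eq, F]
  rw [this, Measure.infinitePi_pi _ fun i _ => measurableSet_pick _ _]
  exact Finset.prod_congr rfl fun i _ => lam_pick (fun d => h2 0 d i) (h1 0 i) _

lemma disp_pre (e : ℕ → Fin 4) (n : ℕ) : disp step (pre e n) = pos e n := by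
  induction n with
  | zero => simp [pos]
  | succ n ih => rw [pre_succ, disp_append, ih]; simp [pos, Finset.sum_range_succ]

lemma exits_pre_succ (e : ℕ → Fin 4) (n : ℕ) (z : Pt) :
    exits step 0 (pre e (n + 1)) z =
      exits step 0 (pre e n) z ++ if pos e n = z then [e n] else [] := by
  rw [pre_succ, exits_append, disp_pre, zero_add, exits_cons]
  simp

lemma length_exits (e : ℕ → Fin 4) (n : ℕ) (z : Pt) :
    (exits step 0 (pre e n) z).length = ((Finset.range n).filter fun i => pos e i = z).card := by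
  induction n with
  | zero => simp
  | succ n ih =>
    rw [exits_pre_succ, List.length_append, ih, Finset.range_add_one, Finset.filter_insert]
    split_ifs with h
    · rw [Finset.card_insert_of_notMem (by simp)]; simp
    · simp

lemma prod_eq (ω : ℤ × ℤ → Fin 4 → ℕ → ℝ) (e : ℕ → Fin 4) (n : ℕ) :
    ∀ T : Finset Pt, pts step 0 (pre e n) ⊆ T →
      ∏ i ∈ Finset.range n, ENNReal.ofReal (ω (pos e i) (e i) (visits e i)) =
        ∏ z ∈ T, cw (ω z) (exits step 0 (pre e n) z) := by
  induction n with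
  | zero => intro T _; simp
  | succ n ih =>
    intro T hT
    rw [pre_succ, pts_append, disp_pre, zero_add] at hT
    have h1 : pos e n ∈ T := hT (Finset.mem_union_right _ (by simp [pts_cons]))
    rw [Finset.prod_range_succ, ih T (Finset.subset_union_left.trans hT),
      ← Finset.prod_erase_mul _ _ h1, ← Finset.prod_erase_mul _ _ h1, mul_assoc]
    congr 1
    · refine Finset.prod_congr rfl fun z hz => ?_
      rw [exits_pre_succ, if_neg (Finset.ne_of_mem_erase hz).symm, List.append_nil]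
    · rw [exits_pre_succ, if_pos rfl, cw_snoc, length_exits]
      rfl

lemma wt_eq_sum (vec : Dir → Pt) (ν : Measure (ℕ → Dir)) [IsProbabilityMeasure ν] (γ : List Dir) :
    wt vec ν 0 γ = ∑' d : Dir, wt vec ν 0 (γ ++ [d]) := by
  rw [← arrows_iUnion vec ν 0 (fun d : Dir => γ ++ [d]) (by
    intro i j τ h
    rw [List.append_assoc, List.append_cancel_left_eq] at h
    simp at h
    exact h.1.symm), ← arrows_Fol]
  congr 1
  refine Set.Subset.antisymm (fun a ha => ?_)
    (Set.iUnion_subset fun d => Fol_append_subset vec 0 γ [d])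
  refine Set.mem_iUnion.2 ⟨a (0 + disp vec γ) (exits vec 0 γ (0 + disp vec γ)).length, fun z => ?_⟩
  rw [exits_append, exits_cons, exits_nil, List.append_nil]
  split_ifs with h
  · rw [mem_cyl_snoc, h]
    exact ⟨ha z, rfl⟩
  · rw [List.append_nil]; exact ha z

/-- The step read from a path. -/
def dstep (v : Pt) : Dir :=
  if v = (1, 0) then 0 else if v = (-1, 0) then 1 else if v = (0, 1) then 2 else 3

lemma dstep_step (d : Dir) : dstep (step d) = d := by
  fin_cases d <;> decide

/-- The step sequence of a path. -/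
def dec (X : ℕ → Pt) (n : ℕ) : Dir := dstep (X (n + 1) - X n)

lemma measurable_dec : Measurable dec := by
  refine measurable_pi_lambda _ fun n => ?_
  have h : Measurable fun X : ℕ → Pt => (X (n + 1), X n) :=
    (measurable_pi_apply (n + 1)).prodMk (measurable_pi_apply n)
  exact (Measurable.of_discrete (f := fun x : Pt × Pt => dstep (x.1 - x.2))).comp h

/-- Paths that begin with the steps `γ`. -/
def Cy (γ : List Dir) : Set (ℕ → Pt) := {X | ∀ i ≤ γ.length, X i = pos (fun j => γ.getD j 0) i}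

lemma pos_congr {e e' : ℕ → Fin 4} {n : ℕ} (h : ∀ j < n, e j = e' j) : pos e n = pos e' n :=
  Finset.sum_congr rfl fun j hj => by rw [h j (Finset.mem_range.1 hj)]

lemma Cy_pre (e : ℕ → Fin 4) (n : ℕ) : Cy (pre e n) = {X | ∀ i ≤ n, X i = pos e i} := by
  have h := mem_cyl_iff.1 (mem_cyl_pre e n)
  rw [pre_length] at h
  ext X
  simp only [Cy, pre_length, Set.mem_ofPred_eq]
  refine forall₂_congr fun i hi => ?_
  rw [pos_congr (e' := e) fun j hj => (h j (by omega)).symm]

lemma pre_ext (γ : List Dir) : pre (fun j => γ.getD j 0) γ.length = γ :=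
  (mem_cyl_iff (a := fun j => γ.getD j 0)).2 fun _ _ => rfl

lemma measurableSet_Cy (γ : List Dir) : MeasurableSet (Cy γ) := by
  have : Cy γ = ⋂ i ∈ Set.Iic γ.length, (fun X : ℕ → Pt => X i) ⁻¹' {pos (fun j => γ.getD j 0) i} := by
    ext X; simp [Cy]
  rw [this]
  exact MeasurableSet.biInter (Set.to_countable _) fun i _ =>
    measurable_pi_apply i (measurableSet_singleton _)

lemma dec_mem_cyl {X : ℕ → Pt} {γ : List Dir} (h : X ∈ Cy γ) : dec X ∈ cyl γ := by
  refine mem_cyl_iff.2 fun i hi => ?_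
  rw [dec, h (i + 1) hi, h i hi.le, pos, pos, Finset.sum_range_succ, add_sub_cancel_left, dstep_step]

lemma Cy_snoc_subset (γ : List Dir) (d : Dir) : Cy (γ ++ [d]) ⊆ Cy γ := by
  intro X hX i hi
  rw [hX i (by simp; omega)]
  exact pos_congr fun j hj => List.getD_append _ _ _ _ (by omega)

lemma ae_path (P₀ : Measure (ℕ → ℤ × ℤ)) [IsProbabilityMeasure P₀] (w : List Dir → ℝ≥0∞)
    (hw : ∀ γ, P₀ (Cy γ) = w γ) (h0 : w [] = 1) (h1 : ∀ γ, w γ = ∑' d : Dir, w (γ ++ [d])) :
    ∀ᵐ X ∂P₀, ∀ n, X ∈ Cy (pre (dec X) n) := by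
  have a0 : ∀ᵐ X ∂P₀, X ∈ Cy [] :=
    (mem_ae_iff_prob_eq_one (measurableSet_Cy _)).2 (by rw [hw, h0])
  have a1 : ∀ᵐ X ∂P₀, ∀ γ : List Dir, X ∈ Cy γ → X ∈ ⋃ d : Dir, Cy (γ ++ [d]) := by
    refine ae_all_iff.2 fun γ => ?_
    have hm : MeasurableSet (⋃ d : Dir, Cy (γ ++ [d])) :=
      MeasurableSet.iUnion fun d => measurableSet_Cy _
    have : P₀ (Cy γ \ ⋃ d : Dir, Cy (γ ++ [d])) = 0 := by
      rw [measure_sdiff (Set.iUnion_subset fun d => Cy_snoc_subset γ d) hm.nullMeasurableSet
        (measure_ne_top _ _), measure_iUnion _ fun d => measurableSet_Cy _]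
      · simp only [hw]
        rw [← h1, tsub_self]
      · intro d d' hd
        refine Set.disjoint_left.2 fun X h h' => hd ?_
        exact (mem_cyl_snoc.1 (dec_mem_cyl h)).2.symm.trans (mem_cyl_snoc.1 (dec_mem_cyl h')).2
    filter_upwards [measure_eq_zero_iff_ae_notMem.1 this] with X hX h
    by_contra h'
    exact hX ⟨h, h'⟩
  filter_upwards [a0, a1] with X b0 b1 n
  induction n with
  | zero => simpa using b0
  | succ n ih =>
    obtain ⟨d, hd⟩ := Set.mem_iUnion.1 (b1 _ ih)
    have := (mem_cyl_snoc.1 (dec_mem_cyl hd)).2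
    rw [pre_length] at this
    rwa [pre_succ, this]

lemma measurableSet_Transi (vec : Dir → Pt) (L : Pt →+ ℝ) : MeasurableSet (Transi vec L) := by
  refine measurableSet_tendsto atTop fun n => ?_
  induction n with
  | zero => simp
  | succ n ih =>
    simp only [pre_succ, disp_append, map_add, disp_cons, disp_nil]
    exact ih.add (((Measurable.of_discrete (f := fun d => L (vec d))).comp
      (measurable_pi_apply n)).add measurable_const)

lemma exists_sign (x : ℝ) : ∃ σ : ℤ, (σ = 1 ∨ σ = -1) ∧ x = σ * |x| := by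
  rcases le_total 0 x with h | h
  · exact ⟨1, Or.inl rfl, by simp [abs_of_nonneg h]⟩
  · exact ⟨-1, Or.inr rfl, by simp [abs_of_nonpos h]⟩

lemma exists_coord (l : ℝ × ℝ) (hl : l ≠ 0) : ∃ (g : Pt →+ Pt) (c s : ℝ), Function.Injective g ∧
    IsVec (fun d => g (step d)) ∧ 0 < c ∧ 0 ≤ s ∧ s ≤ 1 ∧
    ∀ z : Pt, (z.1 : ℝ) * l.1 + (z.2 : ℝ) * l.2 = c * lev s 1 (g z) := by
  obtain ⟨σ, h1, h1'⟩ := exists_sign l.1
  obtain ⟨τ, h2, h2'⟩ := exists_sign l.2
  rcases le_total |l.2| |l.1| with h | h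
  · have hc : 0 < |l.1| := by
      by_contra hc
      apply hl
      ext
      · simpa using hc
      · exact abs_nonpos_iff.1 (h.trans (not_lt.1 hc))
    refine ⟨AddMonoidHom.mk' (fun z => (σ * z.1, τ * z.2)) (fun a b => by simp [mul_add]), |l.1|,
      |l.2| / |l.1|, ?_, ?_, hc, by positivity, (div_le_one hc).2 h, fun z => ?_⟩
    · rintro ⟨a, b⟩ ⟨a', b'⟩ hab
      rcases h1 with rfl | rfl <;> rcases h2 with rfl | rfl <;> simpa using hab
    · rcases h1 with rfl | rfl <;> rcases h2 with rfl | rfl <;>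
        exact ⟨by decide, by decide, by decide, by decide⟩
    · simp only [lev_apply, AddMonoidHom.mk'_apply]
      push_cast
      field_simp
      linear_combination (z.1 : ℝ) * h1' + (z.2 : ℝ) * h2'
  · have hc : 0 < |l.2| := by
      by_contra hc
      apply hl
      ext
      · exact abs_nonpos_iff.1 (h.trans (not_lt.1 hc))
      · simpa using hc
    refine ⟨AddMonoidHom.mk' (fun z => (τ * z.2, σ * z.1)) (fun a b => by simp [mul_add]), |l.2|,
      |l.1| / |l.2|, ?_, ?_, hc, by positivity, (div_le_one hc).2 h, fun z => ?_⟩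
    · rintro ⟨a, b⟩ ⟨a', b'⟩ hab
      rcases h1 with rfl | rfl <;> rcases h2 with rfl | rfl <;> simpa [and_comm] using hab
    · rcases h1 with rfl | rfl <;> rcases h2 with rfl | rfl <;>
        exact ⟨by decide, by decide, by decide, by decide⟩
    · simp only [lev_apply, AddMonoidHom.mk'_apply]
      push_cast
      field_simp
      linear_combination (z.1 : ℝ) * h1' + (z.2 : ℝ) * h2'

lemma disp_map (g : Pt →+ Pt) (vec : Dir → Pt) (γ : List Dir) :
    disp (fun d => g (vec d)) γ = g (disp vec γ) := by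
  induction γ with
  | nil => simp
  | cons d γ ih => simp [ih]

end StmtAux

open StmtAux in
theorem result_of_core (hcore : CoreStmt)
    (μ : Measure (ℤ × ℤ → Fin 4 → ℕ → ℝ)) [IsProbabilityMeasure μ]
    (hind : iIndepFun (fun (z : ℤ × ℤ) (ω : ℤ × ℤ → Fin 4 → ℕ → ℝ) => ω z) μ)
    (hid : ∀ z : ℤ × ℤ, IdentDistrib (fun ω : ℤ × ℤ → Fin 4 → ℕ → ℝ => ω z) (fun ω => ω 0) μ μ)
    (hsum : ∀ᵐ ω ∂μ, ∀ z i, ∑ e, ω z e i = 1)
    (κ : ℝ) (hκ : 0 < κ) (hell : ∀ᵐ ω ∂μ, ∀ z e i, κ ≤ ω z e i)
    (P₀ : Measure (ℕ → ℤ × ℤ)) [IsProbabilityMeasure P₀]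
    (hP₀ : ∀ (e : ℕ → Fin 4) (n : ℕ), P₀ {X | ∀ i ≤ n, X i = pos e i} =
      ∫⁻ ω, ENNReal.ofReal (∏ i ∈ Finset.range n, ω (pos e i) (e i) (visits e i)) ∂μ)
    (l : ℝ × ℝ) (hl : l ≠ 0) :
    P₀ {X | Tendsto (fun n => ((X n).1 : ℝ) * l.1 + ((X n).2 : ℝ) * l.2) atTop atTop} = 0 ∨
    P₀ {X | Tendsto (fun n => ((X n).1 : ℝ) * l.1 + ((X n).2 : ℝ) * l.2) atTop atTop} = 1 := by
  have h0 : ∀ᵐ ω ∂μ, ∀ z e i, 0 ≤ ω z e i := hell.mono fun ω h z e i => hκ.le.trans (h z e i)
  obtain ⟨ν, hν, hcyl⟩ := exists_nu μ hsum h0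
  have hU : UEL ν (ENNReal.ofReal κ) := by
    intro γ d
    rw [hcyl, hcyl, ← lintegral_const_mul' _ _ ENNReal.ofReal_ne_top]
    refine lintegral_mono_ae ?_
    filter_upwards [hell] with ω h
    rw [cw_snoc, mul_comm]
    gcongr
    exact h _ _ _
  have hCy : ∀ γ, P₀ (Cy γ) = wt step ν 0 γ := by
    intro γ
    rw [← pre_ext γ]
    generalize (fun j => γ.getD j 0) = e
    generalize γ.length = n
    rw [Cy_pre, hP₀]
    have h1 : ∫⁻ ω, ENNReal.ofReal (∏ i ∈ Finset.range n, ω (pos e i) (e i) (visits e i)) ∂μ =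
        ∫⁻ ω, ∏ z ∈ pts step 0 (pre e n), cw (ω z) (exits step 0 (pre e n) z) ∂μ := by
      refine lintegral_congr_ae ?_
      filter_upwards [h0] with ω h
      rw [ENNReal.ofReal_prod_of_nonneg fun i _ => h _ _ _, prod_eq ω e n _ subset_rfl]
    rw [h1, lintegral_prod_eq_prod_lintegral_of_indepFun _
      (fun (z : ℤ × ℤ) (ω : ℤ × ℤ → Fin 4 → ℕ → ℝ) => cw (ω z) (exits step 0 (pre e n) z))
      (hind.comp (fun z b => cw b (exits step 0 (pre e n) z)) fun z => measurable_cw _)
      fun z => (measurable_cw _).comp (measurable_pi_apply z)]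
    refine Finset.prod_congr rfl fun z _ => ?_
    rw [hcyl]
    exact ((hid z).comp (measurable_cw _)).lintegral_eq
  have hae := ae_path P₀ _ hCy (wt_nil _ _ _) (wt_eq_sum step ν)
  obtain ⟨g, c, s, hg, hvec, hc, hs0, hs1, hz⟩ := exists_coord l hl
  have hS : ∀ γ, P₀.map dec (cyl γ) = wt (fun d => g (step d)) ν 0 γ := by
    intro γ
    have h1 := wt_map step ν g (fun d => g (step d)) hg (fun x d => map_add g x _) 0 γ
    rw [map_zero] at h1
    rw [h1, ← hCy, Measure.map_apply measurable_dec (measurableSet_cyl γ)]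
    refine measure_congr ?_
    filter_upwards [hae] with X hX
    refine propext ⟨fun h => ?_, fun h => dec_mem_cyl h⟩
    have h2 : pre (dec X) γ.length = γ := h
    have := hX γ.length
    rwa [h2] at this
  have := hcore _ hvec s hs0 hs1 ν hν _ (ENNReal.ofReal_pos.2 hκ).ne' hU (P₀.map dec)
    (Measure.isProbabilityMeasure_map measurable_dec.aemeasurable) hS
  rw [Measure.map_apply measurable_dec (measurableSet_Transi _ _)] at this
  have e : P₀ {X | Tendsto (fun n => ((X n).1 : ℝ) * l.1 + ((X n).2 : ℝ) * l.2) atTop atTop} =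
      P₀ (dec ⁻¹' Transi (fun d => g (step d)) (lev s 1)) := by
    refine measure_congr ?_
    filter_upwards [hae] with X hX
    have h1 : ∀ n, ((X n).1 : ℝ) * l.1 + ((X n).2 : ℝ) * l.2 =
        c * lev s 1 (disp (fun d => g (step d)) (pre (dec X) n)) := by
      intro n
      have h2 := hX n
      rw [Cy_pre] at h2
      rw [hz, disp_map, disp_pre, h2 n le_rfl]
    refine propext ?_
    change Tendsto (fun n => ((X n).1 : ℝ) * l.1 + ((X n).2 : ℝ) * l.2) atTop atTop ↔
      Tendsto (fun n => lev s 1 (disp (fun d => g (step d)) (pre (dec X) n))) atTop atTop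
    simp only [h1]
    exact tendsto_const_mul_atTop_of_pos hc
  rwa [e]

end Pool.Agent.MP_db8016_pr

end
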