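import Pool.Agent.Mg.Fdb8016a.G43c2de
import Pool.Agent.Mg.Fdb8016a.G6ef5a8

section

/-! The maximum principle for the two-clock chain with quadratic test functions. -/

namespace Pool.Agent.MP_db8016_pr
open MeasureTheory ProbabilityTheory Filter
open scoped ENNReal

namespace BlowAux

lemma ofReal_int_le {α : Type} [MeasurableSpace α] {μ : Measure α} {g : α → ℝ}
    (hg : Integrable g μ) : ENNReal.ofReal (∫ x, g x ∂μ) ≤ ∫⁻ x, ENNReal.ofReal (g x) ∂μ := by
  rw [integral_eq_lintegral_pos_part_sub_lintegral_neg_part hg]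
  exact (ENNReal.ofReal_le_ofReal (sub_le_self _ ENNReal.toReal_nonneg)).trans
    ENNReal.ofReal_toReal_le

lemma maxp {X : Type} (G : Set X) (v : X → ℝ≥0∞) (ψ : X → ℝ) (Mx η : ℝ) (hη : 0 < η)
    (hM : ∀ s ∈ G, ψ s ≤ Mx)
    (step : ∀ t, 0 ≤ t → (∀ s ∈ G, ENNReal.ofReal (ψ s - t) ≤ v s) →
      ∀ s ∈ G, ENNReal.ofReal (ψ s + η - t) ≤ v s) :
    ∀ s ∈ G, ENNReal.ofReal (ψ s) ≤ v s := by
  have key : ∀ n : ℕ, ∀ t, 0 ≤ t → Mx - n * η ≤ t → ∀ s ∈ G, ENNReal.ofReal (ψ s - t) ≤ v s := by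
    intro n
    induction n with
    | zero =>
      intro t _ h s hs
      rw [ENNReal.ofReal_of_nonpos (by have := hM s hs; simp at h; linarith)]
      exact zero_le
    | succ n ih =>
      intro t ht h s hs
      have := step (t + η) (by linarith) (ih _ (by linarith) (by push_cast at h; linarith)) s hs
      rwa [show ψ s + η - (t + η) = ψ s - t by ring] at this
  obtain ⟨n, hn⟩ := exists_nat_ge (Mx / η)
  intro s hs
  have := key n 0 le_rfl (by rw [div_le_iff₀ hη] at hn; linarith) s hs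
  rwa [sub_zero] at this

variable {S T : Type} [MeasurableSpace S] [MeasurableSpace T] [Countable S]
  [DiscreteMeasurableSpace S] [Countable T] [DiscreteMeasurableSpace T]

/-- The pieces that are kept. -/
def tr (P : Side S) (m w L : ℝ) : Set S := {σ | P.W σ ≤ w ∧ P.R m σ ≤ L}

noncomputable def pi (P : Side S) (m w L : ℝ) : ℝ := P.f.real (tr P m w L)
noncomputable def Zt (P : Side S) (m w L : ℝ) : ℝ := ∫ σ in tr P m w L, P.ζ m σ ∂P.f
noncomputable def Vt (P : Side S) (m w L : ℝ) : ℝ := ∫ σ in tr P m w L, P.ζ m σ ^ 2 ∂P.f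
noncomputable def Mt (P : Side S) (m w L : ℝ) : ℝ := ∫ σ in tr P m w L, P.W σ ∂P.f

variable {P : Side S} {Q : Side T} {p : ℝ}

omit [Countable S] in
lemma intOn (rP : P.Ren) {A : Set S} {g : S → ℝ} {c : ℝ} (h : ∀ σ ∈ A, |g σ| ≤ c) :
    IntegrableOn g A P.f := by
  have := rP.prob
  refine Integrable.of_bound Measurable.of_discrete.aestronglyMeasurable c ?_
  exact (ae_restrict_iff' MeasurableSet.of_discrete).2 (Eventually.of_forall h)

omit [Countable S] in
lemma step_side (hP : P.Ok p) (rP : P.Ren) {m w L ρ : ℝ} (hL : 2 * L ≤ ρ) (U : S → ℝ≥0∞)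
    (c0 c1 c2 c3 t : ℝ) (ht : 0 ≤ t)
    (h : ∀ σ ∈ tr P m w L,
      ENNReal.ofReal (c0 + c1 * P.ζ m σ + c2 * P.ζ m σ ^ 2 + c3 * P.W σ - t) ≤ U σ) :
    ENNReal.ofReal (c0 * pi P m w L + c1 * Zt P m w L + c2 * Vt P m w L + c3 * Mt P m w L - t) ≤
      ∫⁻ σ in {σ | 2 * P.R m σ ≤ ρ}, U σ ∂P.f := by
  have := rP.prob
  have i0 : IntegrableOn (fun _ => c0 - t) (tr P m w L) P.f := intOn rP fun _ _ => le_rfl
  have i1 : IntegrableOn (P.ζ m) (tr P m w L) P.f :=
    intOn rP fun σ hσ => (hP.ζ_le m σ).trans hσ.2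
  have i2 : IntegrableOn (fun σ => P.ζ m σ ^ 2) (tr P m w L) P.f :=
    intOn rP (c := L ^ 2) fun σ hσ => by
      rw [abs_pow]; exact pow_le_pow_left₀ (abs_nonneg _) ((hP.ζ_le m σ).trans hσ.2) 2
  have i3 : IntegrableOn P.W (tr P m w L) P.f := rP.intW.integrableOn
  have j1 : IntegrableOn (fun σ => (c0 - t) + c1 * P.ζ m σ) (tr P m w L) P.f :=
    i0.add (i1.const_mul c1)
  have j2 : IntegrableOn (fun σ => (c0 - t) + c1 * P.ζ m σ + c2 * P.ζ m σ ^ 2) (tr P m w L) P.f :=
    j1.add (i2.const_mul c2)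
  have j3 : IntegrableOn (fun σ => (c0 - t) + c1 * P.ζ m σ + c2 * P.ζ m σ ^ 2 + c3 * P.W σ)
      (tr P m w L) P.f := j2.add (i3.const_mul c3)
  have e : ∫ σ in tr P m w L, ((c0 - t) + c1 * P.ζ m σ + c2 * P.ζ m σ ^ 2 + c3 * P.W σ) ∂P.f =
      (c0 - t) * pi P m w L + c1 * Zt P m w L + c2 * Vt P m w L + c3 * Mt P m w L := by
    rw [integral_add j2 (i3.const_mul c3), integral_add j1 (i2.const_mul c2),
      integral_add i0 (i1.const_mul c1), integral_const_mul, integral_const_mul,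
      integral_const_mul, setIntegral_const, smul_eq_mul, mul_comm _ (c0 - t)]
    rfl
  have hpi : pi P m w L ≤ 1 := measureReal_le_one
  calc _ ≤ ENNReal.ofReal ((c0 - t) * pi P m w L + c1 * Zt P m w L + c2 * Vt P m w L +
        c3 * Mt P m w L) := ENNReal.ofReal_le_ofReal (by nlinarith)
    _ ≤ ∫⁻ σ in tr P m w L, ENNReal.ofReal
        ((c0 - t) + c1 * P.ζ m σ + c2 * P.ζ m σ ^ 2 + c3 * P.W σ) ∂P.f := by
        rw [← e]; exact ofReal_int_le j3
    _ ≤ ∫⁻ σ in tr P m w L, U σ ∂P.f := by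
        refine setLIntegral_mono' MeasurableSet.of_discrete fun σ hσ => ?_
        refine le_trans (le_of_eq ?_) (h σ hσ)
        congr 1; ring
    _ ≤ _ := lintegral_mono_set fun σ hσ => by
        have := hσ.2
        change 2 * P.R m σ ≤ ρ
        linarith

omit [Countable S] [Countable T] in
/-- The maximum principle for `ψ = α + β D + γ D ^ 2 + δ o`. -/
lemma qmp (hP : P.Ok p) (hQ : Q.Ok p) (rP : P.Ren) (rQ : Q.Ren) {m w L ρ : ℝ}
    {v : ℝ → ℝ → ℝ → ℝ≥0∞} (hv : P.Super Q m v) (hL : 2 * L ≤ ρ) (α β γ δ D₁ D₂ Mx η : ℝ)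
    (hD : 2 * ρ ≤ D₁) (hη : 0 < η)
    (hM : ∀ D o, D₁ < D → D < D₂ → |o| ≤ w → α + β * D + γ * D ^ 2 + δ * o ≤ Mx)
    (hexit : ∀ D o, |o| ≤ w → (D₁ - L ≤ D ∧ D ≤ D₁ ∨ D₂ ≤ D ∧ D ≤ D₂ + L) →
      ENNReal.ofReal (α + β * D + γ * D ^ 2 + δ * o) ≤ v ρ D o)
    (dP : ∀ D o, D₁ < D → D < D₂ → |o| ≤ w → (α + β * D + γ * D ^ 2 + δ * o) + η ≤
      1 + ((α + β * D + γ * D ^ 2 + δ * o) * pi P m w L + (β + 2 * γ * D) * Zt P m w L +
        γ * Vt P m w L + -δ * Mt P m w L))
    (dQ : ∀ D o, D₁ < D → D < D₂ → |o| ≤ w → (α + β * D + γ * D ^ 2 + δ * o) + η ≤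
      (α + β * D + γ * D ^ 2 + δ * o) * pi Q m w L + -(β + 2 * γ * D) * Zt Q m w L +
        γ * Vt Q m w L + δ * Mt Q m w L) :
    ∀ D o, D₁ < D → D < D₂ → |o| ≤ w →
      ENNReal.ofReal (α + β * D + γ * D ^ 2 + δ * o) ≤ v ρ D o := by
  intro D o h1 h2 h3
  refine maxp {s : ℝ × ℝ | D₁ < s.1 ∧ s.1 < D₂ ∧ |s.2| ≤ w} (fun s => v ρ s.1 s.2)
    (fun s => α + β * s.1 + γ * s.1 ^ 2 + δ * s.2) Mx η hη
    (fun s hs => hM _ _ hs.1 hs.2.1 hs.2.2) ?_ (D, o) ⟨h1, h2, h3⟩
  rintro t ht ih ⟨D, o⟩ ⟨h1, h2, h3⟩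
  dsimp only at h1 h2 h3 ⊢
  have nxt : ∀ D' o', |D' - D| ≤ L → |o'| ≤ w →
      ENNReal.ofReal (α + β * D' + γ * D' ^ 2 + δ * o' - t) ≤ v ρ D' o' := by
    intro D' o' a b
    have a' := abs_le.1 a
    by_cases c : D₁ < D' ∧ D' < D₂
    · exact ih (D', o') ⟨c.1, c.2, b⟩
    · refine le_trans (ENNReal.ofReal_le_ofReal (by linarith)) (hexit D' o' b ?_)
      rcases not_and_or.1 c with c | c
      · exact Or.inl ⟨by linarith, by linarith⟩
      · exact Or.inr ⟨by linarith, by linarith⟩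
  have h3' := abs_le.1 h3
  rcases lt_or_ge 0 o with ho | ho
  · refine le_trans ?_ (hv.stepX ρ D o (by linarith) ho)
    have := step_side hP rP (m := m) (w := w) hL (fun σ => v ρ (D + P.ζ m σ) (o - P.W σ))
      (α + β * D + γ * D ^ 2 + δ * o) (β + 2 * γ * D) γ (-δ) t ht fun σ hσ => by
        refine le_trans (le_of_eq ?_) (nxt _ _ (by simpa using (hP.ζ_le m σ).trans hσ.2)
          (abs_le.2 ⟨by linarith [hσ.1], by linarith [hP.W_ge σ]⟩))
        congr 1; ring
    refine le_trans ?_ (add_le_add le_rfl this)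
    rw [← ENNReal.ofReal_one]
    refine le_trans (ENNReal.ofReal_le_ofReal ?_) ENNReal.ofReal_add_le
    linarith [dP D o h1 h2 h3]
  · refine le_trans ?_ (hv.stepY ρ D o (by linarith) ho)
    have := step_side hQ rQ (m := m) (w := w) hL (fun σ => v ρ (D - Q.ζ m σ) (o + Q.W σ))
      (α + β * D + γ * D ^ 2 + δ * o) (-(β + 2 * γ * D)) γ δ t ht fun σ hσ => by
        refine le_trans (le_of_eq ?_) (nxt _ _ (by simpa using (hQ.ζ_le m σ).trans hσ.2)
          (abs_le.2 ⟨by linarith [hQ.W_ge σ], by linarith [hσ.1]⟩))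
        congr 1; ring
    refine le_trans (ENNReal.ofReal_le_ofReal ?_) this
    linarith [dQ D o h1 h2 h3]

/-- The numerical facts about the truncated law. -/
structure Stat (P : Side S) (m w F L ε μ : ℝ) : Prop where
  pi_le : pi P m w L ≤ 1
  pi_ge : w * (1 - pi P m w L) ≤ ε
  Z_le : w * |Zt P m w L| ≤ ε * F
  V_nonneg : 0 ≤ Vt P m w L
  V_le : w * Vt P m w L ≤ F ^ 2
  V_ge : w * P.V w m - ε * F ^ 2 ≤ w * Vt P m w L
  M_ge : 1 / 2 ≤ Mt P m w L
  M_le : Mt P m w L ≤ μ

lemma half_pow_le_ck (k : ℕ) : (1 / 2 : ℝ) ^ k ≤ ck k := by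
  unfold ck
  have : (0 : ℝ) ≤ k := Nat.cast_nonneg k
  exact le_mul_of_one_le_right (by positivity) (by nlinarith)

omit [Countable S] in
lemma stat (hP : P.Ok p) (rP : P.Ren) (iP : P.Int2) (mP : P.Mom) {m w F ε μ : ℝ} {k : ℕ}
    (hk : 1 ≤ k) (hw : 2 ≤ w) (hF : 0 < F) (hε : ε ≤ 1) (hck : ck k ≤ ε / 2)
    (hT : P.Tail w m F) (hV : P.V w m ≤ F ^ 2 / w) (hM : |P.M w m| ≤ ε / 2 * F / w)
    (hr : w * P.f.real {σ | w < P.W σ} ≤ ε / 2) (hμ : ∫ σ, P.W σ ∂P.f ≤ μ) :
    Stat P m w F (k * F) ε μ := by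
  have := rP.prob
  have hw0 : 0 < w := by linarith
  have hk' : (1 : ℝ) ≤ k := by exact_mod_cast hk
  set E := {σ | P.W σ ≤ w ∧ k * F < P.R m σ} with hE
  have hB : {σ | P.W σ ≤ w} = tr P m w (k * F) ∪ E := by
    ext σ
    simp only [tr, hE, Set.mem_setOf_eq, Set.mem_union]
    exact ⟨fun h => (le_or_gt _ _).imp (fun a => ⟨h, a⟩) fun a => ⟨h, a⟩,
      fun h => h.elim (·.1) (·.1)⟩
  have hd : Disjoint (tr P m w (k * F)) E :=
    Set.disjoint_left.2 fun σ a b => absurd a.2 (not_le.2 b.2)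
  have iR := iP w m
  have hsq : ∀ σ, P.ζ m σ ^ 2 ≤ P.R m σ ^ 2 := fun σ => by
    rw [← sq_abs]; exact pow_le_pow_left₀ (abs_nonneg _) (hP.ζ_le m σ) 2
  have i2 : IntegrableOn (fun σ => P.ζ m σ ^ 2) {σ | P.W σ ≤ w} P.f :=
    iR.mono' Measurable.of_discrete.aestronglyMeasurable (Eventually.of_forall fun σ => by
      rw [Real.norm_eq_abs, abs_of_nonneg (sq_nonneg _)]; exact hsq σ)
  have i1 : IntegrableOn (P.ζ m) {σ | P.W σ ≤ w} P.f :=
    (i2.add (integrable_const 1)).mono' Measurable.of_discrete.aestronglyMeasurable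
      (Eventually.of_forall fun σ => by
        rw [Real.norm_eq_abs]
        change _ ≤ P.ζ m σ ^ 2 + 1
        nlinarith [sq_abs (P.ζ m σ), sq_nonneg (|P.ζ m σ| - 1)])
  have s1 : tr P m w (k * F) ⊆ {σ | P.W σ ≤ w} := fun _ h => h.1
  have s2 : E ⊆ {σ | P.W σ ≤ w} := fun _ h => h.1
  have eM : P.M w m = Zt P m w (k * F) + ∫ σ in E, P.ζ m σ ∂P.f := by
    rw [Side.M, hB, setIntegral_union hd MeasurableSet.of_discrete (i1.mono_set s1)
      (i1.mono_set s2)]; rfl
  have eV : P.V w m = Vt P m w (k * F) + ∫ σ in E, P.ζ m σ ^ 2 ∂P.f := by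
    rw [Side.V, hB, setIntegral_union hd MeasurableSet.of_discrete (i2.mono_set s1)
      (i2.mono_set s2)]; rfl
  have hmom : ∫ σ in E, P.R m σ ^ 2 ∂P.f ≤ ck k * F ^ 2 / w := mP w m F hw0 hF hT k hk
  rw [le_div_iff₀ hw0] at hmom hV hM
  have b1 : ∫ σ in E, P.ζ m σ ^ 2 ∂P.f ≤ ∫ σ in E, P.R m σ ^ 2 ∂P.f :=
    setIntegral_mono_on (i2.mono_set s2) (iR.mono_set s2) MeasurableSet.of_discrete
      fun σ _ => hsq σ
  have b2 : 0 ≤ ∫ σ in E, P.ζ m σ ^ 2 ∂P.f := integral_nonneg fun σ => sq_nonneg _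
  have b3 : F * |∫ σ in E, P.ζ m σ ∂P.f| ≤ ∫ σ in E, P.R m σ ^ 2 ∂P.f := by
    refine (mul_le_mul_of_nonneg_left abs_integral_le_integral_abs hF.le).trans ?_
    rw [← integral_const_mul]
    refine setIntegral_mono_on ((i1.mono_set s2).abs.const_mul F) (iR.mono_set s2)
      MeasurableSet.of_discrete fun σ hσ => ?_
    have a := hP.ζ_le m σ
    have b : k * F < P.R m σ := hσ.2
    have c : F ≤ P.R m σ := by nlinarith
    nlinarith [abs_nonneg (P.ζ m σ)]
  have hpi : w * (1 - pi P m w (k * F)) ≤ ε := by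
    have c1 : (tr P m w (k * F))ᶜ ⊆ {σ | w < P.W σ} ∪ E := by
      intro σ hσ
      rcases lt_or_ge w (P.W σ) with h | h
      · exact Or.inl h
      · exact Or.inr ⟨h, not_le.1 fun a => hσ ⟨h, a⟩⟩
    have c2 := (measureReal_mono (μ := P.f) c1).trans (measureReal_union_le _ _)
    rw [probReal_compl_eq_one_sub MeasurableSet.of_discrete] at c2
    have c3 : P.f.real E ≤ (1 / 2) ^ k / w :=
      ENNReal.toReal_le_of_le_ofReal (by positivity) (hT k hk)
    rw [le_div_iff₀ hw0] at c3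
    have c4 := half_pow_le_ck k
    have c5 := mul_le_mul_of_nonneg_left c2 hw0.le
    unfold pi
    linarith
  have hV0 : 0 ≤ Vt P m w (k * F) := integral_nonneg fun σ => sq_nonneg _
  have hF2 : ck k * F ^ 2 ≤ ε / 2 * F ^ 2 := mul_le_mul_of_nonneg_right hck (sq_nonneg _)
  refine ⟨measureReal_le_one, hpi, ?_, hV0, by nlinarith, ?_, ?_, ?_⟩
  · have c1 : |Zt P m w (k * F)| ≤ |P.M w m| + |∫ σ in E, P.ζ m σ ∂P.f| := by
      rw [show Zt P m w (k * F) = P.M w m - ∫ σ in E, P.ζ m σ ∂P.f by linarith]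
      exact abs_sub _ _
    have c2 : w * |∫ σ in E, P.ζ m σ ∂P.f| ≤ ε / 2 * F := by
      refine le_of_mul_le_mul_left ?_ hF
      nlinarith [mul_le_mul_of_nonneg_left b3 hw0.le]
    nlinarith [mul_le_mul_of_nonneg_left c1 hw0.le]
  · have : 0 ≤ ε * F ^ 2 := by
      have := half_pow_le_ck k
      have : (0 : ℝ) ≤ (1 / 2) ^ k := by positivity
      exact mul_nonneg (by linarith) (sq_nonneg _)
    nlinarith [mul_le_mul_of_nonneg_left b1 hw0.le]
  · have c1 : pi P m w (k * F) ≤ Mt P m w (k * F) := by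
      have := setIntegral_mono_on (μ := P.f) (s := tr P m w (k * F)) (f := fun _ => (1 : ℝ))
        (integrable_const _) rP.intW.integrableOn MeasurableSet.of_discrete fun σ _ => hP.W_ge σ
      rw [setIntegral_const, smul_eq_mul, mul_one] at this
      exact this
    have c2 : pi P m w (k * F) ≤ 1 := measureReal_le_one
    nlinarith
  · exact (setIntegral_le_integral rP.intW
      (Eventually.of_forall fun σ => le_trans zero_le_one (hP.W_ge σ))).trans hμ

end BlowAux

end Pool.Agent.MP_db8016_pr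

end

section

/-! Supersolutions of the two-clock chain are infinite. -/

namespace Pool.Agent.MP_db8016_pr
open MeasureTheory ProbabilityTheory Filter
open scoped ENNReal

namespace BlowAux

variable {S T : Type} [MeasurableSpace S] [MeasurableSpace T]
  [DiscreteMeasurableSpace S] [DiscreteMeasurableSpace T] {P : Side S} {Q : Side T} {p : ℝ}

omit [DiscreteMeasurableSpace S] in
lemma Stat.l1 {m w F L ε μ : ℝ} (h : Stat P m w F L ε μ) {ψ A : ℝ} (hψ : ψ ≤ A * w)
    (hA : 0 ≤ A) : ψ - A * ε ≤ ψ * pi P m w L := by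
  have a := mul_le_mul_of_nonneg_right hψ (sub_nonneg.2 h.pi_le)
  have b := mul_le_mul_of_nonneg_left h.pi_ge hA
  linarith

omit [DiscreteMeasurableSpace S] in
lemma Stat.l2 {m w F L ε μ : ℝ} (h : Stat P m w F L ε μ) (hF : 0 < F) {b B : ℝ}
    (hb : |b| * F ≤ B * w) (hB : 0 ≤ B) : -(B * ε) ≤ b * Zt P m w L := by
  have a : |b| * |Zt P m w L| ≤ B * ε := by
    refine le_of_mul_le_mul_left ?_ hF
    have c := mul_le_mul_of_nonneg_right hb (abs_nonneg (Zt P m w L))
    have d := mul_le_mul_of_nonneg_left h.Z_le hB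
    linarith
  rw [← abs_mul] at a
  exact (abs_le.1 a).1

/-- A lower bound for `v` on the starting states of a scale. -/
def Cl (v : ℝ → ℝ → ℝ → ℝ≥0∞) (H w a : ℝ) : Prop :=
  ∀ D o, H ≤ D → D ≤ 1.01 * H → |o| ≤ w → ENNReal.ofReal a ≤ v (H / 50) D o

lemma count (hP : P.Ok p) (hQ : Q.Ok p) (rP : P.Ren) (rQ : Q.Ren) {m w F L ε μ : ℝ}
    {v : ℝ → ℝ → ℝ → ℝ≥0∞} (hv : P.Super Q m v) (sP : Stat P m w F L ε μ)
    (sQ : Stat Q m w F L ε μ) (hw : 0 < w) (hF : 0 < F) (hμ : 1 ≤ μ) (hL : μ * F ≤ L)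
    (hε : 100 * μ * ε ≤ 1) (hε0 : 0 < ε) : Cl v (100 * L) w (0.99 * w) := by
  have hFL : F ≤ L := by nlinarith
  have hL0 : 0 < L := by linarith
  obtain ⟨H, hH⟩ : ∃ H, H = 100 * L := ⟨_, rfl⟩
  have hH0 : 0 < H := by linarith
  obtain ⟨δ, hδ⟩ : ∃ δ, δ = 1 / (2 * μ) := ⟨_, rfl⟩
  have hδ0 : 0 < δ := by rw [hδ]; positivity
  have hδ1 : δ * μ = 1 / 2 := by rw [hδ]; field_simp
  have hδ2 : δ ≤ 1 / 2 := by nlinarith
  have hψ : ∀ D o : ℝ, -6 * w - δ * w + 16 * w / H * D + -8 * w / H ^ 2 * D ^ 2 + δ * o =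
      2 * w - 8 * w * ((D - H) / H) ^ 2 + δ * (o - w) := by
    intro D o; field_simp; ring
  have hup : ∀ D o : ℝ, |o| ≤ w →
      2 * w - 8 * w * ((D - H) / H) ^ 2 + δ * (o - w) ≤ 2 * w := by
    intro D o ho
    have a := mul_nonneg hδ0.le (sub_nonneg.2 (abs_le.1 ho).2)
    have b := mul_nonneg hw.le (sq_nonneg ((D - H) / H))
    linarith
  have hb : ∀ D : ℝ, H / 2 < D → D < 3 * H / 2 →
      |16 * w / H + 2 * (-8 * w / H ^ 2) * D| * F ≤ 1 * w := by
    intro D h1 h2
    have e : 16 * w / H + 2 * (-8 * w / H ^ 2) * D = 16 * w / H ^ 2 * (H - D) := by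
      field_simp; ring
    have a : |H - D| ≤ H / 2 := abs_le.2 ⟨by linarith, by linarith⟩
    rw [e, abs_mul, abs_of_nonneg (by positivity : 0 ≤ 16 * w / H ^ 2)]
    calc 16 * w / H ^ 2 * |H - D| * F ≤ 16 * w / H ^ 2 * (H / 2) * (H / 100) := by
          gcongr; linarith
      _ = 0.08 * w := by field_simp; ring
      _ ≤ 1 * w := by linarith
  have hV : ∀ V : ℝ, w * V ≤ F ^ 2 → -(δ / 100) ≤ -8 * w / H ^ 2 * V := by
    intro V h
    have a : F ≤ δ * H / 50 := by
      refine le_of_mul_le_mul_left ?_ (show 0 < μ by linarith)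
      have : μ * (δ * H / 50) = δ * μ * H / 50 := by ring
      rw [this, hδ1]; linarith
    have b : F ^ 2 ≤ δ * H / 50 * (H / 100) := by
      rw [sq]; exact mul_le_mul a (by linarith) hF.le (by positivity)
    have c : -8 * w / H ^ 2 * V = -(8 * (w * V) / H ^ 2) := by ring
    rw [c, neg_le_neg_iff, div_le_iff₀ (by positivity)]
    have : 0 ≤ δ * H ^ 2 := by positivity
    linarith
  have hεδ : 50 * ε ≤ δ := by
    refine le_of_mul_le_mul_right ?_ (show 0 < μ by linarith)
    linarith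
  have key := qmp hP hQ rP rQ (m := m) (w := w) (L := L) (ρ := H / 50) hv (by linarith)
    (-6 * w - δ * w) (16 * w / H) (-8 * w / H ^ 2) δ (H / 2) (3 * H / 2) (2 * w) ε
    (by linarith) hε0 (fun D o _ _ ho => by rw [hψ]; exact hup D o ho) ?_ ?_ ?_
  · intro D o h1 h2 h3
    rw [← hH] at h1 h2 ⊢
    refine le_trans (ENNReal.ofReal_le_ofReal ?_) (key D o (by linarith) (by linarith) h3)
    rw [hψ]
    have a : (D - H) / H ≤ 0.01 := by rw [div_le_iff₀ hH0]; linarith
    have b : 0 ≤ (D - H) / H := div_nonneg (by linarith) hH0.le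
    have c : ((D - H) / H) ^ 2 ≤ 0.01 ^ 2 := pow_le_pow_left₀ b a 2
    have d := mul_le_mul_of_nonneg_left c hw.le
    have e := mul_le_mul_of_nonneg_left (abs_le.1 h3).1 hδ0.le
    have f := mul_le_mul_of_nonneg_right hδ2 hw.le
    linarith
  · intro D o ho hD
    rw [hψ, ENNReal.ofReal_of_nonpos]
    · exact zero_le
    have a := mul_nonneg hδ0.le (sub_nonneg.2 (abs_le.1 ho).2)
    have b : 1 / 4 ≤ ((D - H) / H) ^ 2 := by
      rw [div_pow, le_div_iff₀ (by positivity)]
      rcases hD with hD | hD <;> nlinarith [hD.1, hD.2]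
    have c := mul_le_mul_of_nonneg_left b hw.le
    linarith
  · intro D o h1 h2 ho
    have a := sP.l1 (ψ := -6 * w - δ * w + 16 * w / H * D + -8 * w / H ^ 2 * D ^ 2 + δ * o)
      (A := 2) (by rw [hψ]; exact hup D o ho) (by norm_num)
    have b := sP.l2 hF (hb D h1 h2) zero_le_one
    have c := hV _ sP.V_le
    have d := mul_le_mul_of_nonneg_left sP.M_le hδ0.le
    linarith
  · intro D o h1 h2 ho
    have a := sQ.l1 (ψ := -6 * w - δ * w + 16 * w / H * D + -8 * w / H ^ 2 * D ^ 2 + δ * o)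
      (A := 2) (by rw [hψ]; exact hup D o ho) (by norm_num)
    have b := sQ.l2 hF (b := -(16 * w / H + 2 * (-8 * w / H ^ 2) * D))
      (by rw [abs_neg]; exact hb D h1 h2) zero_le_one
    have c := hV _ sQ.V_le
    have d := mul_le_mul_of_nonneg_left sQ.M_ge hδ0.le
    linarith

lemma phase (hP : P.Ok p) (hQ : Q.Ok p) (rP : P.Ren) (rQ : Q.Ren) {m w w' F L N ε μ C a : ℝ}
    {v : ℝ → ℝ → ℝ → ℝ≥0∞} (hv : P.Super Q m v) (sP : Stat P m w F L ε μ)
    (sQ : Stat Q m w F L ε μ) (hw : 0 < w) (hF : 0 < F) (hFL : F ≤ L) (hN : 200 * L ≤ N)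
    (hε0 : 0 < ε) (hC : 0 < C) (hε : 4 * C * ε ≤ 1) (hlo : F ^ 2 ≤ C * w * (P.V w m + Q.V w m))
    (hg : 240 * C * μ * ε * N ^ 2 ≤ F ^ 2) (hw' : w ≤ w') (ha : 0 < a) (h : Cl v N w' a) :
    Cl v (100 * L) w (0.75 * (100 * L) / N * a) := by
  have hL0 : 0 < L := by linarith
  obtain ⟨H, hH⟩ : ∃ H, H = 100 * L := ⟨_, rfl⟩
  have hH0 : 0 < H := by linarith
  have hN0 : 0 < N := by linarith
  have hN2 : 2 * H ≤ N := by linarith
  obtain ⟨s, hs⟩ : ∃ s, s = a / N ^ 2 := ⟨_, rfl⟩
  have hs0 : 0 < s := by rw [hs]; positivity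
  have hs1 : s * N ^ 2 = a := by rw [hs]; field_simp
  have m1 := sP.M_ge
  have m2 := sQ.M_ge
  have v1 := sP.V_nonneg
  have v2 := sQ.V_nonneg
  obtain ⟨g, hg'⟩ : ∃ g, g = (Vt P m w L - Vt Q m w L) / (Mt P m w L + Mt Q m w L) := ⟨_, rfl⟩
  have hg1 : g * (Mt P m w L + Mt Q m w L) = Vt P m w L - Vt Q m w L := by
    rw [hg']; exact div_mul_cancel₀ _ (by linarith)
  have hg2 : |g| * w ≤ H ^ 2 / 10000 := by
    have a1 : |g| ≤ |Vt P m w L - Vt Q m w L| := by
      rw [← hg1, abs_mul]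
      exact le_mul_of_one_le_right (abs_nonneg _) (le_trans (by linarith) (le_abs_self _))
    have a2 : |Vt P m w L - Vt Q m w L| * w ≤ F ^ 2 := by
      have := mul_nonneg hw.le v1
      have := mul_nonneg hw.le v2
      rcases abs_cases (Vt P m w L - Vt Q m w L) with c | c <;> rw [c.1] <;>
        linarith [sQ.V_le, sP.V_le]
    have a3 : F ^ 2 ≤ L ^ 2 := pow_le_pow_left₀ hF.le hFL 2
    have a4 := mul_le_mul_of_nonneg_right a1 hw.le
    rw [hH]; linarith
  have hgo : ∀ o : ℝ, |o| ≤ w → |g * o| ≤ H ^ 2 / 10000 := fun o ho => by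
    rw [abs_mul]; exact (mul_le_mul_of_nonneg_left ho (abs_nonneg _)).trans hg2
  obtain ⟨G, hG⟩ : ∃ G, G = Vt P m w L - g * Mt P m w L := ⟨_, rfl⟩
  have hG' : G = Vt Q m w L + g * Mt Q m w L := by rw [hG]; linarith
  have hG1 : 30 * ε * N ^ 2 ≤ w * G := by
    have a1 : G * (Mt P m w L + Mt Q m w L) =
        Vt P m w L * Mt Q m w L + Vt Q m w L * Mt P m w L := by
      rw [hG]; linear_combination (-Mt P m w L) * hg1
    have a2 : (Vt P m w L + Vt Q m w L) / 2 ≤ G * (Mt P m w L + Mt Q m w L) := by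
      rw [a1]; linarith [mul_le_mul_of_nonneg_left m2 v1, mul_le_mul_of_nonneg_left m1 v2]
    have a3 : 0 ≤ G := by
      refine nonneg_of_mul_nonneg_left (b := Mt P m w L + Mt Q m w L) (by linarith) (by linarith)
    have a4 : G * (Mt P m w L + Mt Q m w L) ≤ G * (2 * μ) :=
      mul_le_mul_of_nonneg_left (by linarith [sP.M_le, sQ.M_le]) a3
    have a5 := mul_le_mul_of_nonneg_left (add_le_add sP.V_ge sQ.V_ge) hC.le
    have a6 := mul_le_mul_of_nonneg_right hε (sq_nonneg F)
    have a7 := mul_le_mul_of_nonneg_left (a2.trans a4) (mul_pos hC hw).le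
    have hμ : 0 < μ := by linarith [sP.M_le]
    refine le_of_mul_le_mul_left ?_ (mul_pos hC hμ)
    linarith
  have hG2 : 3 * (a / w * ε) ≤ 0.1 * s * G := by
    have a1 := mul_le_mul_of_nonneg_left hG1 hs0.le
    refine le_of_mul_le_mul_left ?_ hw
    have a2 : w * (3 * (a / w * ε)) = 3 * ε * (s * N ^ 2) := by rw [hs1]; field_simp
    rw [a2]; linarith
  have hψ : ∀ D o : ℝ, -(0.04 * H * N * s) + 0.8 * N * s * D + 0.1 * s * D ^ 2 + 0.1 * g * s * o =
      s * (0.8 * N * D + 0.1 * D ^ 2 + 0.1 * (g * o) - 0.04 * H * N) := by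
    intro D o; ring
  have hup : ∀ D o : ℝ, 0 ≤ D → D ≤ N + L → |o| ≤ w →
      s * (0.8 * N * D + 0.1 * D ^ 2 + 0.1 * (g * o) - 0.04 * H * N) ≤ a := by
    intro D o h0 h1 ho
    rw [← hs1]
    refine mul_le_mul_of_nonneg_left ?_ hs0.le
    have a1 := (abs_le.1 (hgo o ho)).2
    have a2 : D ≤ 1.005 * N := by linarith
    have a3 : D ^ 2 ≤ (1.005 * N) ^ 2 := pow_le_pow_left₀ h0 a2 2
    have a4 := mul_le_mul_of_nonneg_left a2 hN0.le
    have a5 := mul_le_mul_of_nonneg_left hN2 hH0.le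
    have a6 := sq_nonneg N
    have a7 := sq_nonneg H
    linarith
  have haw : a / w * w = a := div_mul_cancel₀ _ hw.ne'
  have hb : ∀ D : ℝ, 0 ≤ D → D < N → |0.8 * N * s + 2 * (0.1 * s) * D| * F ≤ a / w * w := by
    intro D h1 h2
    rw [haw, ← hs1, abs_of_nonneg (by positivity)]
    have a1 : 0.8 * N * s + 2 * (0.1 * s) * D ≤ s * N := by
      linarith [mul_le_mul_of_nonneg_left h2.le hs0.le]
    calc _ ≤ s * N * N := mul_le_mul a1 (by linarith) hF.le (by positivity)
      _ = _ := by ring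
  have hη : 0 < a / w * ε := by positivity
  have key := qmp hP hQ rP rQ (m := m) (w := w) (L := L) (ρ := H / 50) hv (by linarith)
    (-(0.04 * H * N * s)) (0.8 * N * s) (0.1 * s) (0.1 * g * s) (H / 25) N a (a / w * ε)
    (by linarith) hη
    (fun D o h1 h2 ho => by rw [hψ]; exact hup D o (by linarith) (by linarith) ho) ?_ ?_ ?_
  · intro D o h1 h2 h3
    rw [← hH] at h1 h2 ⊢
    refine le_trans (ENNReal.ofReal_le_ofReal ?_) (key D o (by linarith) (by linarith) h3)
    have e : 0.75 * H / N * a = s * (0.75 * H * N) := by rw [← hs1]; field_simp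
    rw [hψ, e]
    refine mul_le_mul_of_nonneg_left ?_ hs0.le
    have a1 := (abs_le.1 (hgo o h3)).1
    have a4 := mul_le_mul_of_nonneg_left h1 hN0.le
    have a5 := mul_le_mul_of_nonneg_left hN2 hH0.le
    have a6 := sq_nonneg D
    have a7 := sq_nonneg H
    linarith
  · intro D o ho hD
    rw [hψ]
    rcases hD with hD | hD
    · rw [ENNReal.ofReal_of_nonpos]
      · exact zero_le
      refine mul_nonpos_of_nonneg_of_nonpos hs0.le ?_
      have a1 := (abs_le.1 (hgo o ho)).2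
      have a3 : D ^ 2 ≤ (H / 25) ^ 2 := pow_le_pow_left₀ (by linarith [hD.1]) hD.2 2
      have a4 := mul_le_mul_of_nonneg_left hD.2 hN0.le
      have a5 := mul_le_mul_of_nonneg_left hN2 hH0.le
      have a7 := sq_nonneg H
      linarith
    · refine (ENNReal.ofReal_le_ofReal (hup D o (by linarith [hD.1]) hD.2 ho)).trans ?_
      exact (h D o hD.1 (by linarith [hD.2]) (ho.trans hw')).trans
        (hv.anti _ _ _ _ (by linarith))
  · intro D o h1 h2 ho
    have a1 := sP.l1
      (ψ := -(0.04 * H * N * s) + 0.8 * N * s * D + 0.1 * s * D ^ 2 + 0.1 * g * s * o)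
      (A := a / w) (by rw [hψ, haw]; exact hup D o (by linarith) (by linarith) ho) (by positivity)
    have a2 := sP.l2 hF (hb D (by linarith) h2) (by positivity)
    rw [hG] at hG2
    linarith
  · intro D o h1 h2 ho
    have a1 := sQ.l1
      (ψ := -(0.04 * H * N * s) + 0.8 * N * s * D + 0.1 * s * D ^ 2 + 0.1 * g * s * o)
      (A := a / w) (by rw [hψ, haw]; exact hup D o (by linarith) (by linarith) ho) (by positivity)
    have a2 := sQ.l2 hF (b := -(0.8 * N * s + 2 * (0.1 * s) * D))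
      (by rw [abs_neg]; exact hb D (by linarith) h2) (by positivity)
    rw [hG'] at hG2
    linarith

lemma tendsto_ck : Tendsto (fun k : ℕ => (k : ℝ) ^ 2 * ck k) atTop (nhds 0) := by
  have h : ∀ n : ℕ, Tendsto (fun k : ℕ => (k : ℝ) ^ n * (1 / 2 : ℝ) ^ k) atTop (nhds 0) :=
    fun n => tendsto_pow_const_mul_const_pow_of_abs_lt_one n (by rw [abs_of_pos] <;> norm_num)
  have := (((h 4).const_mul 2).add ((h 3).const_mul 8)).add ((h 2).const_mul 12)
  simp only [mul_zero, add_zero] at this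
  refine this.congr fun k => ?_
  unfold ck; ring

end BlowAux

open BlowAux

variable {S T : Type} [MeasurableSpace S] [MeasurableSpace T] [Countable S] [DiscreteMeasurableSpace S]
  [Countable T] [DiscreteMeasurableSpace T] {P : Side S} {Q : Side T} {p : ℝ}

theorem blow (hP : P.Ok p) (hQ : Q.Ok p) (rP : P.Ren) (rQ : Q.Ren)
    (iP : P.Int2) (iQ : Q.Int2) (mP : P.Mom) (mQ : Q.Mom) {m K C : ℝ} {w F : ℕ → ℝ}
    (hs : P.Scales Q m K C w F) (aP : P.Mean m w F) (aQ : Q.Mean m w F) : P.Blow Q := by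
  obtain ⟨μ, hμ1, hμP, hμQ⟩ : ∃ μ : ℝ, 1 ≤ μ ∧ ∫ σ, P.W σ ∂P.f ≤ μ ∧ ∫ σ, Q.W σ ∂Q.f ≤ μ :=
    ⟨max 1 (max _ _), le_max_left _ _, (le_max_left _ _).trans (le_max_right _ _),
      (le_max_right _ _).trans (le_max_right _ _)⟩
  have hK := hs.K_ge
  have hC := hs.C_pos
  have hwj : ∀ j : ℕ, (j : ℝ) + 2 ≤ w j := by
    intro j
    induction j with
    | zero => simpa using hs.w_zero
    | succ j ih =>
      have : (0 : ℝ) ≤ j := Nat.cast_nonneg j
      rw [hs.w_succ]; push_cast; nlinarith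
  have hw2 : ∀ j, 2 ≤ w j := fun j => by linarith [hwj j, (Nat.cast_nonneg j : (0 : ℝ) ≤ j)]
  have hFj : ∀ j : ℕ, F 0 * (j + 1) ≤ F j := by
    intro j
    induction j with
    | zero => simp
    | succ j ih =>
      have := mul_nonneg hs.F_zero.le (Nat.cast_nonneg j : (0 : ℝ) ≤ j)
      have := hs.F_lo j
      push_cast; linarith
  have hF0 : ∀ j, 0 < F j := fun j => lt_of_lt_of_le (mul_pos hs.F_zero (by positivity)) (hFj j)
  have tw : Tendsto w atTop atTop :=
    tendsto_atTop_mono hwj (tendsto_atTop_add_const_right _ _ tendsto_natCast_atTop_atTop)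
  have tF : Tendsto F atTop atTop := tendsto_atTop_mono hFj
    ((tendsto_atTop_add_const_right _ _ tendsto_natCast_atTop_atTop).const_mul_atTop hs.F_zero)
  obtain ⟨A, hA⟩ : ∃ A, A = 10 ^ 6 * K ^ 2 * (C + 1) * μ := ⟨_, rfl⟩
  have hA0 : 0 < A := by rw [hA]; positivity
  obtain ⟨k, hk1, hk2⟩ := ((tendsto_ck.eventually (gt_mem_nhds (show 0 < 1 / (2 * A) by
    positivity))).and (tendsto_natCast_atTop_atTop.eventually (eventually_ge_atTop μ))).exists
  have hk3 : (1 : ℝ) ≤ k := hμ1.trans hk2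
  have hk4 : 1 ≤ k := by exact_mod_cast hk3
  obtain ⟨ε, hε⟩ : ∃ ε, ε = 1 / (A * (k : ℝ) ^ 2) := ⟨_, rfl⟩
  have hε0 : 0 < ε := by rw [hε]; positivity
  have hε1 : A * (k : ℝ) ^ 2 * ε = 1 := by rw [hε]; field_simp
  have hck : ck k ≤ ε / 2 := by
    rw [lt_div_iff₀ (by positivity)] at hk1
    refine le_of_mul_le_mul_left ?_ (show 0 < A * (k : ℝ) ^ 2 by positivity)
    linarith
  have hε2 : 100 * (C + 1) * μ * ε ≤ 1 := by
    refine le_trans (mul_le_mul_of_nonneg_right ?_ hε0.le) hε1.le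
    have a1 : (1 : ℝ) ≤ K ^ 2 * (k : ℝ) ^ 2 :=
      one_le_mul_of_one_le_of_one_le (one_le_pow₀ (by linarith)) (one_le_pow₀ hk3)
    have a2 : 0 ≤ (C + 1) * μ := by positivity
    rw [hA]; linarith [mul_le_mul_of_nonneg_left a1 a2]
  have b1 : 0 ≤ C * μ * ε := by positivity
  have b2 : ε ≤ μ * ε := le_mul_of_one_le_left hε0.le hμ1
  have b3 : C * ε ≤ C * (μ * ε) := mul_le_mul_of_nonneg_left b2 hC.le
  have hε3 : 100 * μ * ε ≤ 1 := by linarith
  have hε4 : 4 * C * ε ≤ 1 := by linarith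
  have hε5 : ε ≤ 1 := by linarith
  have ev : ∀ᶠ j in atTop, (Stat P m (w j) (F j) (k * F j) ε μ ∧
      Stat Q m (w j) (F j) (k * F j) ε μ) ∧
      F j ^ 2 ≤ C * w j * (P.V (w j) m + Q.V (w j) m) ∧ 4 * |m| + 1 ≤ F j := by
    filter_upwards [aP (ε / 2) (by linarith), aQ (ε / 2) (by linarith), hs.Vlo,
      tF.eventually (eventually_ge_atTop (4 * |m| + 1)),
      (rP.tendsto_r.comp tw).eventually (ge_mem_nhds (show 0 < ε / 2 by linarith)),
      (rQ.tendsto_r.comp tw).eventually (ge_mem_nhds (show 0 < ε / 2 by linarith))]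
      with j a1 a2 a3 a4 a5 a6
    exact ⟨⟨stat hP rP iP mP hk4 (hw2 j) (hF0 j) hε5 hck (hs.tailP j) (hs.VP j) a1 a5 hμP,
      stat hQ rQ iQ mQ hk4 (hw2 j) (hF0 j) hε5 hck (hs.tailQ j) (hs.VQ j) a2 a6 hμQ⟩, a3, a4⟩
  obtain ⟨j₀, hj₀⟩ := eventually_atTop.1 ev
  have hkF : ∀ j, F j ≤ k * F j := fun j => le_mul_of_one_le_left (hF0 j).le hk3
  refine ⟨m, 100 * (k * F j₀), by linarith [hkF j₀, hF0 j₀], fun v hv D o h1 h2 h3 => ?_⟩
  have key : ∀ n : ℕ, ∀ j, j₀ ≤ j → Cl v (100 * (k * F j)) (w j) (0.99 * 1.5 ^ n * w j) := by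
    intro n
    induction n with
    | zero =>
      intro j hj
      obtain ⟨⟨s1, s2⟩, -, -⟩ := hj₀ j hj
      simpa using count hP hQ rP rQ hv s1 s2 (by linarith [hw2 j]) (hF0 j) hμ1
        (mul_le_mul_of_nonneg_right hk2 (hF0 j).le) hε3 hε0
    | succ n ih =>
      intro j hj
      obtain ⟨⟨s1, s2⟩, s3, -⟩ := hj₀ j hj
      have w0 : 0 < w j := by linarith [hw2 j]
      have w1 : 0 < w (j + 1) := by linarith [hw2 (j + 1)]
      have f0 := hF0 j
      have f1 := hF0 (j + 1)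
      have := phase hP hQ rP rQ hv s1 s2 w0 f0 (hkF j) (N := 100 * (k * F (j + 1)))
        (by linarith [mul_le_mul_of_nonneg_left (hs.F_lo j) (zero_le_one.trans hk3)]) hε0 hC hε4
        s3 ?_ (by rw [hs.w_succ]; nlinarith) (by positivity) (ih (j + 1) (by omega))
      · intro D o c1 c2 c3
        refine le_trans (ENNReal.ofReal_le_ofReal ?_) (this D o c1 c2 c3)
        have e : 0.75 * (100 * (k * F j)) / (100 * (k * F (j + 1))) * (0.99 * 1.5 ^ n * w (j + 1))
            = 0.99 * 1.5 ^ n * w j * (1.5 * (K / 2 * F j / F (j + 1))) := by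
          rw [hs.w_succ]; field_simp; ring
        have e2 : 1 ≤ K / 2 * F j / F (j + 1) := (one_le_div f1).2 (hs.F_hi j)
        rw [e, pow_succ]
        have e3 : 0 ≤ 0.99 * 1.5 ^ n * w j := by positivity
        linarith [mul_le_mul_of_nonneg_left e2 e3]
      · have c1 : F (j + 1) ^ 2 ≤ (K / 2 * F j) ^ 2 := pow_le_pow_left₀ f1.le (hs.F_hi j) 2
        have c2 : 0 ≤ C * μ * ε * (k : ℝ) ^ 2 := by positivity
        have c3 := mul_le_mul_of_nonneg_left c1 c2
        have c4 : 0 ≤ K ^ 2 * μ * (k : ℝ) ^ 2 * ε * F j ^ 2 := by positivity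
        have c5 : 0 ≤ K ^ 2 * C * μ * (k : ℝ) ^ 2 * ε * F j ^ 2 := by positivity
        have c6 : A * (k : ℝ) ^ 2 * ε * F j ^ 2 = F j ^ 2 := by rw [hε1, one_mul]
        rw [hA] at c6
        linarith
  by_contra hne
  have w0 : 0 < w j₀ := by linarith [hw2 j₀]
  obtain ⟨n, hn⟩ := pow_unbounded_of_one_lt (v 0 D o).toReal (show (1 : ℝ) < 1.5 by norm_num)
  have c1 := (key n j₀ le_rfl D o h1 (by linarith [(hj₀ j₀ le_rfl).2.2, hkF j₀])
    (h3.trans (hw2 j₀))).trans (hv.anti 0 _ D o (by linarith [hkF j₀, hF0 j₀]))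
  have c2 := ENNReal.toReal_mono hne c1
  rw [ENNReal.toReal_ofReal (by positivity)] at c2
  have c3 : (0 : ℝ) < 1.5 ^ n := by positivity
  linarith [mul_le_mul_of_nonneg_left (hw2 j₀) c3.le]

end Pool.Agent.MP_db8016_pr

end

section

/-! Bridges are the concatenations of slabs; the renewal structure of the walk. -/

namespace Pool.Agent.MP_db8016_pr
open MeasureTheory ProbabilityTheory Filter
open scoped ENNReal

section
variable {vec : Dir → Pt}

lemma mem_pts_zero_append {α β : List Dir} {u : Pt} :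
    u ∈ pts vec 0 (α ++ β) ↔ u ∈ pts vec 0 α ∨ u - disp vec α ∈ pts vec 0 β := by
  rw [pts_append, Finset.mem_union, zero_add, mem_pts_shift vec (x := disp vec α)]

lemma start_mem_pts {γ : List Dir} (h : γ ≠ []) (x : Pt) : x ∈ pts vec x γ := by
  cases γ with
  | nil => exact absurd rfl h
  | cons d γ => simp [pts_cons]

lemma start_mem_allp (γ : List Dir) (x : Pt) : x ∈ allp vec x γ := by
  cases γ with
  | nil => simp [allp]
  | cons d γ => simp [allp, pts_cons]

lemma end_mem_allp (γ : List Dir) (x : Pt) : x + disp vec γ ∈ allp vec x γ := by simp [allp]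

lemma mem_allp_of_pts {γ : List Dir} {x u : Pt} (h : u ∈ pts vec x γ) : u ∈ allp vec x γ := by
  simp [allp, h]

lemma mem_allp_append {α β : List Dir} {x u : Pt} :
    u ∈ allp vec x (α ++ β) ↔ u ∈ pts vec x α ∨ u ∈ allp vec (x + disp vec α) β := by
  simp only [allp, pts_append, disp_append, Finset.mem_insert, Finset.mem_union, add_assoc]
  tauto

lemma mem_allp_shift {γ : List Dir} {x u : Pt} : u ∈ allp vec x γ ↔ u - x ∈ allp vec 0 γ := by
  simp only [allp, Finset.mem_insert, zero_add, mem_pts_shift vec (x := x), sub_eq_iff_eq_add']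

lemma allp_subset_append (α β : List Dir) (x : Pt) : allp vec x α ⊆ allp vec x (α ++ β) := by
  intro u hu
  rw [mem_allp_append]
  rcases Finset.mem_insert.1 hu with rfl | h
  · exact Or.inr (start_mem_allp _ _)
  · exact Or.inl h

lemma mem_allp_iff {γ : List Dir} {x u : Pt} :
    u ∈ allp vec x γ ↔ ∃ α β, γ = α ++ β ∧ u = x + disp vec α := by
  constructor
  · intro h
    rcases Finset.mem_insert.1 h with rfl | h
    · exact ⟨γ, [], by simp, rfl⟩
    · obtain ⟨α, d, β, h1, h2⟩ := (mem_pts_iff vec).1 h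
      exact ⟨α, d :: β, h1, h2⟩
  · rintro ⟨α, β, rfl, rfl⟩
    exact allp_subset_append _ _ _ (end_mem_allp _ _)

variable {L : Pt →+ ℝ}

lemma isBridge_nil : IsBridge vec L [] := by simp [IsBridge]

lemma IsBridge.one_le {γ : List Dir} (h : IsBridge vec L γ) (hne : γ ≠ []) :
    1 ≤ L (disp vec γ) := by simpa using (h 0 (start_mem_pts hne 0)).2

lemma IsBridge.nonneg {γ : List Dir} (h : IsBridge vec L γ) : 0 ≤ L (disp vec γ) := by
  by_cases hne : γ = []
  · simp [hne]
  · linarith [h.one_le hne]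

lemma IsBridge.append {α β : List Dir} (hα : IsBridge vec L α) (hβ : IsBridge vec L β) :
    IsBridge vec L (α ++ β) := by
  intro u hu
  rw [disp_append, map_add]
  rcases mem_pts_zero_append.1 hu with h | h
  · exact ⟨(hα u h).1, by linarith [(hα u h).2, hβ.nonneg]⟩
  · have := hβ _ h
    rw [map_sub] at this
    exact ⟨by linarith [this.1, hα.nonneg], by linarith [this.2]⟩

lemma IsBridge.allp_le {γ : List Dir} (h : IsBridge vec L γ) {u : Pt} (hu : u ∈ allp vec 0 γ) :
    0 ≤ L u ∧ L u ≤ L (disp vec γ) := by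
  rcases Finset.mem_insert.1 hu with rfl | hu
  · simpa using h.nonneg
  · exact ⟨(h u hu).1, by linarith [(h u hu).2]⟩

lemma IsBridge.wt_append (ν : Measure (ℕ → Dir)) [IsProbabilityMeasure ν] {α β : List Dir}
    (hα : IsBridge vec L α) (hβ : IsBridge vec L β) :
    wt vec ν 0 (α ++ β) = wt vec ν 0 α * wt vec ν 0 β := by
  rw [wt_append_of_disjoint, wt_shift vec ν (0 + _)]
  refine Finset.disjoint_left.2 fun u hu hu' => ?_
  rw [zero_add, mem_pts_shift] at hu'
  have := (hβ _ hu').1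
  rw [map_sub] at this
  linarith [(hα u hu).2]

@[simp] lemma flat_nil : flat vec ([] : List (Slab vec L)) = [] := rfl
@[simp] lemma flat_cons (σ : Slab vec L) (l : List (Slab vec L)) :
    flat vec (σ :: l) = σ.1 ++ flat vec l := rfl
@[simp] lemma flat_append (l l' : List (Slab vec L)) :
    flat vec (l ++ l') = flat vec l ++ flat vec l' := by
  induction l with
  | nil => simp
  | cons σ l ih => rw [List.cons_append, flat_cons, flat_cons, ih, List.append_assoc]

lemma flat_bridge (l : List (Slab vec L)) : IsBridge vec L (flat vec l) := by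
  induction l with
  | nil => exact isBridge_nil
  | cons σ l ih => rw [flat_cons]; exact σ.2.2.1.append ih

lemma exists_flat {γ : List Dir} (h : IsBridge vec L γ) :
    ∃ l : List (Slab vec L), flat vec l = γ := by
  induction hn : γ.length using Nat.strong_induction_on generalizing γ with
  | _ n ih =>
    by_cases hne : γ = []
    · exact ⟨[], by simp [hne]⟩
    by_cases hs : IsSlab vec L γ
    · exact ⟨[⟨γ, hs⟩], by simp⟩
    simp only [IsSlab, not_and, not_forall] at hs
    obtain ⟨α, β, rfl, hα, hβ, h0⟩ := hs hne h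
    rw [not_or] at h0
    have h1 := List.length_pos_iff.2 h0.1
    have h2 := List.length_pos_iff.2 h0.2
    rw [List.length_append] at hn
    obtain ⟨l1, rfl⟩ := ih α.length (by omega) hα rfl
    obtain ⟨l2, rfl⟩ := ih β.length (by omega) hβ rfl
    exact ⟨l1 ++ l2, by simp⟩

lemma slab_cut {σ σ' a β' : List Dir} (hσ : IsSlab vec L σ) (hσ' : IsSlab vec L σ')
    (e : σ' = σ ++ a) (hβ : IsBridge vec L (a ++ β')) : a = [] := by
  refine (hσ'.2.2 σ a e hσ.2.1 fun u hu => ⟨(hβ u (mem_pts_zero_append.2 (Or.inl hu))).1, ?_⟩).resolve_left hσ.1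
  have := (hσ'.2.1 (disp vec σ + u) (by rw [e]; exact mem_pts_zero_append.2 (Or.inr (by simpa using hu)))).2
  rw [e, disp_append, map_add, map_add] at this
  linarith

lemma flat_injective : Function.Injective (flat vec : List (Slab vec L) → List Dir) := by
  intro l l' h
  induction l generalizing l' with
  | nil =>
    cases l' with
    | nil => rfl
    | cons σ l' => exact absurd (List.append_eq_nil_iff.1 (by simpa using h.symm)).1 σ.2.1
  | cons σ l ih =>
    cases l' with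
    | nil => exact absurd (List.append_eq_nil_iff.1 (by simpa using h)).1 σ.2.1
    | cons σ' l' =>
      rw [flat_cons, flat_cons, List.append_eq_append_iff] at h
      rcases h with ⟨a, h1, h2⟩ | ⟨a, h1, h2⟩
      · have ha := slab_cut σ.2 σ'.2 h1 (h2 ▸ flat_bridge l)
        subst ha
        rw [ih (by simpa using h2), Subtype.ext (by simpa using h1 : σ'.1 = σ.1)]
      · have ha := slab_cut σ'.2 σ.2 h1 (h2 ▸ flat_bridge l')
        subst ha
        rw [ih (by simpa using h2.symm), Subtype.ext (by simpa using h1 : σ.1 = σ'.1)]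

/-- Bridges whose widths lie in one window do not extend each other. -/
lemma IsBridge.eq_of_window {γ τ : List Dir} {t : ℝ} (h : IsBridge vec L (γ ++ τ))
    (h1 : t ≤ L (disp vec γ)) (h2 : L (disp vec (γ ++ τ)) < t + 1) : τ = [] := by
  by_contra hne
  have := (h (disp vec γ) (mem_pts_zero_append.2 (Or.inr (by simpa using start_mem_pts hne 0)))).2
  linarith

variable (ν : Measure (ℕ → Dir)) [IsProbabilityMeasure ν] (s ε : ℝ)

omit [IsProbabilityMeasure ν] in
lemma side_f (σ : Slab vec (lev s ε)) : (side vec ν s ε).f {σ} = wt vec ν 0 σ.1 := by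
  classical
  simp only [side]
  rw [Measure.sum_apply _ MeasurableSet.of_discrete, tsum_eq_single σ]
  · simp
  · intro b hb
    simp [Measure.dirac_apply' _ (MeasurableSet.of_discrete), hb]

lemma side_lw (l : List (Slab vec (lev s ε))) :
    (side vec ν s ε).lw l = wt vec ν 0 (flat vec l) := by
  induction l with
  | nil => simp
  | cons σ l ih => rw [Side.lw_cons, ih, side_f, flat_cons, σ.2.2.1.wt_append ν (flat_bridge l)]

omit [IsProbabilityMeasure ν] in
lemma side_TW (l : List (Slab vec (lev s ε))) :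
    (side vec ν s ε).TW l = lev s ε (disp vec (flat vec l)) := by
  induction l with
  | nil => simp
  | cons σ l ih => rw [Side.TW_cons, ih, flat_cons, disp_append, map_add]; rfl

omit [IsProbabilityMeasure ν] in
lemma side_zeta (m : ℝ) (σ : Slab vec (lev s ε)) :
    (side vec ν s ε).ζ m σ = ε * phi s m (disp vec σ.1) := by
  simp only [Side.ζ, side, lev_apply, phi_apply]; ring

omit [IsProbabilityMeasure ν] in
lemma le_side_R (m : ℝ) (σ : Slab vec (lev s ε)) {u : Pt} (hu : u ∈ allp vec 0 σ.1) :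
    |phi s m u| ≤ (side vec ν s ε).R m σ :=
  Finset.le_sup' (fun u => |phi s m u|) hu

omit [IsProbabilityMeasure ν] in
lemma side_R_le (m : ℝ) (σ : Slab vec (lev s ε)) {G : ℝ}
    (h : ∀ u ∈ allp vec 0 σ.1, |phi s m u| ≤ G) : (side vec ν s ε).R m σ ≤ G :=
  Finset.sup'_le (Finset.insert_nonempty _ _) _ h

lemma side_LM_eq {t : ℝ} {A : Set (List (Slab vec (lev s ε)))} (hA : A ⊆ (side vec ν s ε).win t)
    (x : Pt) : (side vec ν s ε).LM A = arrows ν (⋃ l : A, Fol vec x (flat vec l.1)) := by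
  rw [arrows_iUnion vec ν x (fun l : A => flat vec l.1), Side.LM_apply']
  · exact tsum_congr fun l => side_lw ν s ε _
  · rintro ⟨l, hl⟩ ⟨l', hl'⟩ τ e
    have h1 := (hA hl).1
    have h2 := (hA hl').2
    rw [side_TW] at h1 h2
    simp only at e
    rw [e] at h2
    have := IsBridge.eq_of_window (e ▸ flat_bridge l') h1 h2
    subst this
    exact Subtype.ext (flat_injective (by simpa using e.symm))

variable {s ε}

lemma lev_step_le (hv : IsVec vec) (hs0 : 0 ≤ s) (hs1 : s ≤ 1) (hε : ε = 1 ∨ ε = -1) (d : Dir) :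
    |lev s ε (vec d)| ≤ 1 := by
  rw [abs_le]
  rcases hv.unit d with h | h | h | h <;> rcases hε with rfl | rfl <;>
    simp [h, lev_apply] <;> constructor <;> linarith

lemma exists_lev_one (hv : IsVec vec) (hε : ε = 1 ∨ ε = -1) : ∃ d, lev s ε (vec d) = 1 := by
  rcases hε with rfl | rfl
  · obtain ⟨d, hd⟩ := hv.right; exact ⟨d, by simp [hd, lev_apply]⟩
  · obtain ⟨d, hd⟩ := hv.left; exact ⟨d, by simp [hd, lev_apply]⟩

lemma side_U2 (hv : IsVec vec) (hs0 : 0 ≤ s) (hs1 : s ≤ 1) (hε : ε = 1 ∨ ε = -1)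
    {κ q : ℝ≥0∞} (hU : UEL ν κ) (hq : Esc vec ν (lev s ε) q) {t : ℝ} (ht : 1 ≤ t) :
    κ * q ≤ (side vec ν s ε).LM ((side vec ν s ε).win t) := by
  obtain ⟨d₀, hd₀⟩ := exists_lev_one (s := s) hv hε
  have key : ∀ γ : {γ : List Dir // (∀ u ∈ pts vec 0 γ, 0 ≤ lev s ε u ∧ lev s ε u < t - 1) ∧
      t - 1 ≤ lev s ε (disp vec γ)}, ∃ l : (side vec ν s ε).win t, flat vec l.1 = γ.1 ++ [d₀] := by
    rintro ⟨γ, h1, h2⟩
    have h3 : lev s ε (disp vec γ) < t := by
      rcases List.eq_nil_or_concat γ with rfl | ⟨α, d, rfl⟩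
      · simp; linarith
      · have := (h1 (disp vec α) (by
          rw [List.concat_eq_append]
          exact mem_pts_zero_append.2 (Or.inr (by simp [pts_cons])))).2
        have h4 := (abs_le.1 (lev_step_le hv hs0 hs1 hε d)).2
        simp only [List.concat_eq_append, disp_append, disp_cons, disp_nil, add_zero, map_add]
        linarith
    have hb : IsBridge vec (lev s ε) (γ ++ [d₀]) := by
      intro u hu
      simp only [disp_append, disp_cons, disp_nil, add_zero, map_add, hd₀]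
      rcases mem_pts_zero_append.1 hu with h | h
      · exact ⟨(h1 u h).1, by linarith [(h1 u h).2]⟩
      · have : u = disp vec γ := by simpa [pts_cons, sub_eq_zero] using h
        subst this
        exact ⟨by linarith, le_rfl⟩
    obtain ⟨l, hl⟩ := exists_flat hb
    refine ⟨⟨l, ?_⟩, hl⟩
    simp only [Side.win, Set.mem_setOf_eq, side_TW, hl, disp_append, disp_cons, disp_nil, add_zero,
      map_add, hd₀]
    constructor <;> linarith
  choose g hg using key
  refine le_trans (mul_le_mul' le_rfl (hq (t - 1))) ?_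
  rw [← ENNReal.tsum_mul_left, Side.LM_apply']
  refine le_trans (ENNReal.tsum_le_tsum fun γ => ?_)
    (ENNReal.tsum_comp_le_tsum_of_injective (f := g) ?_ (fun l => (side vec ν s ε).lw l.1))
  · rw [side_lw, hg]; exact wt_snoc_ge vec ν hU 0 _ _
  · intro γ γ' h
    have := hg γ
    rw [h, hg γ'] at this
    exact Subtype.ext (List.append_cancel_right this).symm

lemma side_ok (hv : IsVec vec) (hs0 : 0 ≤ s) (hs1 : s ≤ 1) (hε : ε = 1 ∨ ε = -1)
    {κ q : ℝ≥0∞} (hU : UEL ν κ) (hq : Esc vec ν (lev s ε) q) {p : ℝ}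
    (hp : ENNReal.ofReal p ≤ κ * q) : (side vec ν s ε).Ok p where
  W_ge σ := σ.2.2.1.one_le σ.2.1
  ζ_le m σ := by
    rw [side_zeta, abs_mul]
    have : |ε| = 1 := by rcases hε with rfl | rfl <;> simp
    rw [this, one_mul]
    exact le_side_R ν s ε m σ (by simpa using end_mem_allp σ.1 0)
  R_lip m m' σ := by
    refine side_R_le ν s ε m' σ fun u hu => ?_
    have h1 := le_side_R ν s ε m σ hu
    have h2 := σ.2.2.1.allp_le hu
    have h3 : |((u.1 : ℝ) + s * (u.2 : ℝ))| ≤ (side vec ν s ε).W σ := by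
      have e : |((u.1 : ℝ) + s * (u.2 : ℝ))| = |lev s ε u| := by
        rcases hε with rfl | rfl <;> simp [lev_apply, ← abs_neg ((u.1 : ℝ) + s * (u.2 : ℝ))]
      rw [e, abs_of_nonneg h2.1]; exact h2.2
    have e : phi s m' u = phi s m u + (m - m') * ((u.1 : ℝ) + s * (u.2 : ℝ)) := by
      simp only [phi_apply]; ring
    rw [e]
    refine (abs_add_le _ _).trans (add_le_add h1 ?_)
    rw [abs_mul]
    exact mul_le_mul_of_nonneg_left h3 (abs_nonneg _)
  U1 t := by rw [side_LM_eq ν s ε subset_rfl 0]; exact prob_le_one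
  U2 t ht := hp.trans (side_U2 ν hv hs0 hs1 hε hU hq ht)

lemma wt_ne_zero {κ : ℝ≥0∞} (hκ : κ ≠ 0) (hU : UEL ν κ) (x : Pt) (γ : List Dir) :
    wt vec ν x γ ≠ 0 := by
  have := wt_append_ge vec ν hU x [] γ
  simp only [wt_nil, mul_one, List.nil_append] at this
  exact (lt_of_lt_of_le (ENNReal.pow_pos (pos_iff_ne_zero.2 hκ) _) this).ne'

lemma side_nondeg (hv : IsVec vec) (hs0 : 0 ≤ s) {κ : ℝ≥0∞} (hκ : κ ≠ 0) (hU : UEL ν κ) (m : ℝ) :
    ∃ σ, (side vec ν s 1).f {σ} ≠ 0 ∧ (side vec ν s 1).ζ m σ ≠ 0 := by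
  have key : ∀ l : List (Slab vec (lev s 1)), phi s m (disp vec (flat vec l)) ≠ 0 →
      ∃ σ : Slab vec (lev s 1), phi s m (disp vec σ.1) ≠ 0 := by
    intro l hl
    by_contra h
    push Not at h
    apply hl
    clear hl
    induction l with
    | nil => simp
    | cons σ l ih => rw [flat_cons, disp_append, map_add, h, ih, add_zero]
  obtain ⟨dr, hr⟩ := hv.right
  obtain ⟨du, hu⟩ := hv.up
  have : ∃ γ, IsBridge vec (lev s 1) γ ∧ phi s m (disp vec γ) ≠ 0 := by
    by_cases hm : m = 0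
    · refine ⟨[du, dr], ?_, by simp [hm, hr, hu, phi_apply]⟩
      intro u hu'
      simp only [pts_cons, pts_nil, hu, Finset.mem_insert, zero_add, Finset.notMem_empty,
        or_false] at hu'
      rcases hu' with rfl | rfl <;> simp [lev_apply, hr, hu, hs0, add_comm]
    · refine ⟨[dr], ?_, by simp [hm, hr, phi_apply]⟩
      intro u hu'
      simp only [pts_cons, pts_nil, Finset.mem_insert, Finset.notMem_empty, or_false] at hu'
      subst hu'
      simp [lev_apply, hr]
  obtain ⟨γ, h1, h2⟩ := this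
  obtain ⟨l, rfl⟩ := exists_flat h1
  obtain ⟨σ, hσ⟩ := key l h2
  exact ⟨σ, by rw [side_f]; exact wt_ne_zero ν hκ hU _ _, by rw [side_zeta]; simpa using hσ⟩

omit [IsProbabilityMeasure ν] in
lemma allp_of_ins (hε : ε = 1 ∨ ε = -1) {m F x : ℝ} {l : List (Slab vec (lev s ε))}
    (h : Ins ((side vec ν s ε).R m) ((side vec ν s ε).ζ m) F x l) {u : Pt}
    (hu : u ∈ allp vec 0 (flat vec l)) : |x + ε * phi s m u| ≤ F := by
  have hε' : |ε| = 1 := by rcases hε with rfl | rfl <;> simp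
  induction l generalizing x u with
  | nil =>
    have : u = 0 := by simpa [allp] using hu
    subst this
    simpa [Ins] using h
  | cons σ l ih =>
    rw [flat_cons, mem_allp_append] at hu
    rcases hu with hu | hu
    · have := le_side_R ν s ε m σ (mem_allp_of_pts hu)
      refine (abs_add_le _ _).trans ?_
      rw [abs_mul, hε', one_mul]
      linarith [h.1]
    · rw [zero_add, mem_allp_shift] at hu
      have := ih h.2 hu
      rw [side_zeta, map_sub] at this
      convert this using 2; ring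

omit [IsProbabilityMeasure ν] in
lemma ins_of_allp (hε : ε = 1 ∨ ε = -1) {m G x : ℝ} {l : List (Slab vec (lev s ε))}
    (h : ∀ u ∈ allp vec 0 (flat vec l), |x + ε * phi s m u| ≤ G) :
    Ins ((side vec ν s ε).R m) ((side vec ν s ε).ζ m) (3 * G) x l := by
  have hε' : |ε| = 1 := by rcases hε with rfl | rfl <;> simp
  induction l generalizing x with
  | nil =>
    have := h 0 (start_mem_allp _ _)
    simp only [map_zero, mul_zero, add_zero] at this
    show |x| ≤ 3 * G
    linarith [abs_nonneg x]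
  | cons σ l ih =>
    have h0 := h 0 (start_mem_allp _ _)
    simp only [map_zero, mul_zero, add_zero] at h0
    refine ⟨?_, ih fun u hu => ?_⟩
    · have : (side vec ν s ε).R m σ ≤ 2 * G := by
        refine side_R_le ν s ε m σ fun u hu => ?_
        have h1 := h u (by rw [flat_cons]; exact allp_subset_append _ _ _ hu)
        have h2 : |ε * phi s m u| ≤ |x + ε * phi s m u| + |x| := by
          simpa using abs_sub (x + ε * phi s m u) x
        rw [abs_mul, hε', one_mul] at h2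
        linarith
      linarith
    · have := h (disp vec σ.1 + u) (by
        rw [flat_cons, mem_allp_append, zero_add, mem_allp_shift]; right; simpa using hu)
      rw [side_zeta]
      rw [map_add] at this
      convert this using 2; ring

end

end Pool.Agent.MP_db8016_pr

end

section

/-! Confined crossers in disjoint boxes are independent barriers. -/

namespace Pool.Agent.MP_db8016_pr
open MeasureTheory ProbabilityTheory Filter
open scoped ENNReal

/-- The events determined by the arrows at the sites of `B`. -/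
@[reducible] def sig (B : Set Pt) : MeasurableSpace (Pt → ℕ → Dir) :=
  ⨆ z ∈ B, MeasurableSpace.comap (fun a : Pt → ℕ → Dir => a z) inferInstance

lemma sig_mono {B B' : Set Pt} (h : B ⊆ B') : sig B ≤ sig B' := biSup_mono h

lemma sig_le (B : Set Pt) : sig B ≤ MeasurableSpace.pi :=
  iSup₂_le fun z _ => (measurable_pi_apply z).comap_le

lemma measurableSet_sig_Fol (vec : Dir → Pt) {x : Pt} {γ : List Dir} {B : Set Pt}
    (h : ∀ u ∈ pts vec x γ, u ∈ B) : MeasurableSet[sig B] (Fol vec x γ) := by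
  have e : Fol vec x γ = ⋂ z ∈ pts vec x γ,
      (fun a : Pt → ℕ → Dir => a z) ⁻¹' cyl (exits vec x γ z) := by
    rw [Fol_eq_pi]; ext a; simp
  rw [e]
  refine @Finset.measurableSet_biInter _ _ (sig B) _ _ fun z hz => ?_
  have : MeasurableSpace.comap (fun a : Pt → ℕ → Dir => a z) inferInstance ≤ sig B :=
    le_iSup₂_of_le (f := fun (z : Pt) (_ : z ∈ B) =>
      MeasurableSpace.comap (fun a : Pt → ℕ → Dir => a z) inferInstance) z (h z hz) le_rfl
  exact this _ ⟨_, measurableSet_cyl _, rfl⟩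

variable (ν : Measure (ℕ → Dir)) [IsProbabilityMeasure ν]

lemma indep_sig {B B' : Set Pt} (h : Disjoint B B') : Indep (sig B) (sig B') (arrows ν) := by
  have h1 : iIndepFun (fun (z : Pt) (a : Pt → ℕ → Dir) => a z) (arrows ν) :=
    iIndepFun_infinitePi (P := fun _ : Pt => ν) (X := fun _ ω => ω) (fun _ => measurable_id)
  exact indep_iSup_of_disjoint (fun z => (measurable_pi_apply z).comap_le) h1.iIndep h

lemma arrows_iInter_le (B : ℕ → Set Pt) (E : ℕ → Set (Pt → ℕ → Dir))
    (hB : ∀ i j, i < j → Disjoint (B i) (B j)) (hE : ∀ j, MeasurableSet[sig (B j)] (E j))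
    {b : ℝ≥0∞} (hb : ∀ j, arrows ν (E j) ≤ b) (n : ℕ) :
    arrows ν (⋂ j ∈ Finset.range n, E j) ≤ b ^ n := by
  induction n with
  | zero => simp
  | succ n ih =>
    rw [Finset.range_add_one, Finset.set_biInter_insert]
    have hd : Disjoint (B n) (⋃ j ∈ Finset.range n, B j) := by
      simp only [Set.disjoint_iUnion_right]
      exact fun j hj => (hB j n (Finset.mem_range.1 hj)).symm
    have hm : MeasurableSet[sig (⋃ j ∈ Finset.range n, B j)] (⋂ j ∈ Finset.range n, E j) :=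
      @Finset.measurableSet_biInter _ _ (sig _) _ _ fun j hj =>
        sig_mono (Set.subset_biUnion_of_mem (u := B) (s := (Finset.range n : Set ℕ)) hj) _ (hE j)
    rw [(Indep_iff _ _ _).1 (indep_sig ν hd) _ _ (hE n) hm, pow_succ']
    exact mul_le_mul' (hb n) ih

lemma exists_start (s m c r : ℝ) {ε : ℝ} (hε : ε = 1 ∨ ε = -1) :
    ∃ y : Pt, r ≤ lev s ε y ∧ lev s ε y < r + 1 ∧ |phi s m y - c| ≤ |m| + 1 := by
  set y₂ : ℤ := ⌊c + m * ε * r⌋ with hy₂
  have h1 : (y₂ : ℝ) ≤ c + m * ε * r := Int.floor_le _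
  have h2 : c + m * ε * r < y₂ + 1 := Int.lt_floor_add_one _
  have key : ∃ y₁ : ℤ, r ≤ lev s ε (y₁, y₂) ∧ lev s ε (y₁, y₂) < r + 1 := by
    rcases hε with rfl | rfl
    · refine ⟨⌈r - s * y₂⌉, ?_, ?_⟩ <;> simp only [lev_apply]
      · linarith [Int.le_ceil (r - s * y₂)]
      · linarith [Int.ceil_lt_add_one (r - s * y₂)]
    · refine ⟨-⌈r + s * y₂⌉, ?_, ?_⟩ <;> simp only [lev_apply, Int.cast_neg]
      · linarith [Int.le_ceil (r + s * y₂)]
      · linarith [Int.ceil_lt_add_one (r + s * y₂)]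
  obtain ⟨y₁, h3, h4⟩ := key
  refine ⟨(y₁, y₂), h3, h4, ?_⟩
  have e : phi s m (y₁, y₂) - c = (y₂ - (c + m * ε * r)) - m * ε * (lev s ε (y₁, y₂) - r) := by
    rcases hε with rfl | rfl <;> simp only [phi_apply, lev_apply] <;> ring
  rw [e]
  refine (abs_sub _ _).trans ?_
  have h5 : |(y₂ : ℝ) - (c + m * ε * r)| ≤ 1 := abs_le.2 ⟨by linarith, by linarith⟩
  have h6 : |m * ε * (lev s ε (y₁, y₂) - r)| ≤ |m| := by
    have hε' : |ε| = 1 := by rcases hε with rfl | rfl <;> simp
    rw [abs_mul, abs_mul, hε', mul_one]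
    exact mul_le_of_le_one_right (abs_nonneg _) (abs_le.2 ⟨by linarith, by linarith⟩)
  linarith

theorem side_bar (hflow : FlowStmt) {vec : Dir → Pt} (hv : IsVec vec) {s ε ε' p : ℝ}
    (hs0 : 0 ≤ s) (hs1 : s ≤ 1) (hε : ε = 1 ∨ ε = -1) (hε' : ε' = -ε) (hp : 0 < p) (hp1 : p ≤ 1)
    (hQ : (side vec ν s ε').Ok p) : (side vec ν s ε).Bar (side vec ν s ε') p := by
  intro w m F hF hG n t ht htw
  have hε2 : ε' = 1 ∨ ε' = -1 := by rcases hε with h | h <;> simp [hε', h]
  have hlev : ∀ z, lev s ε' z = -lev s ε z := fun z => by simp [lev_apply, hε']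
  have hm := abs_nonneg m
  set P := side vec ν s ε
  set Q := side vec ν s ε'
  set B := Q.win (t + 4) ∩ {l | Ins (Q.R m) (Q.ζ m) F 0 l} with hB
  have hLB : ENNReal.ofReal (p / 2) ≤ Q.LM B := by
    have h1 := hQ.U2 (t + 4) (by linarith)
    have h2 := hG (t + 4) (by linarith) htw
    have h3 : Q.LM (Q.win (t + 4)) ≤ Q.LM B + Q.Bad m F (t + 4) := by
      refine le_trans (measure_mono fun l hl => ?_) (measure_union_le _ _)
      by_cases h : Ins (Q.R m) (Q.ζ m) F 0 l
      · exact Or.inl ⟨hl, h⟩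
      · exact Or.inr ⟨hl, h⟩
    have h4 : ENNReal.ofReal (p / 2) + ENNReal.ofReal (p / 4) ≤ Q.LM B + ENNReal.ofReal (p / 4) := by
      rw [← ENNReal.ofReal_add (by positivity) (by positivity)]
      exact (ENNReal.ofReal_le_ofReal (by linarith)).trans (h1.trans (h3.trans (by gcongr)))
    exact (ENNReal.add_le_add_iff_right ENNReal.ofReal_ne_top).1 h4
  choose y hy1 hy2 hy3 using fun c => exists_start s m c (t + 2) hε
  set G := F + |m| + 1 with hGdef
  have hbox : ∀ c, ∀ l ∈ B, ∀ u ∈ allp vec (y c) (flat vec l), |phi s m u - c| ≤ G := by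
    intro c l hl u hu
    have h1 := allp_of_ins ν hε2 hl.2 (mem_allp_shift.1 hu)
    have h2 : |ε'| = 1 := by rcases hε2 with h | h <;> simp [h]
    rw [zero_add, abs_mul, h2, one_mul, map_sub] at h1
    have h3 := abs_add_le (phi s m u - phi s m (y c)) (phi s m (y c) - c)
    rw [sub_add_sub_cancel] at h3
    linarith [hy3 c]
  let E : ℝ → Set (Pt → ℕ → Dir) := fun c => ⋃ l : B, Fol vec (y c) (flat vec l.1)
  have hEm : ∀ c, MeasurableSet[sig {z | |phi s m z - c| ≤ G}] (E c) := fun c =>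
    @MeasurableSet.iUnion _ _ (sig _) _ _ fun l =>
      measurableSet_sig_Fol vec fun u hu => hbox c l.1 l.2 u (mem_allp_of_pts hu)
  have hEc : ∀ c, arrows ν (E c)ᶜ ≤ ENNReal.ofReal (1 - p / 2) := by
    intro c
    rw [prob_compl_eq_one_sub (sig_le _ _ (hEm c)), ← side_LM_eq ν s ε' Set.inter_subset_left,
      ENNReal.ofReal_sub _ (by positivity), ENNReal.ofReal_one]
    exact tsub_le_tsub_left hLB _
  have hF0 : 0 < F := by linarith
  have hI : ∀ η : ℝ, η = 1 ∨ η = -1 → arrows ν (⋂ j ∈ Finset.range n, (E (η * (4 * F * (j + 1))))ᶜ)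
      ≤ ENNReal.ofReal (1 - p / 2) ^ n := by
    intro η hη
    refine arrows_iInter_le ν (fun j => {z | |phi s m z - η * (4 * F * (j + 1))| ≤ G}) _ ?_
      (fun j => (hEm _).compl) (fun j => hEc _) n
    intro i j hij
    refine Set.disjoint_left.2 fun z h1 h2 => ?_
    have h3 : (i : ℝ) + 1 ≤ j := by exact_mod_cast hij
    have h4 := abs_le.1 (show |phi s m z - η * (4 * F * (i + 1))| ≤ G from h1)
    have h5 := abs_le.1 (show |phi s m z - η * (4 * F * (j + 1))| ≤ G from h2)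
    rcases hη with rfl | rfl <;> nlinarith [h4.1, h4.2, h5.1, h5.2]
  have hcover : (⋃ l : (P.win t ∩ {l | ¬ Ins (P.R m) (P.ζ m) (18 * n * F) 0 l} : Set _),
      Fol vec 0 (flat vec l.1)) ⊆
      (⋂ j ∈ Finset.range n, (E (1 * (4 * F * (j + 1))))ᶜ) ∪
      (⋂ j ∈ Finset.range n, (E (-1 * (4 * F * (j + 1))))ᶜ) := by
    intro a ha
    obtain ⟨⟨l, hl1, hl2⟩, ha⟩ := Set.mem_iUnion.1 ha
    have h1 : ∃ u ∈ allp vec 0 (flat vec l), 6 * n * F < |phi s m u| := by
      by_contra h
      push Not at h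
      apply hl2
      have h2 : |ε| = 1 := by rcases hε with h | h <;> simp [h]
      have := ins_of_allp ν hε (m := m) (G := 6 * n * F) (x := 0) (l := l) fun u hu => by
        rw [zero_add, abs_mul, h2, one_mul]; exact h u hu
      convert this using 1; ring
    obtain ⟨u, hu, hu'⟩ := h1
    obtain ⟨α, β, e, rfl⟩ := mem_allp_iff.1 hu
    have key : ∀ η : ℝ, η = 1 ∨ η = -1 → 6 * n * F < η * phi s m (0 + disp vec α) →
        a ∈ ⋂ j ∈ Finset.range n, (E (η * (4 * F * (j + 1))))ᶜ := by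
      intro η hη hη'
      simp only [Set.mem_iInter, Set.mem_compl_iff]
      intro j hj hmem
      obtain ⟨⟨l', hl'⟩, ha'⟩ := Set.mem_iUnion.1 hmem
      have hj' : (j : ℝ) + 1 ≤ n := by exact_mod_cast Finset.mem_range.1 hj
      have hj0 : (0 : ℝ) ≤ j := Nat.cast_nonneg _
      have hηη : η * η = 1 := by rcases hη with rfl | rfl <;> norm_num
      refine hflow vec hv s m (η * (4 * F * (j + 1))) G ε η hs0 hs1 hε hη a 0 _ α (flat vec l')
        (Fol_append_subset vec 0 α β (e ▸ ha)) ha' ?_ (hbox _ l' hl') ?_ ?_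
      · intro v hv'
        have h2 := (flat_bridge l).allp_le (e ▸ allp_subset_append α β 0 hv')
        have h3 := hl1.2
        have h4 := hl'.1.1
        rw [side_TW] at h3 h4
        rw [hlev] at h4
        rw [map_add]
        constructor <;> linarith [hy1 (η * (4 * F * (j + 1))), hy2 (η * (4 * F * (j + 1))),
          h2.1, h2.2]
      · rw [map_zero, zero_sub, mul_neg, ← mul_assoc, hηη]; nlinarith
      · rw [mul_sub, ← mul_assoc, hηη]; nlinarith
    rcases le_total 0 (phi s m (0 + disp vec α)) with h | h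
    · exact Or.inl (key 1 (Or.inl rfl) (by rwa [abs_of_nonneg h, ← one_mul (phi s m _)] at hu'))
    · exact Or.inr (key (-1) (Or.inr rfl) (by rw [abs_of_nonpos h] at hu'; linarith))
  unfold Side.Bad
  rw [side_LM_eq ν s ε Set.inter_subset_left 0]
  refine (measure_mono hcover).trans ((measure_union_le _ _).trans ?_)
  refine (add_le_add (hI 1 (Or.inl rfl)) (hI (-1) (Or.inr rfl))).trans (le_of_eq ?_)
  rw [← ENNReal.ofReal_pow (by linarith), ← ENNReal.ofReal_add (by
    have : 0 ≤ 1 - p / 2 := by linarith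
    positivity) (by
    have : 0 ≤ 1 - p / 2 := by linarith
    positivity)]
  congr 1; ring

end Pool.Agent.MP_db8016_pr

end

section

/-! A finite supersolution of the two-clock chain: a walker that goes right, is steered, and then
goes left for ever without touching its first part. -/

namespace Pool.Agent.MP_db8016_pr
open MeasureTheory ProbabilityTheory Filter
open scoped ENNReal

lemma lintegral_swap_countable {A B : Type} [MeasurableSpace A] [MeasurableSpace B] [Countable A]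
    [Countable B] [DiscreteMeasurableSpace A] [DiscreteMeasurableSpace B] (μ : Measure A)
    (μ' : Measure B) (g : A → B → ℝ≥0∞) :
    ∫⁻ a, ∫⁻ b, g a b ∂μ' ∂μ = ∫⁻ b, ∫⁻ a, g a b ∂μ ∂μ' := by
  simp only [lintegral_countable', ← ENNReal.tsum_mul_right]
  rw [ENNReal.tsum_comm]
  exact tsum_congr fun b => tsum_congr fun a => by ring

namespace Fin2
variable {vec : Dir → Pt} {s : ℝ}

lemma exists_steer (hv : IsVec vec) (hs0 : 0 ≤ s) (hs1 : s ≤ 1) (n : ℕ) :
    ∃ st : List Dir, (∀ u ∈ pts vec 0 st, -1 ≤ lev s 1 u ∧ lev s 1 u < 1) ∧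
      -2 ≤ lev s 1 (disp vec st) ∧ lev s 1 (disp vec st) < -1 ∧ (disp vec st).2 = n := by
  obtain ⟨dl, hl⟩ := hv.left
  obtain ⟨du, hu⟩ := hv.up
  have el : lev s 1 (vec dl) = -1 := by simp [hl, lev_apply]
  have eu : lev s 1 (vec du) = s := by simp [hu, lev_apply]
  have key : ∃ st : List Dir, (∀ u ∈ pts vec 0 st, -1 ≤ lev s 1 u ∧ lev s 1 u < 1) ∧
      0 ≤ lev s 1 (disp vec st) ∧ lev s 1 (disp vec st) < 1 ∧ (disp vec st).2 = n := by
    induction n with
    | zero => exact ⟨[], by simp, by simp, by simp, by simp⟩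
    | succ n ih =>
      obtain ⟨st, h1, h2, h3, h4⟩ := ih
      by_cases h : lev s 1 (disp vec st) + s < 1
      · refine ⟨st ++ [du], fun u hu' => ?_, by simp [eu]; linarith, by simpa [eu] using h,
          by simp [h4, hu]⟩
        rcases mem_pts_zero_append.1 hu' with h5 | h5
        · exact h1 u h5
        · have : u = disp vec st := by simpa [pts_cons, sub_eq_zero] using h5
          subst this
          exact ⟨by linarith, h3⟩
      · refine ⟨st ++ [dl, du], fun u hu' => ?_, by simp [eu, el]; linarith,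
          by simp [eu, el]; linarith, by simp [h4, hu, hl]⟩
        rcases mem_pts_zero_append.1 hu' with h5 | h5
        · exact h1 u h5
        · have : u = disp vec st ∨ u = disp vec st + vec dl := by
            simpa [pts_cons, sub_eq_zero, sub_eq_iff_eq_add'] using h5
          rcases this with rfl | rfl
          · exact ⟨by linarith, h3⟩
          · rw [map_add, el]; constructor <;> linarith
  obtain ⟨st, h1, h2, h3, h4⟩ := key
  refine ⟨st ++ [dl, dl], fun u hu' => ?_, by simp [el]; linarith,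
    by simp [el]; linarith, by simp [h4, hl]⟩
  rcases mem_pts_zero_append.1 hu' with h5 | h5
  · exact h1 u h5
  · have : u = disp vec st ∨ u = disp vec st + vec dl := by
      simpa [pts_cons, sub_eq_zero, sub_eq_iff_eq_add'] using h5
    rcases this with rfl | rfl
    · exact ⟨by linarith, h3⟩
    · rw [map_add, el]; constructor <;> linarith

lemma lev_neg (z : Pt) : lev s (-1) z = -lev s 1 z := by simp [lev_apply]

/-- The steps of the part that goes right. -/
def gX (α : List (Slab vec (lev s 1))) : List Dir := flat vec α.reverse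
/-- Its start; it ends at the origin. -/
def xs (α : List (Slab vec (lev s 1))) : Pt := -disp vec (gX α)
/-- The end of the part that goes left. -/
def ye (y : Pt) (β : List (Slab vec (lev s (-1)))) : Pt := y + disp vec (flat vec β)

def Mini (y : Pt) (α : List (Slab vec (lev s 1))) (β : List (Slab vec (lev s (-1)))) : Prop :=
  ∀ β₁ σ β₂, β = β₁ ++ σ :: β₂ → lev s 1 (xs α) ≤ lev s 1 (ye y β₁)

def Dis (y : Pt) (α : List (Slab vec (lev s 1))) (β : List (Slab vec (lev s (-1)))) : Prop :=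
  Disjoint (pts vec (xs α) (gX α)) (pts vec y (flat vec β))

def Cf (y : Pt) (α : List (Slab vec (lev s 1))) (β : List (Slab vec (lev s (-1)))) : Prop :=
  lev s 1 (ye y β) < lev s 1 (xs α) ∧ Mini y α β ∧ Dis y α β

structure Inv (m : ℝ) (y : Pt) (ρ : ℝ) (α : List (Slab vec (lev s 1)))
    (β : List (Slab vec (lev s (-1)))) : Prop where
  i1 : ∀ u ∈ pts vec y (flat vec β), lev s 1 u < lev s 1 (xs α) →
    phi s m (ye y β) - ρ ≤ phi s m u
  i2 : ∀ u ∈ pts vec (xs α) (gX α), lev s 1 u ≤ lev s 1 (ye y β) →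
    phi s m u ≤ phi s m (xs α) + ρ
  dis : Dis y α β
  mini : Mini y α β

lemma gX_snoc (α : List (Slab vec (lev s 1))) (σ : Slab vec (lev s 1)) :
    gX (α ++ [σ]) = σ.1 ++ gX α := by simp [gX]

lemma xs_snoc (α : List (Slab vec (lev s 1))) (σ : Slab vec (lev s 1)) :
    xs (α ++ [σ]) = xs α - disp vec σ.1 := by simp only [xs, gX_snoc, disp_append]; abel

lemma ye_snoc (y : Pt) (β : List (Slab vec (lev s (-1)))) (σ : Slab vec (lev s (-1))) :
    ye y (β ++ [σ]) = ye y β + disp vec σ.1 := by simp [ye, add_assoc]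

lemma mem_ptsX_snoc {α : List (Slab vec (lev s 1))} {σ : Slab vec (lev s 1)} {u : Pt}
    (h : u ∈ pts vec (xs (α ++ [σ])) (gX (α ++ [σ]))) :
    u - xs (α ++ [σ]) ∈ pts vec 0 σ.1 ∨ u ∈ pts vec (xs α) (gX α) := by
  rw [gX_snoc, pts_append, Finset.mem_union] at h
  rcases h with h | h
  · exact Or.inl ((mem_pts_shift vec).1 h)
  · right; rwa [xs_snoc, sub_add_cancel] at h

lemma mem_ptsY_snoc {y : Pt} {β : List (Slab vec (lev s (-1)))} {σ : Slab vec (lev s (-1))}
    {u : Pt} (h : u ∈ pts vec y (flat vec (β ++ [σ]))) :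
    u ∈ pts vec y (flat vec β) ∨ u - ye y β ∈ pts vec 0 σ.1 := by
  rw [flat_append, pts_append, Finset.mem_union] at h
  rcases h with h | h
  · exact Or.inl h
  · right; simpa [ye] using (mem_pts_shift vec).1 h

lemma lev_ptsX {α : List (Slab vec (lev s 1))} {u : Pt} (h : u ∈ pts vec (xs α) (gX α)) :
    lev s 1 (xs α) ≤ lev s 1 u := by
  have := (flat_bridge α.reverse _ ((mem_pts_shift vec).1 h)).1
  rw [map_sub] at this
  linarith

lemma lev_ptsY {y : Pt} {β : List (Slab vec (lev s (-1)))} {u : Pt}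
    (h : u ∈ pts vec y (flat vec β)) :
    lev s 1 u ≤ lev s 1 y ∧ lev s 1 (ye y β) + 1 ≤ lev s 1 u := by
  have := flat_bridge β _ ((mem_pts_shift vec).1 h)
  simp only [lev_neg, map_sub] at this
  rw [ye, map_add]
  constructor <;> linarith [this.1, this.2]

variable (ν : Measure (ℕ → Dir))

lemma Inv.stepX {m ρ : ℝ} {y : Pt} {α : List (Slab vec (lev s 1))}
    {β : List (Slab vec (lev s (-1)))} (h : Inv m y ρ α β)
    (hD : 2 * ρ < phi s m (ye y β) - phi s m (xs α)) (ho : lev s 1 (ye y β) < lev s 1 (xs α))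
    {σ : Slab vec (lev s 1)} (hσ : 2 * (side vec ν s 1).R m σ ≤ ρ) :
    Inv m y ρ (α ++ [σ]) β := by
  have hW := σ.2.2.1.nonneg
  have hz := abs_le.1 (le_side_R ν s 1 m σ (end_mem_allp σ.1 0))
  rw [zero_add] at hz
  have hR : ∀ u, u - xs (α ++ [σ]) ∈ pts vec 0 σ.1 → phi s m u ≤ phi s m (xs (α ++ [σ])) +
      (side vec ν s 1).R m σ ∧ lev s 1 u < lev s 1 (xs α) := by
    intro u hu
    have h1 := (abs_le.1 (le_side_R ν s 1 m σ (mem_allp_of_pts hu))).2
    have h2 := (σ.2.2.1 _ hu).2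
    rw [map_sub] at h1
    rw [xs_snoc, map_sub, map_sub] at h2
    constructor <;> linarith
  refine ⟨fun u hu hl => h.i1 u hu ?_, fun u hu hl => ?_, ?_, fun β₁ τ β₂ e => ?_⟩
  · rw [xs_snoc, map_sub] at hl; linarith
  · rcases mem_ptsX_snoc hu with h1 | h1
    · linarith [(hR u h1).1, hz.1, hz.2]
    · linarith [lev_ptsX h1]
  · refine Finset.disjoint_left.2 fun u hu hu' => ?_
    rcases mem_ptsX_snoc hu with h1 | h1
    · have h2 := hR u h1
      have h3 := h.i1 u hu' h2.2
      rw [xs_snoc, map_sub] at h2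
      linarith [h2.1, hz.1, hz.2]
    · exact Finset.disjoint_left.1 h.dis h1 hu'
  · have := h.mini β₁ τ β₂ e
    rw [xs_snoc, map_sub]; linarith

lemma Inv.stepY {m ρ : ℝ} {y : Pt} {α : List (Slab vec (lev s 1))}
    {β : List (Slab vec (lev s (-1)))} (h : Inv m y ρ α β)
    (hD : 2 * ρ < phi s m (ye y β) - phi s m (xs α)) (ho : lev s 1 (xs α) ≤ lev s 1 (ye y β))
    {σ : Slab vec (lev s (-1))} (hσ : 2 * (side vec ν s (-1)).R m σ ≤ ρ) :
    Inv m y ρ α (β ++ [σ]) := by
  have hW := σ.2.2.1.nonneg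
  rw [lev_neg] at hW
  have hz := abs_le.1 (le_side_R ν s (-1) m σ (end_mem_allp σ.1 0))
  rw [zero_add] at hz
  have hR : ∀ u, u - ye y β ∈ pts vec 0 σ.1 → phi s m (ye y β) - (side vec ν s (-1)).R m σ ≤
      phi s m u ∧ lev s 1 u ≤ lev s 1 (ye y β) := by
    intro u hu
    have h1 := (abs_le.1 (le_side_R ν s (-1) m σ (mem_allp_of_pts hu))).1
    have h2 := (σ.2.2.1 _ hu).1
    rw [map_sub] at h1
    rw [lev_neg, map_sub] at h2
    constructor <;> linarith
  refine ⟨fun u hu hl => ?_, fun u hu hl => h.i2 u hu ?_, ?_, fun β₁ τ β₂ e => ?_⟩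
  · rcases mem_ptsY_snoc hu with h1 | h1
    · linarith [(lev_ptsY h1).2]
    · rw [ye_snoc, map_add]
      linarith [(hR u h1).1, hz.1, hz.2]
  · rw [ye_snoc, map_add] at hl; linarith
  · refine Finset.disjoint_left.2 fun u hu hu' => ?_
    rcases mem_ptsY_snoc hu' with h1 | h1
    · exact Finset.disjoint_left.1 h.dis hu h1
    · have h2 := hR u h1
      have h3 := h.i2 u hu h2.2
      linarith [h2.1, hz.1, hz.2]
  · rcases List.eq_nil_or_concat β₂ with rfl | ⟨β₃, τ', rfl⟩
    · have := (List.append_inj' e rfl).1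
      subst this
      exact ho
    · have e' : β ++ [σ] = (β₁ ++ τ :: β₃) ++ [τ'] := by simpa using e
      exact h.mini β₁ τ β₃ (List.append_inj' e' rfl).1

/-- Total weight of the extensions of a configuration. -/
noncomputable def TT (y : Pt) (α : List (Slab vec (lev s 1)))
    (β : List (Slab vec (lev s (-1)))) : ℝ≥0∞ :=
  ∫⁻ α', (side vec ν s (-1)).LM {β' | Cf y (α ++ α') (β ++ β')} ∂(side vec ν s 1).LM

noncomputable def vv (vec : Dir → Pt) (s m : ℝ) (y : Pt) (ρ D o : ℝ) : ℝ≥0∞ :=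
  ⨅ (α : List (Slab vec (lev s 1))) (β : List (Slab vec (lev s (-1))))
    (_ : Inv m y ρ α β ∧ phi s m (ye y β) - phi s m (xs α) = D ∧
      lev s 1 (xs α) - lev s 1 (ye y β) = o), TT ν y α β

lemma vv_le {m ρ D o : ℝ} {y : Pt} {α : List (Slab vec (lev s 1))}
    {β : List (Slab vec (lev s (-1)))} (h : Inv m y ρ α β)
    (h1 : phi s m (ye y β) - phi s m (xs α) = D) (h2 : lev s 1 (xs α) - lev s 1 (ye y β) = o) :
    vv ν vec s m y ρ D o ≤ TT ν y α β :=
  iInf_le_of_le α (iInf_le_of_le β (iInf_le_of_le ⟨h, h1, h2⟩ le_rfl))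

lemma super (m : ℝ) (y : Pt) :
    (side vec ν s 1).Super (side vec ν s (-1)) m (vv ν vec s m y) where
  anti ρ ρ' D o hρ := by
    refine le_iInf fun α => le_iInf fun β => le_iInf fun h => vv_le ν ?_ h.2.1 h.2.2
    exact ⟨fun u hu hl => by linarith [h.1.i1 u hu hl],
      fun u hu hl => by linarith [h.1.i2 u hu hl], h.1.dis, h.1.mini⟩
  stepX ρ D o hD ho := by
    refine le_iInf fun α => le_iInf fun β => le_iInf fun h => ?_
    obtain ⟨h, rfl, rfl⟩ := h
    rw [TT, Side.lintegral_LM_cons]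
    refine add_le_add ?_ ?_
    · rw [← Side.lw_nil (side vec ν s (-1)), ← Side.LM_singleton]
      refine measure_mono (Set.singleton_subset_iff.2 ?_)
      simp only [Set.mem_setOf_eq, List.append_nil]
      exact ⟨by linarith, h.mini, h.dis⟩
    · refine le_trans (setLIntegral_mono' MeasurableSet.of_discrete
        (g := fun σ => TT ν y (α ++ [σ]) β) fun σ hσ => ?_) ?_
      · refine vv_le ν (h.stepX ν hD (by linarith) hσ) ?_ ?_
        · rw [side_zeta, xs_snoc, map_sub]; ring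
        · rw [xs_snoc, map_sub]; simp only [side]; ring
      · refine (setLIntegral_le_lintegral _ _).trans (le_of_eq (lintegral_congr fun σ => ?_))
        simp [TT]
  stepY ρ D o hD ho := by
    refine le_iInf fun α => le_iInf fun β => le_iInf fun h => ?_
    obtain ⟨h, rfl, rfl⟩ := h
    refine le_trans (setLIntegral_mono' MeasurableSet.of_discrete
      (g := fun σ => TT ν y α (β ++ [σ])) fun σ hσ => ?_) ?_
    · refine vv_le ν (h.stepY ν hD (by linarith) hσ) ?_ ?_
      · rw [side_zeta, ye_snoc, map_add]; ring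
      · rw [ye_snoc, map_add]; simp only [side, lev_neg]; ring
    · refine (setLIntegral_le_lintegral _ _).trans ?_
      simp only [TT]
      rw [lintegral_swap_countable]
      refine lintegral_mono fun α' => ?_
      rw [Side.LM_cons _ {β' | Cf y (α ++ α') (β ++ β')}]
      refine le_trans (le_of_eq (lintegral_congr fun σ => ?_)) le_add_self
      simp

def DN (y : Pt) (N : ℕ) (α : List (Slab vec (lev s 1))) : Set (List (Slab vec (lev s (-1)))) :=
  {β | β ∈ (side vec ν s (-1)).win N ∧ lev s 1 (ye y β) < lev s 1 (xs α) ∧ Dis y α β}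

lemma extend {p : ℝ} (hQ : (side vec ν s (-1)).Ok p) (y : Pt) (N : ℕ)
    (α : List (Slab vec (lev s 1))) :
    ENNReal.ofReal p * (side vec ν s (-1)).LM {β | Cf y α β ∧ (side vec ν s (-1)).TW β + 1 ≤ N}
      ≤ (side vec ν s (-1)).LM (DN ν y N α) := by
  refine Side.glue_le _ (fun π l => π ++ l) (fun π l => Side.lw_append _ _ _) _ _
    (fun π => (side vec ν s (-1)).win (N - (side vec ν s (-1)).TW π)) ?_ ?_ _
    (fun π hπ => hQ.U2 _ (by linarith [hπ.2]))
  · have key : ∀ π π' a, Cf y α π → Cf y α π' → π' = π ++ a → a = [] := by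
      intro π π' a h h' e
      cases a with
      | nil => rfl
      | cons σ a => linarith [h'.2.1 π σ a e, h.1]
    intro π hπ π' hπ' l l' e
    rcases List.append_eq_append_iff.1 e with ⟨a, h1, h2⟩ | ⟨a, h1, h2⟩
    · have := key π π' a hπ.1 hπ'.1 h1
      subst this
      exact ⟨by simpa using h1.symm, by simpa using h2⟩
    · have := key π' π a hπ'.1 hπ.1 h1
      subst this
      exact ⟨by simpa using h1, by simpa using h2.symm⟩
  · intro π hπ l hl
    have h1 := (flat_bridge l).nonneg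
    rw [lev_neg] at h1
    refine ⟨⟨by rw [Side.TW_append]; linarith [hl.1], by rw [Side.TW_append]; linarith [hl.2]⟩,
      ?_, Finset.disjoint_left.2 fun u hu hu' => ?_⟩
    · have := hπ.1.1
      simp only [ye, flat_append, disp_append, map_add] at this ⊢
      linarith
    · rw [flat_append, pts_append, Finset.mem_union] at hu'
      rcases hu' with h | h
      · exact Finset.disjoint_left.1 hπ.1.2.2 hu h
      · linarith [(lev_ptsY h).1, lev_ptsX hu, show lev s 1 (y + disp vec (flat vec π)) < _ from hπ.1.1]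

variable [IsProbabilityMeasure ν]

lemma paths_le {κ : ℝ≥0∞} (hU : UEL ν κ) {st : List Dir}
    (h1 : ∀ u ∈ pts vec 0 st, -1 ≤ lev s 1 u ∧ lev s 1 u < 1) (h2 : lev s 1 (disp vec st) < -1)
    (N : ℕ) :
    κ ^ st.length * ∫⁻ α, (side vec ν s (-1)).LM (DN ν (disp vec st) N α) ∂(side vec ν s 1).LM
      ≤ 1 := by
  have hlt : ∀ (β : List (Slab vec (lev s (-1)))) a b, st ++ flat vec β = a ++ b →
      lev s 1 (disp vec a) < 1 := by
    intro β a b e
    have : disp vec a ∈ allp vec 0 (st ++ flat vec β) := mem_allp_iff.2 ⟨a, b, e, by simp⟩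
    rcases mem_allp_append.1 this with h | h
    · exact (h1 _ h).2
    · have := ((flat_bridge β).allp_le (mem_allp_shift.1 h)).1
      rw [lev_neg, zero_add, map_sub] at this
      linarith
  have hge : ∀ (α : List (Slab vec (lev s 1))) g a, gX α = g ++ a → a ≠ [] →
      1 ≤ lev s 1 (disp vec a) := by
    intro α g a e ha
    have := (flat_bridge α.reverse (disp vec g) (by
      change _ ∈ pts vec 0 (gX α)
      rw [e]; exact mem_pts_zero_append.2 (Or.inr (by simpa using start_mem_pts ha 0)))).2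
    change _ ≤ lev s 1 (disp vec (gX α)) at this
    rw [e, disp_append, map_add] at this
    linarith
  refine le_trans ?_ (tsum_wt_le_one vec ν
    (fun c : (Σ α : List (Slab vec (lev s 1)), DN ν (disp vec st) N α) =>
      gX c.1 ++ (st ++ flat vec c.2.1)) ?_)
  · rw [Side.lintegral_LM, ENNReal.tsum_sigma', ← ENNReal.tsum_mul_left]
    refine ENNReal.tsum_le_tsum fun α => ?_
    rw [Side.LM_apply', ← ENNReal.tsum_mul_left, ← ENNReal.tsum_mul_left]
    refine ENNReal.tsum_le_tsum fun β => ?_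
    have e1 : (side vec ν s 1).lw α = wt vec ν (xs α) (gX α) := by
      rw [wt_shift, gX, ← side_lw]; simp [Side.lw, List.map_reverse]
    have e2 : xs α + disp vec (gX α ++ st) = disp vec st := by simp [xs]
    rw [← List.append_assoc, ← wt_shift vec ν (xs α), wt_append_of_disjoint, e2, e1, side_lw,
      wt_shift vec ν (disp vec st), ← mul_assoc]
    · exact mul_le_mul' (wt_append_ge vec ν hU _ _ _) le_rfl
    · rw [e2, pts_append, Finset.disjoint_union_left]
      refine ⟨β.2.2.2, Finset.disjoint_left.2 fun u hu hu' => ?_⟩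
      have e3 : xs α + disp vec (gX α) = 0 := by simp [xs]
      rw [e3] at hu
      linarith [(h1 u hu).1, (lev_ptsY hu').1]
  · rintro ⟨α, β, hβ⟩ ⟨α', β', hβ'⟩ τ e
    simp only [List.append_assoc] at e
    have hg : gX α' = gX α := by
      rcases List.append_eq_append_iff.1 e with ⟨a, e1, e2⟩ | ⟨a, e1, e2⟩
      · by_cases ha : a = []
        · simp [e1, ha]
        · linarith [hge α _ a e1 ha, hlt β' a _ e2]
      · by_cases ha : a = []
        · simp [e1, ha]
        · exfalso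
          rw [← List.append_assoc] at e2
          rcases List.append_eq_append_iff.1 e2 with ⟨b, e3, -⟩ | ⟨b, e3, -⟩
          · have h3 : disp vec (gX α ++ (st ++ flat vec β)) ∈ allp vec 0 (gX α') :=
              mem_allp_iff.2 ⟨gX α ++ (st ++ flat vec β), b, by rw [e1, e3]; simp, by simp⟩
            have h4 := ((flat_bridge α'.reverse).allp_le h3).1
            have h5 := hβ.2.1
            simp only [ye, xs, map_neg, map_add, disp_append] at h4 h5
            linarith
          · linarith [hge α' _ a e1 ha, hlt β a _ e3]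
    have hα : α' = α := List.reverse_injective (flat_injective hg)
    subst hα
    have e' : flat vec β' = flat vec β ++ τ := List.append_cancel_left (List.append_cancel_left e)
    have h3 := hβ.1.1
    have h4 := hβ'.1.2
    rw [side_TW] at h3 h4
    rw [e'] at h4
    have := IsBridge.eq_of_window (e' ▸ flat_bridge β') h3 h4
    subst this
    have : β = β' := flat_injective (by simpa using e'.symm)
    subst this
    rfl

lemma TT_ne_top {κ : ℝ≥0∞} (hκ : κ ≠ 0) (hU : UEL ν κ) {p : ℝ} (hp : 0 < p)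
    (hQ : (side vec ν s (-1)).Ok p) {st : List Dir}
    (h1 : ∀ u ∈ pts vec 0 st, -1 ≤ lev s 1 u ∧ lev s 1 u < 1) (h2 : lev s 1 (disp vec st) < -1) :
    TT ν (disp vec st) ([] : List (Slab vec (lev s 1))) [] ≠ ∞ := by
  set y := disp vec st
  have e : TT ν y ([] : List (Slab vec (lev s 1))) [] = ⨆ N : ℕ, ∫⁻ α, (side vec ν s (-1)).LM
      {β | Cf y α β ∧ (side vec ν s (-1)).TW β + 1 ≤ N} ∂(side vec ν s 1).LM := by
    have hmono : ∀ α : List (Slab vec (lev s 1)), Monotone fun N : ℕ =>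
        {β | Cf y α β ∧ (side vec ν s (-1)).TW β + 1 ≤ N} := fun α a b hab β hβ =>
      ⟨hβ.1, hβ.2.trans (by exact_mod_cast hab)⟩
    rw [← lintegral_iSup (fun _ => Measurable.of_discrete)
      (fun a b hab α => measure_mono (hmono α hab)), TT]
    refine lintegral_congr fun α => ?_
    rw [← (hmono α).measure_iUnion]
    congr 1
    ext β
    simp only [List.nil_append, Set.mem_setOf_eq, Set.mem_iUnion, exists_and_left, iff_self_and]
    exact fun _ => exists_nat_ge _
  have key : (κ ^ st.length * ENNReal.ofReal p) * TT ν y ([] : List (Slab vec (lev s 1))) []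
      ≤ 1 := by
    rw [e, ENNReal.mul_iSup]
    refine iSup_le fun N => le_trans ?_ (paths_le ν hU h1 h2 N)
    rw [mul_assoc, ← lintegral_const_mul _ Measurable.of_discrete]
    exact mul_le_mul' le_rfl (lintegral_mono fun α => extend ν hQ y N α)
  intro h
  rw [h, ENNReal.mul_top (mul_ne_zero (pow_ne_zero _ hκ) (by simpa using hp))] at key
  simp at key

end Fin2

theorem not_blow {vec : Dir → Pt} (hv : IsVec vec) {s : ℝ} (hs0 : 0 ≤ s) (hs1 : s ≤ 1)
    (ν : Measure (ℕ → Dir)) [IsProbabilityMeasure ν] {κ : ℝ≥0∞} (hκ : κ ≠ 0) (hU : UEL ν κ)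
    {p : ℝ} (hp : 0 < p) (hQ : (side vec ν s (-1)).Ok p) :
    ¬ (side vec ν s 1).Blow (side vec ν s (-1)) := by
  rintro ⟨m, H, hH, h⟩
  obtain ⟨st, h1, h2, h3, h4⟩ := Fin2.exists_steer hv hs0 hs1 ⌈H + 2 * |m|⌉₊
  have hm := abs_nonneg m
  have h5 := Nat.le_ceil (H + 2 * |m|)
  have h6 := Nat.ceil_lt_add_one (show 0 ≤ H + 2 * |m| by linarith)
  have h7 : |m * lev s 1 (disp vec st)| ≤ 2 * |m| := by
    rw [abs_mul, mul_comm]
    exact mul_le_mul_of_nonneg_right (abs_le.2 ⟨h2, by linarith⟩) hm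
  have h8 : phi s m (disp vec st) = ⌈H + 2 * |m|⌉₊ - m * lev s 1 (disp vec st) := by
    rw [phi_apply, lev_apply, h4]; simp
  have h9 := h _ (Fin2.super ν m (disp vec st)) (phi s m (disp vec st)) (-lev s 1 (disp vec st))
    (by linarith [(abs_le.1 h7).2]) (by linarith [(abs_le.1 h7).1])
    (abs_le.2 ⟨by linarith, by linarith⟩)
  refine Fin2.TT_ne_top ν hκ hU hp hQ h1 h3 (top_le_iff.1 (h9 ▸ Fin2.vv_le ν ?_ ?_ ?_))
  · exact ⟨by simp, by simp [Fin2.gX], by simp [Fin2.Dis], fun β₁ σ β₂ e => by simp at e⟩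
  · simp [Fin2.ye, Fin2.xs, Fin2.gX]
  · simp [Fin2.ye, Fin2.xs, Fin2.gX]

end Pool.Agent.MP_db8016_pr

end
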