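import Pool.Agent.Mg.Fdb8016a.G6ef5a8

/-! The abelian flow lemma and the planar barrier. -/

namespace Pool.Agent.MP_db8016_pr

namespace FlowAux

section Abstract
variable {ι V : Type} [DecidableEq ι] [DecidableEq V] (src tgt : ι → V)

/-- Total increment of `g` along a finite family of arrows. -/
def Phi (E : Finset ι) (g : V → ℤ) : ℤ := ∑ p ∈ E, (g (tgt p) - g (src p))

/-- The indicator function of a vertex. -/
def ind (v : V) (u : V) : ℤ := if u = v then 1 else 0

omit [DecidableEq ι] in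
lemma Phi_ind (E : Finset ι) (v : V) : Phi src tgt E (ind v) =
    ((E.filter fun p => tgt p = v).card : ℤ) - ((E.filter fun p => src p = v).card : ℤ) := by
  simp only [Phi, ind, Finset.sum_sub_distrib, Finset.sum_boole]

lemma inter_ind_le {E₁ E₂ : Finset ι} {x X y Y v : V}
    (h₁ : ∀ g, Phi src tgt E₁ g = g X - g x) (h₂ : ∀ g, Phi src tgt E₂ g = g Y - g y)
    (hv : ∀ p ∈ E₁, src p = v → p ∈ E₂) (hXY : X ≠ Y) (hX : ∀ p ∈ E₂, src p ≠ X) :
    Phi src tgt (E₁ ∩ E₂) (ind v) ≤ 0 := by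
  have e₁ := h₁ (ind v)
  have e₂ := h₂ (ind v)
  rw [Phi_ind] at e₁ e₂ ⊢
  have a₁ : ((E₁ ∩ E₂).filter fun p => tgt p = v).card ≤ (E₁.filter fun p => tgt p = v).card :=
    Finset.card_le_card (Finset.filter_subset_filter _ Finset.inter_subset_left)
  have a₂ : ((E₁ ∩ E₂).filter fun p => tgt p = v).card ≤ (E₂.filter fun p => tgt p = v).card :=
    Finset.card_le_card (Finset.filter_subset_filter _ Finset.inter_subset_right)
  have a₃ : (E₁.filter fun p => src p = v).card ≤ ((E₁ ∩ E₂).filter fun p => src p = v).card := by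
    refine Finset.card_le_card fun p hp => ?_
    rw [Finset.mem_filter] at hp ⊢
    exact ⟨Finset.mem_inter.2 ⟨hp.1, hv p hp.1 hp.2⟩, hp.2⟩
  by_cases hvX : X = v
  · subst hvX
    have a₄ : (E₂.filter fun p => src p = X).card = 0 := by
      rw [Finset.card_eq_zero, Finset.filter_eq_empty_iff]
      exact hX
    simp only [ind, hXY.symm, if_false] at e₂
    split_ifs at e₂ <;> omega
  · simp only [ind, hvX, if_false] at e₁
    split_ifs at e₁ <;> omega

omit [DecidableEq ι] in
lemma Phi_eq_zero {E : Finset ι} (h : ∀ v, Phi src tgt E (ind v) ≤ 0) (g : V → ℤ) :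
    Phi src tgt E g = 0 := by
  set T : Finset V := E.image src ∪ E.image tgt with hT
  have key : ∀ g : V → ℤ, Phi src tgt E g = ∑ v ∈ T, g v * Phi src tgt E (ind v) := by
    intro g
    simp only [Phi, Finset.mul_sum]
    rw [Finset.sum_comm]
    refine Finset.sum_congr rfl fun p hp => ?_
    have h1 : src p ∈ T := Finset.mem_union_left _ (Finset.mem_image_of_mem _ hp)
    have h2 : tgt p ∈ T := Finset.mem_union_right _ (Finset.mem_image_of_mem _ hp)
    simp [ind, mul_sub, Finset.sum_sub_distrib, h1, h2]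
  have h0 : ∑ v ∈ T, Phi src tgt E (ind v) = 0 := by
    have := key fun _ => 1
    simp only [one_mul] at this
    rw [← this]
    simp [Phi]
  have h1 := (Finset.sum_eq_zero_iff_of_nonpos fun v _ => h v).1 h0
  rw [key]
  exact Finset.sum_eq_zero fun v hv => by rw [h1 v hv, mul_zero]

omit [DecidableEq V] in
lemma Phi_sdiff (E₁ E₂ : Finset ι) (g : V → ℤ) :
    Phi src tgt (E₁ \ E₂) g = Phi src tgt E₁ g - Phi src tgt (E₁ ∩ E₂) g := by
  unfold Phi
  rw [← Finset.sum_inter_add_sum_sdiff E₁ E₂]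
  ring

omit [DecidableEq ι] in
lemma touched {E : Finset ι} {x X v : V} (h : ∀ g, Phi src tgt E g = g X - g x) {p : ι}
    (hp : p ∈ E) (hv : src p = v ∨ tgt p = v) : v = X ∨ ∃ q ∈ E, src q = v := by
  rcases hv with hv | hv
  · exact Or.inr ⟨p, hp, hv⟩
  by_contra hc
  push Not at hc
  have e := h (ind v)
  rw [Phi_ind] at e
  have a₁ : (E.filter fun p => src p = v).card = 0 := by
    rw [Finset.card_eq_zero, Finset.filter_eq_empty_iff]
    exact hc.2
  have a₂ : 0 < (E.filter fun p => tgt p = v).card :=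
    Finset.card_pos.2 ⟨p, Finset.mem_filter.2 ⟨hp, hv⟩⟩
  simp only [ind, hc.1.symm, if_false] at e
  split_ifs at e <;> omega

/-- Two walks that read the same stacks split into vertex disjoint flows. -/
theorem split {E₁ E₂ : Finset ι} {x X y Y : V}
    (h₁ : ∀ g, Phi src tgt E₁ g = g X - g x) (h₂ : ∀ g, Phi src tgt E₂ g = g Y - g y)
    (nest : ∀ v, (∀ p ∈ E₁, src p = v → p ∈ E₂) ∨ (∀ p ∈ E₂, src p = v → p ∈ E₁))
    (hXY : X ≠ Y) (hX : ∀ p ∈ E₂, src p ≠ X) (hY : ∀ p ∈ E₁, src p ≠ Y) :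
    (∀ g, Phi src tgt (E₁ \ E₂) g = g X - g x) ∧ (∀ g, Phi src tgt (E₂ \ E₁) g = g Y - g y) ∧
      ∀ p ∈ E₁ \ E₂, ∀ q ∈ E₂ \ E₁, ∀ v, src p = v ∨ tgt p = v → src q = v ∨ tgt q = v →
        False := by
  have h0 : ∀ g, Phi src tgt (E₁ ∩ E₂) g = 0 := by
    refine Phi_eq_zero src tgt fun v => ?_
    rcases nest v with hv | hv
    · exact inter_ind_le src tgt h₁ h₂ hv hXY hX
    · rw [Finset.inter_comm]
      exact inter_ind_le src tgt h₂ h₁ hv hXY.symm hY
  have hA : ∀ g, Phi src tgt (E₁ \ E₂) g = g X - g x := fun g => by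
    rw [Phi_sdiff, h0, h₁, sub_zero]
  have hB : ∀ g, Phi src tgt (E₂ \ E₁) g = g Y - g y := fun g => by
    rw [Phi_sdiff, Finset.inter_comm, h0, h₂, sub_zero]
  refine ⟨hA, hB, fun p hp q hq v hpv hqv => ?_⟩
  rcases touched src tgt hA hp hpv with rfl | ⟨p', hp', hp''⟩
  · rcases touched src tgt hB hq hqv with h | ⟨q', hq', hq''⟩
    · exact hXY h
    · exact hX q' (Finset.mem_sdiff.1 hq').1 hq''
  · rcases touched src tgt hB hq hqv with rfl | ⟨q', hq', hq''⟩
    · exact hY p' (Finset.mem_sdiff.1 hp').1 hp''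
    · rcases nest v with h | h
      · exact (Finset.mem_sdiff.1 hp').2 (h p' (Finset.mem_sdiff.1 hp').1 hp'')
      · exact (Finset.mem_sdiff.1 hq').2 (h q' (Finset.mem_sdiff.1 hq').1 hq'')

end Abstract

section Walk
variable (vec : Dir → Pt) (a : Pt → ℕ → Dir)

/-- The arrows read by a path. -/
def arr (x : Pt) (γ : List Dir) : Finset (Σ _ : Pt, ℕ) :=
  (pts vec x γ).sigma fun z => Finset.range (exits vec x γ z).length

def src (p : Σ _ : Pt, ℕ) : Pt := p.1

def tgt (p : Σ _ : Pt, ℕ) : Pt := p.1 + vec (a p.1 p.2)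

lemma mem_arr {x : Pt} {γ : List Dir} {p : Σ _ : Pt, ℕ} :
    p ∈ arr vec x γ ↔ p.2 < (exits vec x γ p.1).length := by
  rw [arr, Finset.mem_sigma, Finset.mem_range]
  refine ⟨fun h => h.2, fun h => ⟨?_, h⟩⟩
  by_contra hc
  rw [(exits_eq_nil_iff vec).2 hc] at h
  simp at h

lemma sum_exits (g : Pt → ℤ) (T : Finset Pt) (γ : List Dir) : ∀ x : Pt, pts vec x γ ⊆ T →
    ∑ z ∈ T, ((exits vec x γ z).map fun d => g (z + vec d) - g z).sum =
      g (x + disp vec γ) - g x := by
  induction γ with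
  | nil => simp
  | cons d γ ih =>
    intro x hT
    rw [pts_cons, Finset.insert_subset_iff] at hT
    have e : ∀ z, ((exits vec x (d :: γ) z).map fun d => g (z + vec d) - g z).sum =
        (if x = z then g (z + vec d) - g z else 0) +
          ((exits vec (x + vec d) γ z).map fun d => g (z + vec d) - g z).sum := by
      intro z
      rw [exits_cons]
      split_ifs <;> simp
    simp only [e, Finset.sum_add_distrib, ih _ hT.2, Finset.sum_ite_eq, hT.1, if_true, disp_cons,
      add_assoc]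
    ring

lemma sum_pre (b : ℕ → Dir) (f : Dir → ℤ) (n : ℕ) :
    ((pre b n).map f).sum = ∑ i ∈ Finset.range n, f (b i) := by
  induction n with
  | zero => simp
  | succ n ih => simp [pre_succ, ih, Finset.sum_range_succ]

lemma Phi_arr {x : Pt} {γ : List Dir} (h : a ∈ Fol vec x γ) (g : Pt → ℤ) :
    Phi src (tgt vec a) (arr vec x γ) g = g (x + disp vec γ) - g x := by
  rw [← sum_exits vec g _ γ x subset_rfl, Phi, arr, Finset.sum_sigma]
  refine Finset.sum_congr rfl fun z _ => ?_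
  have hz : pre (a z) (exits vec x γ z).length = exits vec x γ z := h z
  conv_rhs => rw [← hz, sum_pre]
  rfl

lemma start_mem_allp (x : Pt) (γ : List Dir) : x ∈ allp vec x γ := by
  cases γ <;> simp [allp, pts_cons]

lemma end_mem_allp (x : Pt) (γ : List Dir) : x + disp vec γ ∈ allp vec x γ :=
  Finset.mem_insert_self _ _

lemma src_mem {x : Pt} {γ : List Dir} {p : Σ _ : Pt, ℕ} (hp : p ∈ arr vec x γ) :
    src p ∈ allp vec x γ :=
  Finset.mem_insert_of_mem (Finset.mem_sigma.1 hp).1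

lemma tgt_mem {x : Pt} {γ : List Dir} (h : a ∈ Fol vec x γ) {p : Σ _ : Pt, ℕ}
    (hp : p ∈ arr vec x γ) : tgt vec a p ∈ allp vec x γ := by
  rcases touched src (tgt vec a) (Phi_arr vec a h) hp (Or.inr rfl) with e | ⟨q, hq, e⟩
  · rw [e]; exact end_mem_allp vec x γ
  · rw [← e]; exact src_mem vec hq

end Walk

section Plane
variable (f : ℤ → ℤ)

/-- The column of a site. -/
def col (z : Pt) : ℤ := z.1 + f z.2

/-- Lattice neighbours. -/
def Nb (u v : Pt) : Prop :=
  v = u + (1, 0) ∨ v = u + (-1, 0) ∨ v = u + (0, 1) ∨ v = u + (0, -1)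

/-- The signed crossing of the arrow `u → v` with the ray that goes up from `z`. -/
def crs (z u v : Pt) : ℤ :=
  if z.2 < u.2 ∨ z.2 < v.2 then
    (if col f v < col f z then 1 else 0) - (if col f u < col f z then 1 else 0) else 0

def upH (z v : Pt) : ℤ := if col f v = col f z ∧ z.2 < v.2 then 1 else 0

def upV (z v : Pt) : ℤ :=
  if f (z.2 + 1) = f z.2 + 1 ∧ col f v = col f z ∧ z.2 < v.2 then 1 else 0

lemma crs_horiz {z u v : Pt} (h : Nb u v) (hu : u ≠ z) (hv : v ≠ z) :
    crs f (z + (1, 0)) u v - crs f z u v = upH f z v - upH f z u := by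
  obtain ⟨z1, z2⟩ := z
  obtain ⟨u1, u2⟩ := u
  obtain ⟨v1, v2⟩ := v
  have e1 : u2 = z2 → f u2 = f z2 := fun e => by rw [e]
  have e2 : v2 = z2 → f v2 = f z2 := fun e => by rw [e]
  simp only [Nb, Prod.mk_add_mk, Prod.mk.injEq, ne_eq, not_and] at h hu hv
  simp only [crs, upH, col, Prod.mk_add_mk, add_zero]
  split_ifs <;> omega

lemma crs_vert (hf : ∀ k, f (k + 1) = f k ∨ f (k + 1) = f k + 1) {z u v : Pt} (h : Nb u v)
    (hu : u ≠ z + (0, 1)) (hv : v ≠ z + (0, 1)) :
    crs f (z + (0, 1)) u v - crs f z u v = upV f z v - upV f z u := by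
  obtain ⟨z1, z2⟩ := z
  obtain ⟨u1, u2⟩ := u
  obtain ⟨v1, v2⟩ := v
  have e1 : u2 = z2 → f u2 = f z2 := fun e => by rw [e]
  have e2 : v2 = z2 → f v2 = f z2 := fun e => by rw [e]
  have e3 : u2 = z2 + 1 → f u2 = f (z2 + 1) := fun e => by rw [e]
  have e4 : v2 = z2 + 1 → f v2 = f (z2 + 1) := fun e => by rw [e]
  have e5 := hf z2
  simp only [Nb, Prod.mk_add_mk, Prod.mk.injEq, ne_eq, not_and] at h hu hv
  simp only [crs, upV, col, Prod.mk_add_mk, add_zero]
  split_ifs <;> omega

/-- An arrow that changes the side of a column has an end in that column. -/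
lemma end_in_col (hf : ∀ k, f (k + 1) = f k ∨ f (k + 1) = f k + 1) {u v : Pt} (h : Nb u v)
    {c : ℤ} (hc : ¬ (col f v < c ↔ col f u < c)) : col f u = c ∨ col f v = c := by
  obtain ⟨u1, u2⟩ := u
  obtain ⟨v1, v2⟩ := v
  have e1 : u2 = v2 → f u2 = f v2 := fun e => by rw [e]
  have e2 : u2 = v2 + 1 → f u2 = f (v2 + 1) := fun e => by rw [e]
  have e3 : v2 = u2 + 1 → f v2 = f (u2 + 1) := fun e => by rw [e]
  have e4 := hf u2
  have e5 := hf v2
  simp only [Nb, Prod.mk_add_mk, Prod.mk.injEq] at h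
  simp only [col] at hc ⊢
  omega

variable {ι : Type} (sr tg : ι → Pt) (B : Finset ι)

/-- The winding number of the family `B` of arrows around `z`. -/
def J (z : Pt) : ℤ := ∑ p ∈ B, crs f z (sr p) (tg p)

variable {f sr tg B}

lemma J_nb (hf : ∀ k, f (k + 1) = f k ∨ f (k + 1) = f k + 1) {y Y : Pt}
    (hB : ∀ g, Phi sr tg B g = g Y - g y) (hN : ∀ p ∈ B, Nb (sr p) (tg p)) {z z' : Pt}
    (h : Nb z z') (hz : ∀ p ∈ B, sr p ≠ z ∧ tg p ≠ z) (hz' : ∀ p ∈ B, sr p ≠ z' ∧ tg p ≠ z')
    (hc : col f y ≠ col f z ∧ col f Y ≠ col f z) (hc' : col f y ≠ col f z' ∧ col f Y ≠ col f z') :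
    J f sr tg B z' = J f sr tg B z := by
  have H : ∀ w : Pt, (∀ p ∈ B, sr p ≠ w ∧ tg p ≠ w) → col f y ≠ col f w ∧ col f Y ≠ col f w →
      J f sr tg B (w + (1, 0)) = J f sr tg B w := by
    intro w hw hcw
    have e := hB (upH f w)
    rw [Phi, ← Finset.sum_congr rfl fun p hp => crs_horiz f (hN p hp) (hw p hp).1 (hw p hp).2,
      Finset.sum_sub_distrib] at e
    simp only [upH, hcw.1, hcw.2, false_and, if_false, sub_zero] at e
    exact sub_eq_zero.1 e
  have V : ∀ w : Pt, (∀ p ∈ B, sr p ≠ w + (0, 1) ∧ tg p ≠ w + (0, 1)) →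
      col f y ≠ col f w ∧ col f Y ≠ col f w → J f sr tg B (w + (0, 1)) = J f sr tg B w := by
    intro w hw hcw
    have e := hB (upV f w)
    rw [Phi, ← Finset.sum_congr rfl fun p hp => crs_vert f hf (hN p hp) (hw p hp).1 (hw p hp).2,
      Finset.sum_sub_distrib] at e
    simp only [upV, hcw.1, hcw.2, false_and, and_false, if_false, sub_zero] at e
    exact sub_eq_zero.1 e
  rcases h with rfl | h | rfl | h
  · exact H z hz hc
  · have e : z = z' + (1, 0) := by rw [h]; ext <;> simp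
    rw [e]
    exact (H z' hz' hc').symm
  · exact V z hz' hc
  · have e : z = z' + (0, 1) := by rw [h]; ext <;> simp
    rw [e] at hz ⊢
    exact (V z' hz hc').symm

lemma J_low (hf : ∀ k, f (k + 1) = f k ∨ f (k + 1) = f k + 1) {y Y : Pt}
    (hB : ∀ g, Phi sr tg B g = g Y - g y) (hN : ∀ p ∈ B, Nb (sr p) (tg p)) {z : Pt}
    (hz : ∀ p ∈ B, ∀ v, sr p = v ∨ tg p = v → col f v = col f z → z.2 < v.2)
    (hc : ¬ (col f Y < col f z ↔ col f y < col f z)) : J f sr tg B z ≠ 0 := by
  have e := hB fun v => if col f v < col f z then 1 else 0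
  have e' : J f sr tg B z = Phi sr tg B fun v => if col f v < col f z then 1 else 0 := by
    refine Finset.sum_congr rfl fun p hp => ?_
    unfold crs
    by_cases h1 : col f (tg p) < col f z ↔ col f (sr p) < col f z
    · simp [h1]
    · rw [if_pos]
      rcases end_in_col f hf (hN p hp) h1 with h2 | h2
      · exact Or.inl (hz p hp _ (Or.inl rfl) h2)
      · exact Or.inr (hz p hp _ (Or.inr rfl) h2)
  rw [e', e]
  split_ifs <;> simp_all

lemma J_high (hf : ∀ k, f (k + 1) = f k ∨ f (k + 1) = f k + 1)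
    (hN : ∀ p ∈ B, Nb (sr p) (tg p)) {z : Pt}
    (hz : ∀ p ∈ B, ∀ v, sr p = v ∨ tg p = v → col f v = col f z → v.2 < z.2) :
    J f sr tg B z = 0 := by
  refine Finset.sum_eq_zero fun p hp => ?_
  unfold crs
  by_cases h1 : col f (tg p) < col f z ↔ col f (sr p) < col f z
  · simp [h1]
  · rw [if_neg]
    have h3 : (tg p).2 ≤ (sr p).2 + 1 ∧ (sr p).2 ≤ (tg p).2 + 1 := by
      rcases hN p hp with e | e | e | e <;> rw [e] <;> simp only [Prod.snd_add] <;> omega
    rcases end_in_col f hf (hN p hp) h1 with h2 | h2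
    · have := hz p hp _ (Or.inl rfl) h2
      omega
    · have := hz p hp _ (Or.inr rfl) h2
      omega

end Plane

section Floor

/-- The shift of the columns. -/
noncomputable def fl (s : ℝ) (k : ℤ) : ℤ := ⌊s * (k : ℝ)⌋

lemma fl_step {s : ℝ} (h0 : 0 ≤ s) (h1 : s ≤ 1) (k : ℤ) :
    fl s (k + 1) = fl s k ∨ fl s (k + 1) = fl s k + 1 := by
  have a1 : fl s k ≤ fl s (k + 1) := by
    refine Int.floor_le_floor ?_
    push_cast
    nlinarith
  have a2 : fl s (k + 1) ≤ fl s k + 1 := by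
    unfold fl
    rw [← Int.floor_add_one]
    refine Int.floor_le_floor ?_
    push_cast
    nlinarith
  omega

lemma col_le (s : ℝ) (z : Pt) : (col (fl s) z : ℝ) ≤ (z.1 : ℝ) + s * (z.2 : ℝ) := by
  have := Int.floor_le (s * (z.2 : ℝ))
  simp only [col, fl, Int.cast_add]
  linarith

lemma lt_col (s : ℝ) (z : Pt) : (z.1 : ℝ) + s * (z.2 : ℝ) < (col (fl s) z : ℝ) + 1 := by
  have := Int.lt_floor_add_one (s * (z.2 : ℝ))
  simp only [col, fl, Int.cast_add]
  linarith

lemma col_lt_col {s : ℝ} {u v : Pt}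
    (h : (u.1 : ℝ) + s * (u.2 : ℝ) + 1 ≤ (v.1 : ℝ) + s * (v.2 : ℝ)) :
    col (fl s) u < col (fl s) v := by
  have h1 := col_le s u
  have h2 := lt_col s v
  have : (col (fl s) u : ℝ) < (col (fl s) v : ℝ) := by linarith
  exact_mod_cast this

lemma row_lt {s m : ℝ} {u v : Pt} (hc : col (fl s) u = col (fl s) v)
    (h : phi s m u + |m| < phi s m v) : u.2 < v.2 := by
  have h1 := col_le s u
  have h2 := lt_col s u
  have h3 := col_le s v
  have h4 := lt_col s v
  rw [hc] at h1 h2
  rw [phi_apply, phi_apply] at h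
  set A := (u.1 : ℝ) + s * (u.2 : ℝ)
  set B := (v.1 : ℝ) + s * (v.2 : ℝ)
  have h5 : |A - B| ≤ 1 := abs_le.2 ⟨by linarith, by linarith⟩
  have h6 : m * (A - B) ≤ |m| := by
    calc m * (A - B) ≤ |m * (A - B)| := le_abs_self _
      _ = |m| * |A - B| := abs_mul _ _
      _ ≤ |m| * 1 := mul_le_mul_of_nonneg_left h5 (abs_nonneg m)
      _ = |m| := mul_one _
  have : (u.2 : ℝ) < (v.2 : ℝ) := by linarith
  exact_mod_cast this

end Floor

end FlowAux

open FlowAux in
theorem flow : FlowStmt := by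
  classical
  intro vec hvec s m c G ε η hs0 hs1 hε hη a x y γ δ hγ hδ hlev hphi hx hX
  have hf := fl_step hs0 hs1
  set X := x + disp vec γ with hXd
  set Y := y + disp vec δ with hYd
  have hcol : ∀ u ∈ allp vec x γ,
      (col (fl s) Y < col (fl s) u ∧ col (fl s) u < col (fl s) y) ∨
      (col (fl s) y < col (fl s) u ∧ col (fl s) u < col (fl s) Y) := by
    intro u hu
    obtain ⟨h1, h2⟩ := hlev u hu
    simp only [lev_apply] at h1 h2
    rcases hε with rfl | rfl
    · exact Or.inl ⟨col_lt_col (by linarith), col_lt_col (by linarith)⟩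
    · exact Or.inr ⟨col_lt_col (by linarith), col_lt_col (by linarith)⟩
  have hXn : X ∉ allp vec y δ := by
    intro h
    have h1 := abs_le.1 (hphi X h)
    have h2 := abs_nonneg m
    rcases hη with rfl | rfl <;> linarith [h1.1, h1.2]
  have hYn : Y ∉ allp vec x γ := by
    intro h
    have := hcol Y h
    omega
  have hN : ∀ p : (Σ _ : Pt, ℕ), Nb (src p) (tgt vec a p) := by
    intro p
    rcases hvec.unit (a p.1 p.2) with e | e | e | e <;> simp [Nb, src, tgt, e]
  obtain ⟨hA, hB, hAB⟩ := split src (tgt vec a) (Phi_arr vec a hγ) (Phi_arr vec a hδ)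
    (fun v => by
      rcases le_total (exits vec x γ v).length (exits vec y δ v).length with h | h
      · refine Or.inl ?_
        rintro p hp rfl
        exact (mem_arr vec).2 (((mem_arr vec).1 hp).trans_le h)
      · refine Or.inr ?_
        rintro p hp rfl
        exact (mem_arr vec).2 (((mem_arr vec).1 hp).trans_le h))
    (fun e => hXn (by rw [hXd, e]; exact end_mem_allp vec y δ))
    (fun p hp e => hXn (by rw [hXd, ← e]; exact src_mem vec hp))
    (fun p hp e => hYn (by rw [hYd, ← e]; exact src_mem vec hp))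
  rw [← hXd] at hA
  rw [← hYd] at hB
  set A := arr vec x γ \ arr vec y δ
  set B := arr vec y δ \ arr vec x γ
  have hJ : J (fl s) src (tgt vec a) B X = J (fl s) src (tgt vec a) B x := by
    have e := hA (J (fl s) src (tgt vec a) B)
    rw [← sub_eq_zero, ← e]
    refine Finset.sum_eq_zero fun p hp => sub_eq_zero.2 ?_
    have hp1 := (Finset.mem_sdiff.1 hp).1
    refine J_nb hf hB (fun q _ => hN q) (hN p)
      (fun q hq => ⟨fun e => hAB p hp q hq _ (Or.inl rfl) (Or.inl e),
        fun e => hAB p hp q hq _ (Or.inl rfl) (Or.inr e)⟩)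
      (fun q hq => ⟨fun e => hAB p hp q hq _ (Or.inr rfl) (Or.inl e),
        fun e => hAB p hp q hq _ (Or.inr rfl) (Or.inr e)⟩) ?_ ?_
    · have := hcol _ (src_mem vec hp1)
      omega
    · have := hcol _ (tgt_mem vec a hγ hp1)
      omega
  have hBm : ∀ p ∈ B, ∀ v, src p = v ∨ tgt vec a p = v → |phi s m v - c| ≤ G := by
    rintro p hp v (rfl | rfl)
    · exact hphi _ (src_mem vec (Finset.mem_sdiff.1 hp).1)
    · exact hphi _ (tgt_mem vec a hδ (Finset.mem_sdiff.1 hp).1)
  have low : ∀ z ∈ allp vec x γ, phi s m z - c < -(G + |m|) →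
      J (fl s) src (tgt vec a) B z ≠ 0 := by
    intro z hz h
    refine J_low hf hB (fun q _ => hN q) (fun p hp v hv hc => row_lt (m := m) hc.symm ?_) ?_
    · linarith [(abs_le.1 (hBm p hp v hv)).1]
    · have := hcol z hz
      omega
  have high : ∀ z, G + |m| < phi s m z - c → J (fl s) src (tgt vec a) B z = 0 := by
    intro z h
    refine J_high hf (fun q _ => hN q) (fun p hp v hv hc => row_lt (m := m) hc ?_)
    linarith [(abs_le.1 (hBm p hp v hv)).2]
  rcases hη with rfl | rfl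
  · exact low x (start_mem_allp vec x γ) (by linarith) (hJ ▸ high X (by linarith))
  · exact low X (end_mem_allp vec x γ) (by linarith) (hJ ▸ high x (by linarith))

end Pool.Agent.MP_db8016_pr
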