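import Pool.Agent.Mg.Fdb8016a.Gbed205

/-! The induction over scales. -/

set_option linter.unusedSectionVars false

namespace Pool.Agent.MP_db8016_pr
open MeasureTheory ProbabilityTheory Filter
open scoped ENNReal

namespace Sc

lemma ex_k {D q : ℝ} (hq : 0 < q) : ∃ k : ℕ, 1 ≤ k ∧ 5 * (D * k) ^ 2 * (1 / 2) ^ k ≤ q := by
  have h := (tendsto_pow_const_div_const_pow_of_one_lt 2 (show (1 : ℝ) < 2 by norm_num)).const_mul
    (5 * D ^ 2)
  rw [mul_zero] at h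
  obtain ⟨k, h1, h2⟩ := ((eventually_ge_atTop 1).and (h.eventually (gt_mem_nhds hq))).exists
  refine ⟨k, h1, le_trans (le_of_eq ?_) h2.le⟩
  rw [one_div, inv_pow]; ring

lemma ex_lim {m q : ℕ → ℝ} {C : ℝ} (hC : 0 ≤ C) (h0 : ∀ j, 0 ≤ q j) (h1 : ∀ j, q (j + 1) ≤ q j / 2)
    (h2 : ∀ j, |m j - m (j + 1)| ≤ C * q j) : ∃ a, ∀ j, |m j - a| ≤ 2 * C * q j := by
  have a1 : ∀ j i, |m j - m (j + i)| ≤ 2 * C * (q j - q (j + i)) := by
    intro j i
    induction i with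
    | zero => simp
    | succ i ih =>
      have := abs_sub_le (m j) (m (j + i)) (m (j + i + 1))
      have b1 := h2 (j + i)
      have b2 := mul_le_mul_of_nonneg_left (h1 (j + i)) hC
      rw [← add_assoc]
      linarith
  have a2 : ∀ j i, j ≤ i → |m j - m i| ≤ 2 * C * q j := by
    intro j i hji
    obtain ⟨i, rfl⟩ := Nat.exists_eq_add_of_le hji
    have := mul_nonneg hC (h0 (j + i))
    linarith [a1 j i]
  have a3 : ∀ j, q j ≤ q 0 * (1 / 2) ^ j := by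
    intro j
    induction j with
    | zero => simp
    | succ j ih => rw [pow_succ]; linarith [h1 j]
  have a4 : Tendsto q atTop (nhds 0) := by
    refine squeeze_zero h0 a3 ?_
    simpa using (tendsto_pow_atTop_nhds_zero_of_lt_one (r := (1 / 2 : ℝ)) (by norm_num)
      (by norm_num)).const_mul (q 0)
  have a5 : CauchySeq m := cauchySeq_of_le_tendsto_0' (fun j => 2 * C * q j)
    (fun j i hji => a2 j i hji) (by simpa using a4.const_mul (2 * C))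
  obtain ⟨a, ha⟩ := cauchySeq_tendsto_of_complete a5
  refine ⟨a, fun j => le_of_tendsto ((ha.const_sub (m j)).abs) ?_⟩
  exact (eventually_ge_atTop j).mono fun i hi => a2 j i hi

lemma rec_bound {a b : ℕ → ℝ} {c : ℝ} (hc : 0 ≤ c) (hb0 : 0 ≤ b 0) (hb : Monotone b)
    (h : ∀ j, a (j + 1) ≤ 3 / 4 * a j + c * b j) {j₀ : ℕ} (hj : 0 < b j₀) :
    ∀ᶠ j in atTop, a j ≤ (4 * c + 1) * b j := by
  have a1 : ∀ j, a j ≤ 4 * c * b j + a 0 * (3 / 4) ^ j := by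
    intro j
    induction j with
    | zero => have := mul_nonneg hc hb0; simp; linarith
    | succ j ih =>
      have := mul_le_mul_of_nonneg_left (hb (Nat.le_succ j)) hc
      rw [pow_succ]
      linarith [h j]
  have a2 := (tendsto_pow_atTop_nhds_zero_of_lt_one (r := (3 / 4 : ℝ)) (by norm_num)
    (by norm_num)).const_mul (a 0)
  rw [mul_zero] at a2
  filter_upwards [a2.eventually (gt_mem_nhds hj), eventually_ge_atTop j₀] with j h1 h2
  linarith [a1 j, hb h2]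

variable {S : Type} [MeasurableSpace S] [Countable S] [DiscreteMeasurableSpace S] {P : Side S}
  {p : ℝ}

lemma out (h : P.Ok p) (hr : P.Ren) (hi : P.Int2) {C w₀ ε δ w m a F : ℝ} (hC : 1 ≤ C)
    (lP : P.Link p C w₀) (hw : 0 < w) (hw₀ : w₀ ≤ w) (hF : 0 < F) (hε : ε ≤ 1 / 2)
    (lg : Lg P ε δ w) (I : Inv P p w m F) (ha : |m - a| * w ≤ 2 * C * F) :
    P.Tail w a ((1 + 2 * C) * F) ∧ P.V w a ≤ ((1 + 2 * C) * F) ^ 2 / w ∧
      |P.M w a| ≤ 3 * C * (∫ σ, P.W σ ∂P.f) * F / w := by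
  refine ⟨fun k hk => le_trans (measure_mono ?_) (I.tail k hk), ?_, ?_⟩
  · intro σ hσ
    refine ⟨hσ.1, ?_⟩
    have h1 := tail_shift h ha hσ.1
    have h2 : (k : ℝ) * ((1 + 2 * C) * F) < P.R a σ := hσ.2
    have h3 : (1 : ℝ) ≤ k := by exact_mod_cast hk
    have h4 : 1 * (2 * C * F) ≤ k * (2 * C * F) := by gcongr
    linarith
  · have h1 := V_near h hr hi hw lg ha
    have h2 : 2 * ε * (2 * C * F) ^ 2 / w ≤ 2 * (1 / 2) * (2 * C * F) ^ 2 / w := by gcongr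
    have h3 : 2 * (F ^ 2 / w) + 2 * (1 / 2) * (2 * C * F) ^ 2 / w ≤ ((1 + 2 * C) * F) ^ 2 / w := by
      rw [← mul_div_assoc, ← add_div]
      gcongr
      nlinarith [sq_nonneg F]
    linarith [I.var]
  · obtain ⟨m', hm'⟩ := ex_slope h hr hi lg.half
    have h1 := lP w m m' F hw₀ hF I.good I.var hm'
    have h2 : |m' - a| * w ≤ 3 * C * F := by
      have := mul_le_mul_of_nonneg_right (abs_sub_le m' m a) hw.le
      linarith
    have h3 : 0 ≤ A P w := by linarith [A_ge h hr w, lg.half]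
    rw [M_shift h hr hi w m' a, hm', zero_add, abs_mul, abs_of_nonneg h3, le_div_iff₀ hw]
    calc |m' - a| * A P w * w = |m' - a| * w * A P w := by ring
      _ ≤ 3 * C * F * ∫ σ, P.W σ ∂P.f := by gcongr; exact A_le h hr w
      _ = _ := by ring

end Sc

open Sc

variable {S T : Type} [MeasurableSpace S] [MeasurableSpace T] [Countable S] [DiscreteMeasurableSpace S]
  [Countable T] [DiscreteMeasurableSpace T] {P : Side S} {Q : Side T} {p : ℝ}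

theorem scales (hp : 0 < p) (hp1 : p ≤ 1) (hP : P.Ok p) (hQ : Q.Ok p) (rP : P.Ren) (rQ : Q.Ren)
    (iP : P.Int2) (iQ : Q.Int2) (mP : P.Mom) (mQ : Q.Mom) (kQ : Q.Kolm) {C w₀ Λ : ℝ} (hC : 1 ≤ C)
    (lP : P.Link p C w₀) (lQ : Q.Link p C w₀) (hΛ : 1 ≤ Λ) (hb : P.Boost Q p Λ)
    (hinit : ∀ w, ∃ F, 2 ≤ F ∧ Q.Good p w 0 F)
    (hnd : ∀ m, ∃ σ, P.f {σ} ≠ 0 ∧ P.ζ m σ ≠ 0) :
    ∃ m K C' w F, P.Scales Q m K C' w F := by
  obtain ⟨B, hB⟩ : ∃ B, B = Λ * (80 / p) := ⟨_, rfl⟩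
  have b0 : 80 ≤ 80 / p := by rw [le_div_iff₀ hp]; linarith
  have b1 : 1 ≤ B := by nlinarith
  obtain ⟨k, hk, hkK⟩ := ex_k (D := 2 * Λ * (C + 2) + (1 + 6 * B)) (show 0 < p / 16 by positivity)
  obtain ⟨s, hs⟩ : ∃ s, s = (2 * Λ * (C + 2) + (1 + 6 * B)) * k := ⟨_, rfl⟩
  rw [← hs] at hkK
  have hk' : (1 : ℝ) ≤ k := by exact_mod_cast hk
  have s1 : 2 * Λ * (k + C + 1) ≤ s := by
    have h1 : (C + 1) * 1 ≤ (C + 1) * k := by gcongr
    have h2 : 2 * Λ * (k + C + 1) ≤ 2 * Λ * ((C + 2) * k) := by gcongr; linarith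
    have h3 : 0 ≤ (1 + 6 * B) * k := by positivity
    rw [hs]; linarith
  have s2 : 1 + 6 * B ≤ s := by
    have h1 : (1 + 6 * B) * 1 ≤ (1 + 6 * B) * k := by gcongr
    have h3 : 0 ≤ 2 * Λ * (C + 2) * k := by positivity
    rw [hs]; linarith
  have hK : 4 ≤ s ^ 2 := by nlinarith
  obtain ⟨ε, hε⟩ : ∃ ε, ε = 1 / (64 * B ^ 2 * C ^ 2) := ⟨_, rfl⟩
  have ε0 : 0 < ε := by rw [hε]; positivity
  have ε1 : 64 * B ^ 2 * C ^ 2 * ε = 1 := by rw [hε]; field_simp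
  have hB2 : 1 ≤ B ^ 2 := one_le_pow₀ b1
  have hC2 : 1 ≤ C ^ 2 := one_le_pow₀ hC
  have ε2 : 2 * ε * C ^ 2 ≤ 1 := by
    have : 1 * (C ^ 2 * ε) ≤ B ^ 2 * (C ^ 2 * ε) := by gcongr
    have : 0 ≤ C ^ 2 * ε := by positivity
    linarith
  have ε3 : ε ≤ 1 / 2 := by
    have : ε * 1 ≤ ε * C ^ 2 := by gcongr
    linarith
  have δ0 : 0 < p / (242 * s ^ 2) := by positivity
  obtain ⟨w₁, hw₁⟩ := eventually_atTop.1 ((((eventually_lg hP rP ε0 δ0).and
    (eventually_lg hQ rQ ε0 δ0)).and ((eventually_ge_atTop 5).and (eventually_ge_atTop w₀))).and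
    (eventually_ge_atTop (2 * C)))
  have w5 : 5 ≤ w₁ := (hw₁ w₁ le_rfl).1.2.1
  obtain ⟨w, hw0, hws⟩ : ∃ w : ℕ → ℝ, w 0 = w₁ ∧ ∀ j, w (j + 1) = s ^ 2 * w j :=
    ⟨fun j => (s ^ 2) ^ j * w₁, by simp, fun j => by rw [pow_succ]; ring⟩
  have wge : ∀ j : ℕ, w₁ + j ≤ w j := by
    intro j
    induction j with
    | zero => simp [hw0]
    | succ j ih =>
      have h1 : (0 : ℝ) ≤ j := Nat.cast_nonneg j
      have h2 : 4 * w j ≤ s ^ 2 * w j := by gcongr; linarith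
      rw [hws]; push_cast; linarith
  have hw : ∀ j, w₁ ≤ w j := fun j => by linarith [wge j, Nat.cast_nonneg (α := ℝ) j]
  have wpos : ∀ j, 0 < w j := fun j => by linarith [hw j]
  have wmono : Monotone w := monotone_nat_of_le_succ fun j => by
    rw [hws]; nlinarith [wpos j]
  -- start
  obtain ⟨F₀, f0, g0⟩ := hinit (4 * w₁)
  obtain ⟨t1, t2, t3, t4⟩ := hb w₁ 0 F₀ w5 (by simpa using f0) g0
  have v1 := V_nonneg (P := P) w₁ 0
  have v2 := V_nonneg (P := Q) w₁ 0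
  obtain ⟨G, hG⟩ : ∃ G, G = Λ * F₀ + w₁ * P.V w₁ 0 + w₁ * Q.V w₁ 0 := ⟨_, rfl⟩
  have g1 : 0 ≤ w₁ * P.V w₁ 0 := by positivity
  have g2 : 0 ≤ w₁ * Q.V w₁ 0 := by positivity
  have g3 : 2 ≤ Λ * F₀ := by nlinarith
  have g4 : Λ * F₀ ≤ G := by linarith
  have g5 : G ≤ G ^ 2 := by nlinarith
  have start : Inv P p (w 0) 0 G ∧ Inv Q p (w 0) 0 G ∧ 2 * |(0 : ℝ)| + 2 ≤ G := by
    rw [hw0]
    refine ⟨⟨Side.Tail.mono P t1 g4, Side.Good.mono P t3 le_rfl g4, ?_⟩,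
      ⟨Side.Tail.mono Q t2 g4, Side.Good.mono Q t4 le_rfl g4, ?_⟩, by simp; linarith⟩ <;>
      rw [le_div_iff₀ (by linarith)] <;> linarith
  -- the sequence
  have st : ∀ (j : ℕ) (x : ℝ × ℝ), ∃ y : ℝ × ℝ,
      (Inv P p (w j) x.1 x.2 ∧ Inv Q p (w j) x.1 x.2 ∧ 2 * |x.1| + 2 ≤ x.2) →
      (Inv P p (w (j + 1)) y.1 y.2 ∧ Inv Q p (w (j + 1)) y.1 y.2 ∧ 2 * |y.1| + 2 ≤ y.2) ∧
      |x.1 - y.1| * w j ≤ C * x.2 ∧ 2 * x.2 ≤ y.2 ∧ y.2 ≤ s ^ 2 / 2 * x.2 ∧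
      y.2 ^ 2 ≤ s ^ 2 * x.2 ^ 2 / 2 +
        2 * B ^ 2 * (s ^ 2 * w j) * (P.V (w j) y.1 + Q.V (w j) y.1) := by
    intro j x
    by_cases hx : Inv P p (w j) x.1 x.2 ∧ Inv Q p (w j) x.1 x.2 ∧ 2 * |x.1| + 2 ≤ x.2
    · obtain ⟨⟨⟨a1, a2⟩, a3, a4⟩, a5⟩ := hw₁ _ (hw j)
      obtain ⟨m', F', h⟩ := step hp hp1 hP hQ rP rQ iP iQ mP mQ kQ hC lQ hΛ hb hk ε2 s1
        (hB ▸ s2) hkK a3 a4 a5 a1 a2 hx.1 hx.2.1 hx.2.2
      rw [← hB] at h
      exact ⟨(m', F'), fun _ => by rw [hws]; exact h⟩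
    · exact ⟨x, fun h => absurd h hx⟩
  choose g hg using st
  obtain ⟨x, hx0, hxs⟩ : ∃ x : ℕ → ℝ × ℝ, x 0 = (0, G) ∧ ∀ j, x (j + 1) = g j (x j) :=
    ⟨fun j => Nat.rec (0, G) g j, rfl, fun _ => rfl⟩
  have inv : ∀ j, Inv P p (w j) (x j).1 (x j).2 ∧ Inv Q p (w j) (x j).1 (x j).2 ∧
      2 * |(x j).1| + 2 ≤ (x j).2 := by
    intro j
    induction j with
    | zero => rw [hx0]; exact start
    | succ j ih => rw [hxs]; exact (hg j _ ih).1
  have rel := fun j => (hg j _ (inv j)).2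
  simp only [← hxs] at rel
  obtain ⟨m, hm⟩ : ∃ m : ℕ → ℝ, ∀ j, (x j).1 = m j := ⟨_, fun _ => rfl⟩
  obtain ⟨F, hF⟩ : ∃ F : ℕ → ℝ, ∀ j, (x j).2 = F j := ⟨_, fun _ => rfl⟩
  simp only [hm, hF] at inv rel
  have Fpos : ∀ j, 0 < F j := fun j => by linarith [(inv j).2.2, abs_nonneg (m j)]
  have q1 : ∀ j, F (j + 1) / w (j + 1) ≤ F j / w j / 2 := by
    intro j
    have := wpos j
    rw [hws, div_le_iff₀ (by positivity)]
    refine (rel j).2.2.1.trans (le_of_eq ?_)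
    field_simp
  obtain ⟨a, ha⟩ := ex_lim (m := m) (q := fun j => F j / w j) (C := C) (by linarith)
    (fun j => (div_pos (Fpos j) (wpos j)).le) q1
    (fun j => by rw [← mul_div_assoc, le_div_iff₀ (wpos j)]; exact (rel j).1)
  have ha' : ∀ j, |m j - a| * w j ≤ 2 * C * F j := fun j => by
    have := ha j
    rwa [← mul_div_assoc, le_div_iff₀ (wpos j)] at this
  have oP := fun j => out hP rP iP hC lP (wpos j) (hw₁ _ (hw j)).1.2.2 (Fpos j) ε3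
    (hw₁ _ (hw j)).1.1.1 (inv j).1 (ha' j)
  have oQ := fun j => out hQ rQ iQ hC lQ (wpos j) (hw₁ _ (hw j)).1.2.2 (Fpos j) ε3
    (hw₁ _ (hw j)).1.1.2 (inv j).2.1 (ha' j)
  have aP : 0 ≤ ∫ σ, P.W σ ∂P.f := integral_nonneg fun σ => le_trans zero_le_one (hP.W_ge σ)
  have aQ : 0 ≤ ∫ σ, Q.W σ ∂Q.f := integral_nonneg fun σ => le_trans zero_le_one (hQ.W_ge σ)
  generalize (∫ σ, P.W σ ∂P.f) = cP at oP aP
  generalize (∫ σ, Q.W σ ∂Q.f) = cQ at oQ aQ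
  have c0 : 0 < (1 + 2 * C) ^ 2 * (4 * (4 * B ^ 2) + 1) := by positivity
  have c1 : 0 ≤ 3 * C * cP := by positivity
  have c2 : 0 ≤ 3 * C * cQ := by positivity
  have hM : ∀ (j : ℕ) (c c' : ℝ), 0 ≤ c → c ≤ c' → c * F j / w j ≤ c' * ((1 + 2 * C) * F j) / w j := by
    intro j c c' h1 h2
    have := wpos j
    have := Fpos j
    gcongr
    · linarith
    · nlinarith
  refine ⟨a, s ^ 2, (1 + 2 * C) ^ 2 * (4 * (4 * B ^ 2) + 1) + 3 * C * cP + 3 * C * cQ, w,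
    fun j => (1 + 2 * C) * F j, hK, by linarith, by linarith [hw 0], hws,
    mul_pos (by linarith) (Fpos 0), fun j => ?_, fun j => ?_, fun j => (oP j).1,
    fun j => (oQ j).1, fun j => (oP j).2.1, fun j => (oQ j).2.1,
    fun j => (oP j).2.2.trans (hM j _ _ c1 (by linarith)),
    fun j => (oQ j).2.2.trans (hM j _ _ c2 (by linarith)), ?_⟩
  · have := mul_le_mul_of_nonneg_left (rel j).2.1 (show 0 ≤ 1 + 2 * C by linarith)
    linarith
  · have := mul_le_mul_of_nonneg_left (rel j).2.2.1 (show 0 ≤ 1 + 2 * C by linarith)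
    linarith
  · obtain ⟨σ, n1, n2⟩ := hnd a
    obtain ⟨j₀, hj₀⟩ := exists_nat_ge (P.W σ)
    have bpos : 0 < P.V (w j₀) a + Q.V (w j₀) a := by
      have := V_mono hP iP (show P.W σ ≤ w j₀ by linarith [wge j₀]) a
      linarith [V_pos hP rP iP n1 n2, V_nonneg (P := Q) (w j₀) a]
    have key := rec_bound (a := fun j => F j ^ 2 / w j) (b := fun j => P.V (w j) a + Q.V (w j) a)
      (c := 4 * B ^ 2) (by positivity) (add_nonneg (V_nonneg _ _) (V_nonneg _ _))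
      (fun i j hij => add_le_add (V_mono hP iP (wmono hij) a) (V_mono hQ iQ (wmono hij) a))
      (fun j => by
        have hwj := wpos j
        have d1 : |a - m (j + 1)| * w j ≤ C * F j := by
          rw [abs_sub_comm, ← le_div_iff₀ hwj, mul_div_assoc]
          have := mul_le_mul_of_nonneg_left (q1 j) (show 0 ≤ 2 * C by linarith)
          linarith [ha (j + 1)]
        have d2 := V_near hP rP iP hwj (hw₁ _ (hw j)).1.1.1 d1
        have d3 := V_near hQ rQ iQ hwj (hw₁ _ (hw j)).1.1.2 d1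
        have d4 : F (j + 1) ^ 2 / w (j + 1) ≤ F j ^ 2 / w j / 2 +
            2 * B ^ 2 * (P.V (w j) (m (j + 1)) + Q.V (w j) (m (j + 1))) := by
          rw [hws, div_le_iff₀ (by positivity)]
          refine (rel j).2.2.2.trans (le_of_eq ?_)
          field_simp
        have d5 := mul_le_mul_of_nonneg_left (add_le_add d2 d3) (show 0 ≤ 2 * B ^ 2 by positivity)
        have d6 : 2 * B ^ 2 * (2 * (2 * ε * (C * F j) ^ 2 / w j)) = F j ^ 2 / w j / 8 := by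
          rw [hε]; field_simp; ring
        have d7 : 0 ≤ F j ^ 2 / w j := by positivity
        change F (j + 1) ^ 2 / w (j + 1) ≤ 3 / 4 * (F j ^ 2 / w j) +
          4 * B ^ 2 * (P.V (w j) a + Q.V (w j) a)
        linarith) bpos
    filter_upwards [key] with j hj
    rw [div_le_iff₀ (wpos j)] at hj
    have e0 : 0 ≤ w j * (P.V (w j) a + Q.V (w j) a) :=
      mul_nonneg (wpos j).le (add_nonneg (V_nonneg _ _) (V_nonneg _ _))
    have e1 := mul_le_mul_of_nonneg_left hj (sq_nonneg (1 + 2 * C))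
    have e2 := mul_nonneg (add_nonneg c1 c2) e0
    rw [mul_pow]
    linarith

end Pool.Agent.MP_db8016_pr
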