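import Pool.Agent.Mg.Fdb8016a.G43c2de

section

/-! Maximal inequality for lists in a window, and the link between slopes. -/

namespace Pool.Agent.MP_db8016_pr
open MeasureTheory ProbabilityTheory Filter
open scoped ENNReal

namespace KolmAux

variable {S : Type} [MeasurableSpace S] [DiscreteMeasurableSpace S]

lemma intOn_of_sq {f : Measure S} [IsFiniteMeasure f] {A : Set S} {ζ : S → ℝ}
    (h : IntegrableOn (fun σ => (ζ σ) ^ 2) A f) : IntegrableOn ζ A f := by
  refine Integrable.mono' ((integrable_const (1 : ℝ)).add h)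
    Measurable.of_discrete.aestronglyMeasurable (Eventually.of_forall fun σ => ?_)
  rw [Real.norm_eq_abs]
  simp only [Pi.add_apply]
  nlinarith [sq_abs (ζ σ), abs_nonneg (ζ σ), sq_nonneg (|ζ σ| - 1)]

lemma shift_sq {f : Measure S} [IsProbabilityMeasure f] {A : Set S} {ζ : S → ℝ}
    (h : IntegrableOn (fun σ => (ζ σ) ^ 2) A f) (h0 : ∫ σ in A, ζ σ ∂f = 0) (x : ℝ) :
    IntegrableOn (fun σ => (x + ζ σ) ^ 2) A f ∧
      ∫ σ in A, (x + ζ σ) ^ 2 ∂f ≤ x ^ 2 + ∫ σ in A, (ζ σ) ^ 2 ∂f := by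
  have h1 := intOn_of_sq h
  have e : (fun σ => (x + ζ σ) ^ 2) = fun σ => (x ^ 2 + 2 * x * ζ σ) + (ζ σ) ^ 2 := by
    funext σ
    ring
  have h2 : IntegrableOn (fun σ => 2 * x * ζ σ) A f := h1.const_mul _
  have h3 : IntegrableOn (fun _ : S => x ^ 2) A f := integrable_const _
  have h4 : IntegrableOn (fun σ => x ^ 2 + 2 * x * ζ σ) A f := h3.add h2
  rw [e]
  refine ⟨h4.add h, ?_⟩
  rw [integral_add h4 h, integral_add h3 h2, integral_const_mul, h0, setIntegral_const]
  have h5 : f.real A ≤ 1 := measureReal_le_one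
  have h6 : 0 ≤ x ^ 2 := sq_nonneg x
  rw [smul_eq_mul]
  nlinarith

omit [DiscreteMeasurableSpace S] in
lemma sum_ζ (P : Side S) (m m' : ℝ) (l : List S) :
    (l.map (P.ζ m)).sum - (l.map (P.ζ m')).sum = (m' - m) * P.TW l := by
  induction l with
  | nil => simp
  | cons σ l ih =>
    simp only [List.map_cons, List.sum_cons, Side.TW_cons]
    have : P.ζ m σ - P.ζ m' σ = (m' - m) * P.W σ := by
      unfold Side.ζ
      ring
    linarith [mul_add (m' - m) (P.W σ) (P.TW l)]

end KolmAux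

open KolmAux

section
variable {S T : Type} [MeasurableSpace S] [MeasurableSpace T] [Countable S] [DiscreteMeasurableSpace S]
  [Countable T] [DiscreteMeasurableSpace T] {P : Side S} {Q : Side T} {p : ℝ}

theorem kolm (h : P.Ok p) (hr : P.Ren) : P.Kolm := by
  intro ρ ζ w F₁ F₂ hF₁ hF₂ hint h0 n
  have := hr.prob
  set c : ℝ := P.f.real {σ | w < P.W σ} + P.f.real {σ | P.W σ ≤ w ∧ F₂ < ρ σ}
    + (∫ σ in {σ | P.W σ ≤ w}, (ζ σ) ^ 2 ∂P.f) / F₁ ^ 2 with hc
  have hQ : 0 ≤ ∫ σ in {σ | P.W σ ≤ w}, (ζ σ) ^ 2 ∂P.f := integral_nonneg fun σ => sq_nonneg _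
  have hc0 : 0 ≤ c := by
    have h1 : 0 ≤ P.f.real {σ | w < P.W σ} := measureReal_nonneg
    have h2 : 0 ≤ P.f.real {σ | P.W σ ≤ w ∧ F₂ < ρ σ} := measureReal_nonneg
    positivity
  have big : ∀ (n : ℕ) (t x : ℝ), F₁ < |x| →
      P.LM (P.win t ∩ {l | ¬ Ins ρ ζ (F₁ + F₂) x l}) ≤ ENNReal.ofReal (x ^ 2 / F₁ ^ 2 + n * c) := by
    intro n t x hx
    refine (measure_mono Set.inter_subset_left).trans ((h.U1 t).trans ?_)
    rw [ENNReal.one_le_ofReal]
    have h1 : 1 ≤ x ^ 2 / F₁ ^ 2 := by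
      rw [one_le_div (by positivity), ← sq_abs x]
      exact pow_le_pow_left₀ hF₁.le hx.le 2
    have h2 : 0 ≤ (n : ℝ) * c := by positivity
    linarith
  have key : ∀ (n : ℕ) (t x : ℝ), t ≤ n →
      P.LM (P.win t ∩ {l | ¬ Ins ρ ζ (F₁ + F₂) x l}) ≤ ENNReal.ofReal (x ^ 2 / F₁ ^ 2 + n * c) := by
    intro n
    induction n with
    | zero =>
      intro t x ht
      rcases lt_or_ge F₁ |x| with hx | hx
      · exact big 0 t x hx
      · have : P.win t ∩ {l | ¬ Ins ρ ζ (F₁ + F₂) x l} = ∅ := by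
          refine Set.eq_empty_of_forall_notMem fun l hl => ?_
          cases l with
          | nil => exact hl.2 (by simp only [Ins]; linarith)
          | cons σ l =>
            have h1 := hl.1.2
            rw [Side.TW_cons] at h1
            have h2 := h.W_ge σ
            have h3 := P.TW_nonneg h l
            simp only [Nat.cast_zero] at ht
            linarith
        rw [this, measure_empty]
        exact zero_le
    | succ n ih =>
      intro t x ht
      rcases lt_or_ge F₁ |x| with hx | hx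
      · exact big (n + 1) t x hx
      · obtain ⟨hs1, hs2⟩ := shift_sq hint h0 x
        rw [Side.LM_cons, Set.indicator_of_notMem
          (fun hl => hl.2 (by simp only [Ins]; linarith)), zero_add]
        set G : S → ℝ := fun σ => (({σ | w < P.W σ}.indicator (fun _ => (1 : ℝ)) σ
          + {σ | P.W σ ≤ w ∧ F₂ < ρ σ}.indicator (fun _ => (1 : ℝ)) σ)
          + {σ | P.W σ ≤ w}.indicator (fun σ => (x + ζ σ) ^ 2) σ / F₁ ^ 2) + n * c with hG
        have i1 : Integrable (fun σ => {σ | w < P.W σ}.indicator (fun _ => (1 : ℝ)) σ) P.f :=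
          (integrable_const _).indicator MeasurableSet.of_discrete
        have i2 : Integrable
            (fun σ => {σ | P.W σ ≤ w ∧ F₂ < ρ σ}.indicator (fun _ => (1 : ℝ)) σ) P.f :=
          (integrable_const _).indicator MeasurableSet.of_discrete
        have i3 : Integrable
            (fun σ => {σ | P.W σ ≤ w}.indicator (fun σ => (x + ζ σ) ^ 2) σ / F₁ ^ 2) P.f :=
          ((integrable_indicator_iff MeasurableSet.of_discrete).2 hs1).div_const _
        have i4 : Integrable (fun _ : S => (n : ℝ) * c) P.f := integrable_const _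
        have n1 : ∀ σ, 0 ≤ {σ | w < P.W σ}.indicator (fun _ => (1 : ℝ)) σ :=
          fun σ => Set.indicator_nonneg (fun _ _ => zero_le_one) σ
        have n2 : ∀ σ, 0 ≤ {σ | P.W σ ≤ w ∧ F₂ < ρ σ}.indicator (fun _ => (1 : ℝ)) σ :=
          fun σ => Set.indicator_nonneg (fun _ _ => zero_le_one) σ
        have n3 : ∀ σ, 0 ≤ {σ | P.W σ ≤ w}.indicator (fun σ => (x + ζ σ) ^ 2) σ / F₁ ^ 2 :=
          fun σ => div_nonneg (Set.indicator_nonneg (fun _ _ => sq_nonneg _) σ) (sq_nonneg _)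
        have n4 : 0 ≤ (n : ℝ) * c := by positivity
        have hpt : ∀ σ, P.LM {l | σ :: l ∈ P.win t ∩ {l | ¬ Ins ρ ζ (F₁ + F₂) x l}} ≤
            ENNReal.ofReal (G σ) := by
          intro σ
          have hwin : ∀ l, σ :: l ∈ P.win t → l ∈ P.win (t - P.W σ) := by
            intro l hl
            obtain ⟨h1, h2⟩ := hl
            rw [Side.TW_cons] at h1 h2
            exact ⟨by linarith, by linarith⟩
          have hone : 1 ≤ G σ →
              P.LM {l | σ :: l ∈ P.win t ∩ {l | ¬ Ins ρ ζ (F₁ + F₂) x l}} ≤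
                ENNReal.ofReal (G σ) := by
            intro h1
            refine le_trans (measure_mono fun l hl => hwin l hl.1) ((h.U1 _).trans ?_)
            rwa [ENNReal.one_le_ofReal]
          by_cases h1 : w < P.W σ
          · refine hone ?_
            have e : {σ | w < P.W σ}.indicator (fun _ => (1 : ℝ)) σ = 1 :=
              Set.indicator_of_mem (by exact h1) _
            simp only [hG]
            linarith [n2 σ, n3 σ]
          · have h1' : P.W σ ≤ w := not_lt.1 h1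
            by_cases h2 : F₂ < ρ σ
            · refine hone ?_
              have e : {σ | P.W σ ≤ w ∧ F₂ < ρ σ}.indicator (fun _ => (1 : ℝ)) σ = 1 :=
                Set.indicator_of_mem (by exact ⟨h1', h2⟩) _
              simp only [hG]
              linarith [n1 σ, n3 σ]
            · have h3 := ih (t - P.W σ) (x + ζ σ) (by
                push_cast at ht
                linarith [h.W_ge σ])
              refine le_trans (measure_mono ?_) (h3.trans (ENNReal.ofReal_le_ofReal ?_))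
              · intro l hl
                refine ⟨hwin l hl.1, fun hI => hl.2 ⟨?_, hI⟩⟩
                linarith [not_lt.1 h2]
              · have e : {σ | P.W σ ≤ w}.indicator (fun σ => (x + ζ σ) ^ 2) σ = (x + ζ σ) ^ 2 :=
                  Set.indicator_of_mem (by exact h1') _
                simp only [hG]
                rw [e]
                linarith [n1 σ, n2 σ]
        refine (lintegral_mono hpt).trans ?_
        have iG : Integrable G P.f := ((i1.add i2).add i3).add i4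
        rw [← ofReal_integral_eq_lintegral_ofReal iG (Eventually.of_forall fun σ => by
          simp only [hG, Pi.zero_apply]
          linarith [n1 σ, n2 σ, n3 σ])]
        refine ENNReal.ofReal_le_ofReal ?_
        have e : ∫ σ, G σ ∂P.f = P.f.real {σ | w < P.W σ} + P.f.real {σ | P.W σ ≤ w ∧ F₂ < ρ σ}
            + (∫ σ in {σ | P.W σ ≤ w}, (x + ζ σ) ^ 2 ∂P.f) / F₁ ^ 2 + n * c := by
          simp only [hG]
          have i12 : Integrable (fun σ => {σ | w < P.W σ}.indicator (fun _ => (1 : ℝ)) σ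
            + {σ | P.W σ ≤ w ∧ F₂ < ρ σ}.indicator (fun _ => (1 : ℝ)) σ) P.f := i1.add i2
          have i123 : Integrable (fun σ => ({σ | w < P.W σ}.indicator (fun _ => (1 : ℝ)) σ
            + {σ | P.W σ ≤ w ∧ F₂ < ρ σ}.indicator (fun _ => (1 : ℝ)) σ)
            + {σ | P.W σ ≤ w}.indicator (fun σ => (x + ζ σ) ^ 2) σ / F₁ ^ 2) P.f := i12.add i3
          rw [integral_add i123 i4, integral_add i12 i3,
            integral_add i1 i2, integral_div, integral_indicator MeasurableSet.of_discrete,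
            integral_indicator MeasurableSet.of_discrete,
            integral_indicator MeasurableSet.of_discrete]
          simp
        rw [e]
        have h5 : (∫ σ in {σ | P.W σ ≤ w}, (x + ζ σ) ^ 2 ∂P.f) / F₁ ^ 2 ≤
            x ^ 2 / F₁ ^ 2 + (∫ σ in {σ | P.W σ ≤ w}, (ζ σ) ^ 2 ∂P.f) / F₁ ^ 2 := by
          rw [← add_div]
          exact div_le_div_of_nonneg_right hs2 (sq_nonneg _)
        push_cast
        linarith
  intro t ht
  simpa using key n t 0 ht

theorem link (hp : 0 < p) (hp1 : p ≤ 1) (h : P.Ok p) (hr : P.Ren) (hi : P.Int2) (hk : P.Kolm) :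
    ∃ C w₀, 1 ≤ C ∧ P.Link p C w₀ := by
  have := hr.prob
  have e1 := hr.tendsto_r.eventually (gt_mem_nhds (show (0 : ℝ) < p / 32 by positivity))
  have e2 := (hr.tendsto_e h.W_ge).eventually
    (gt_mem_nhds (show (0 : ℝ) < p / 256 by positivity))
  obtain ⟨w₀, hw₀⟩ := eventually_atTop.1 (e1.and (e2.and (eventually_ge_atTop (1 : ℝ))))
  set B : ℝ := 8 / p with hB
  have hB0 : 0 < B := by positivity
  have hB2 : 4 ≤ p / 16 * B ^ 2 := by
    have e : p / 16 * B ^ 2 = 4 / p := by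
      rw [hB]
      field_simp
      norm_num
    rw [e, le_div_iff₀ hp]
    linarith
  refine ⟨2 + 2 * B, w₀, by linarith, ?_⟩
  intro w m m' F hw hF hgood hV hM
  obtain ⟨hr1, he1, hw1⟩ := hw₀ w hw
  have hw0 : 0 < w := by linarith
  set d : ℝ := |m' - m| with hd
  have hd0 : 0 ≤ d := abs_nonneg _
  have hsq : ∀ m, IntegrableOn (fun σ => (P.ζ m σ) ^ 2) {σ | P.W σ ≤ w} P.f := by
    intro m
    refine Integrable.mono' (hi w m) Measurable.of_discrete.aestronglyMeasurable
      (Eventually.of_forall fun σ => ?_)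
    rw [Real.norm_eq_abs, abs_of_nonneg (sq_nonneg _), ← sq_abs]
    exact pow_le_pow_left₀ (abs_nonneg _) (h.ζ_le m σ) 2
  have hW2 : IntegrableOn (fun σ => (P.W σ) ^ 2) {σ | P.W σ ≤ w} P.f := by
    refine Integrable.mono' (integrable_const (w ^ 2)) Measurable.of_discrete.aestronglyMeasurable
      ((ae_restrict_iff' MeasurableSet.of_discrete).2 (Eventually.of_forall fun σ hσ => ?_))
    rw [Real.norm_eq_abs, abs_of_nonneg (sq_nonneg _)]
    exact pow_le_pow_left₀ (by linarith [h.W_ge σ]) hσ 2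
  set E : ℝ := ∫ σ in {σ | P.W σ ≤ w}, (P.W σ) ^ 2 ∂P.f with hE
  have hE1 : E ≤ p / 256 * w := by
    rw [div_lt_iff₀ hw0] at he1
    exact he1.le
  have hV' : P.V w m' ≤ 2 * P.V w m + 2 * d ^ 2 * E := by
    unfold Side.V
    rw [hE, ← integral_const_mul, ← integral_const_mul,
      ← integral_add ((hsq m).const_mul _) (hW2.const_mul _)]
    refine integral_mono (hsq m') (((hsq m).const_mul _).add (hW2.const_mul _)) fun σ => ?_
    have e : P.ζ m' σ = P.ζ m σ - (m' - m) * P.W σ := by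
      unfold Side.ζ
      ring
    simp only [hd, sq_abs]
    rw [e]
    nlinarith [sq_nonneg (P.ζ m σ + (m' - m) * P.W σ)]
  set F₁ : ℝ := B * F + d * w / 2 with hF₁
  have hF₁0 : 0 < F₁ := by positivity
  have hK := hk (fun _ => 0) (P.ζ m') w F₁ 0 hF₁0 le_rfl (hsq m') hM ⌈w⌉₊ w (Nat.le_ceil w)
  have hn : (⌈w⌉₊ : ℝ) ≤ 2 * w := by linarith [Nat.ceil_lt_add_one hw0.le]
  have hbound : (⌈w⌉₊ : ℝ) * (P.f.real {σ | w < P.W σ} + P.f.real {σ | P.W σ ≤ w ∧ (0 : ℝ) < 0}
      + (∫ σ in {σ | P.W σ ≤ w}, (P.ζ m' σ) ^ 2 ∂P.f) / F₁ ^ 2) ≤ p / 8 := by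
    have z : P.f.real {σ | P.W σ ≤ w ∧ (0 : ℝ) < 0} = 0 := by simp
    have h1 : 0 ≤ P.f.real {σ | w < P.W σ} := measureReal_nonneg
    have h2 : 0 ≤ P.V w m' := integral_nonneg fun σ => sq_nonneg _
    change _ * (_ + _ + P.V w m' / F₁ ^ 2) ≤ _
    rw [z, add_zero]
    refine le_trans (mul_le_mul_of_nonneg_right hn (by positivity)) ?_
    have h3 : 2 * w * P.V w m' ≤ p / 16 * F₁ ^ 2 := by
      have h4 : w * P.V w m ≤ F ^ 2 := by
        rw [le_div_iff₀ hw0] at hV
        linarith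
      have h5 : d ^ 2 * E ≤ d ^ 2 * (p / 256 * w) := mul_le_mul_of_nonneg_left hE1 (sq_nonneg d)
      have h6 : w * P.V w m' ≤ w * (2 * P.V w m + 2 * (d ^ 2 * (p / 256 * w))) :=
        mul_le_mul_of_nonneg_left (by linarith) hw0.le
      have h7 : 4 * F ^ 2 ≤ p / 16 * B ^ 2 * F ^ 2 := mul_le_mul_of_nonneg_right hB2 (sq_nonneg F)
      have h8 : 0 ≤ p / 16 * (B * F * (d * w)) := by positivity
      have h9 : p / 16 * F₁ ^ 2 =
          p / 16 * B ^ 2 * F ^ 2 + p / 16 * (B * F * (d * w)) + p / 64 * (d ^ 2 * w ^ 2) := by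
        rw [hF₁]
        ring
      rw [h9]
      nlinarith
    have h4 : 2 * w * (P.V w m' / F₁ ^ 2) ≤ p / 16 := by
      rw [← mul_div_assoc, div_le_iff₀ (by positivity)]
      exact h3
    nlinarith
  have hex : ∃ l ∈ P.win w, Ins (P.R m) (P.ζ m) F 0 l ∧
      Ins (fun _ => 0) (P.ζ m') (F₁ + 0) 0 l := by
    by_contra hc
    push Not at hc
    have h1 : P.LM (P.win w) ≤ P.Bad m F w +
        P.LM (P.win w ∩ {l | ¬ Ins (fun _ => 0) (P.ζ m') (F₁ + 0) 0 l}) := by
      refine le_trans (measure_mono ?_) (measure_union_le _ _)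
      intro l hl
      by_cases h2 : Ins (P.R m) (P.ζ m) F 0 l
      · exact Or.inr ⟨hl, hc l hl h2⟩
      · exact Or.inl ⟨hl, h2⟩
    have h2 := (h.U2 w hw1).trans (h1.trans (add_le_add (hgood w hw1 le_rfl)
      (hK.trans (ENNReal.ofReal_le_ofReal hbound))))
    rw [← ENNReal.ofReal_add (by positivity) (by positivity),
      ENNReal.ofReal_le_ofReal_iff (by positivity)] at h2
    linarith
  obtain ⟨l, hl, h1, h2⟩ := hex
  have h3 := h1.end_le
  have h4 := h2.end_le
  rw [zero_add] at h3 h4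
  have h5 : d * P.TW l ≤ F + (F₁ + 0) := by
    have e := sum_ζ P m m' l
    have h6 : |(m' - m) * P.TW l| ≤ F + (F₁ + 0) := by
      rw [← e]
      exact (abs_sub _ _).trans (add_le_add h3 h4)
    rwa [abs_mul, abs_of_nonneg (P.TW_nonneg h l)] at h6
  have h6 : d * w ≤ d * P.TW l := mul_le_mul_of_nonneg_left hl.1 hd0
  linarith

end

end Pool.Agent.MP_db8016_pr

end

section

/-! Exponential tails from the barrier estimate. -/

namespace Pool.Agent.MP_db8016_pr
open MeasureTheory ProbabilityTheory Filter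
open scoped ENNReal

namespace BoostAux
variable {S : Type} [MeasurableSpace S] [Countable S] [DiscreteMeasurableSpace S]
  {X : Side S} {p : ℝ}

omit [Countable S] [DiscreteMeasurableSpace S] in
lemma win_good (hp : 0 < p) (h : X.Ok p) {w m G : ℝ} (hG : X.Good p w m G) {t : ℝ}
    (h1 : 1 ≤ t) (h2 : t ≤ w) :
    ENNReal.ofReal (p / 2) ≤ X.LM (X.win t ∩ {l | Ins (X.R m) (X.ζ m) G 0 l}) := by
  have e := measure_inter_add_diff (μ := X.LM) (X.win t)
    (t := {l | Ins (X.R m) (X.ζ m) G 0 l}) MeasurableSet.of_discrete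
  have h3 : X.LM (X.win t \ {l | Ins (X.R m) (X.ζ m) G 0 l}) ≤ ENNReal.ofReal (p / 2) :=
    (hG t h1 h2).trans (ENNReal.ofReal_le_ofReal (by linarith))
  have h4 : ENNReal.ofReal (p / 2) + ENNReal.ofReal (p / 2) ≤
      X.LM (X.win t ∩ {l | Ins (X.R m) (X.ζ m) G 0 l}) + ENNReal.ofReal (p / 2) := by
    rw [← ENNReal.ofReal_add (by linarith) (by linarith), add_halves]
    exact (h.U2 t h1).trans (e ▸ add_le_add le_rfl h3)
  exact (ENNReal.add_le_add_iff_right ENNReal.ofReal_ne_top).1 h4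

omit [Countable S] [DiscreteMeasurableSpace S] in
lemma many_good (hp : 0 < p) (h : X.Ok p) {w m G : ℝ} (hG : X.Good p w m G) (N : ℕ)
    (hN : (N : ℝ) ≤ w) : N * ENNReal.ofReal (p / 2) ≤
      X.LM {l | X.TW l < N + 1 ∧ Ins (X.R m) (X.ζ m) G 0 l} := by
  induction N with
  | zero => simp
  | succ N ih =>
    push_cast at hN ⊢
    have h0 : (0 : ℝ) ≤ N := Nat.cast_nonneg N
    have hd : Disjoint {l | X.TW l < N + 1 ∧ Ins (X.R m) (X.ζ m) G 0 l}
        (X.win (N + 1) ∩ {l | Ins (X.R m) (X.ζ m) G 0 l}) :=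
      Set.disjoint_left.2 fun l h1 h2 => absurd h1.1 (not_lt.2 h2.1.1)
    rw [add_mul, one_mul]
    refine (add_le_add (ih (by linarith)) (win_good hp h hG (t := N + 1) (by linarith) hN)).trans ?_
    rw [← measure_union hd MeasurableSet.of_discrete]
    refine measure_mono ?_
    rintro l (hl | hl)
    · exact ⟨by linarith [hl.1], hl.2⟩
    · exact ⟨hl.1.2, hl.2⟩

lemma cons_le (E : Set S) (L : Set (List S)) :
    X.f E * X.LM L ≤ X.LM {π | ∃ σ l, π = σ :: l ∧ σ ∈ E ∧ l ∈ L} := by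
  rw [X.LM_cons {π | ∃ σ l, π = σ :: l ∧ σ ∈ E ∧ l ∈ L}, mul_comm, ← setLIntegral_const,
    ← lintegral_indicator MeasurableSet.of_discrete]
  refine le_add_left (lintegral_mono fun σ => ?_)
  by_cases hσ : σ ∈ E
  · rw [Set.indicator_of_mem hσ]
    exact measure_mono fun l hl => ⟨σ, l, rfl, hσ, hl⟩
  · rw [Set.indicator_of_notMem hσ]; exact bot_le

lemma spike (hp : 0 < p) (h : X.Ok p) {w m G D : ℝ} (hG : X.Good p w m G) (hD : G ≤ D) (N : ℕ)
    (hN : (N : ℝ) ≤ w) :
    ENNReal.ofReal p * (X.f {σ | X.W σ ≤ w ∧ D < X.R m σ} * (N * ENNReal.ofReal (p / 2))) ≤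
      X.Bad m D (2 * w + 2) := by
  refine le_trans (mul_le_mul' le_rfl ((mul_le_mul' le_rfl (many_good hp h hG N hN)).trans
    (cons_le _ _))) ?_
  refine X.glue_le (fun π l => l ++ π) (fun π l => by rw [X.lw_append, mul_comm]) _ _
    (fun π => X.win (2 * w + 2 - X.TW π)) ?_ ?_ _ ?_
  · rintro _ ⟨σ, a, rfl, hσ, ha⟩ _ ⟨σ', a', rfl, hσ', ha'⟩ l l' e
    rcases List.append_eq_append_iff.1 e with ⟨c, e1, e2⟩ | ⟨c, e1, e2⟩
    · cases c with
      | nil => exact ⟨by simpa using e2, by simpa using e1.symm⟩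
      | cons b c =>
        have e3 : a = c ++ σ' :: a' := (List.cons.inj e2).2
        have := ha.2.le_of_mem (σ := σ') (by simp [e3])
        linarith [hσ'.2]
    · cases c with
      | nil => exact ⟨by simpa using e2.symm, by simpa using e1⟩
      | cons b c =>
        have e3 : a' = c ++ σ :: a := (List.cons.inj e2).2
        have := ha'.2.le_of_mem (σ := σ) (by simp [e3])
        linarith [hσ.2]
  · rintro _ ⟨σ, a, rfl, hσ, ha⟩ l hl
    refine ⟨⟨?_, ?_⟩, fun hI => ?_⟩
    · rw [X.TW_append]; linarith [hl.1]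
    · rw [X.TW_append]; linarith [hl.2]
    · have := Ins.le_of_mem hI (σ := σ) (by simp)
      linarith [hσ.2]
  · rintro _ ⟨σ, a, rfl, hσ, ha⟩
    refine h.U2 _ ?_
    rw [X.TW_cons]
    linarith [hσ.1, ha.1]

lemma one_side (hp : 0 < p) (hp1 : p ≤ 1) (h : X.Ok p) {w m F : ℝ} (hw : 5 ≤ w) (hF : 0 ≤ F)
    {n : ℕ} (hn : (1 - p / 2) ^ n ≤ p ^ 2 / 16)
    (hZ : ∀ (k : ℕ) (t : ℝ), 1 ≤ t → t + 8 ≤ 4 * w →
      X.Bad m (18 * k * F) t ≤ ENNReal.ofReal (2 * (1 - p / 2) ^ k)) :
    X.Tail w m (18 * n * F) ∧ X.Good p w m (18 * n * F) := by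
  have hG : X.Good p w m (18 * n * F) := fun t h1 h2 =>
    (hZ n t h1 (by linarith)).trans (ENNReal.ofReal_le_ofReal (by nlinarith))
  refine ⟨fun k hk => ?_, hG⟩
  have hk1 : (1 : ℝ) ≤ k := by exact_mod_cast hk
  have h0 : 0 ≤ 18 * n * F := by positivity
  have h1 := spike hp h hG (D := k * (18 * n * F)) (by nlinarith) ⌊w⌋₊
    (Nat.floor_le (by linarith))
  have h2 := hZ (n * k) (2 * w + 2) (by linarith) (by linarith)
  rw [show 18 * ((n * k : ℕ) : ℝ) * F = k * (18 * n * F) by push_cast; ring] at h2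
  have h3 := h1.trans h2
  have hfl : w / 2 ≤ ⌊w⌋₊ := by linarith [Nat.lt_floor_add_one w]
  have hc : 0 < p * (⌊w⌋₊ * (p / 2)) := mul_pos hp (mul_pos (by linarith) (by linarith))
  rw [mul_left_comm, ← ENNReal.ofReal_natCast, ← ENNReal.ofReal_mul (Nat.cast_nonneg _),
    ← ENNReal.ofReal_mul hp.le, ← ENNReal.le_div_iff_mul_le (Or.inl (by simpa using hc))
      (Or.inl ENNReal.ofReal_ne_top), ← ENNReal.ofReal_div_of_pos hc] at h3
  refine h3.trans (ENNReal.ofReal_le_ofReal ?_)
  rw [div_le_div_iff₀ hc (by linarith)]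
  have h4 : (1 - p / 2) ^ (n * k) ≤ (1 / 2) ^ k * (p ^ 2 / 8) := by
    rw [pow_mul]
    refine (pow_le_pow_left₀ (pow_nonneg (by linarith) _) hn k).trans ?_
    rw [show p ^ 2 / 16 = 1 / 2 * (p ^ 2 / 8) by ring, mul_pow]
    refine mul_le_mul_of_nonneg_left ?_ (by positivity)
    exact pow_le_of_le_one (by positivity) (by nlinarith) (by omega)
  have h5 : (0 : ℝ) < (1 / 2) ^ k * p ^ 2 := by positivity
  nlinarith

end BoostAux

section
variable {S T : Type} [MeasurableSpace S] [MeasurableSpace T] [Countable S] [DiscreteMeasurableSpace S]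
  [Countable T] [DiscreteMeasurableSpace T] {P : Side S} {Q : Side T} {p : ℝ}

theorem boost (hp : 0 < p) (hp1 : p ≤ 1) (hP : P.Ok p) (hQ : Q.Ok p) (hPQ : P.Bar Q p) (hQP : Q.Bar P p) :
    ∃ Λ, 1 ≤ Λ ∧ P.Boost Q p Λ := by
  obtain ⟨n, hn⟩ := exists_pow_lt_of_lt_one (x := p ^ 2 / 16) (y := 1 - p / 2) (by positivity)
    (by linarith)
  have hn1 : (1 : ℝ) ≤ n := by
    rcases Nat.eq_zero_or_pos n with rfl | h
    · rw [pow_zero] at hn; nlinarith
    · exact_mod_cast h
  refine ⟨18 * n * (18 * n), by nlinarith, fun w m F hw hF hG => ?_⟩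
  have hF0 : 0 ≤ F := by linarith [abs_nonneg m]
  have hF1 : F ≤ 18 * n * F := by nlinarith
  have h1 := hPQ (4 * w) m F hF hG
  have h2 : P.Good p (4 * w - 4) m (18 * n * F) := fun t a b =>
    (h1 n t a (by linarith)).trans (ENNReal.ofReal_le_ofReal (by nlinarith))
  have h3 := hQP (4 * w - 4) m (18 * n * F) (hF.trans hF1) h2
  have a := BoostAux.one_side hp hp1 hP hw (hF0.trans hF1) hn.le (m := m) fun k t a b =>
    (P.Bad_mono m t (mul_le_mul_of_nonneg_left hF1 (by positivity))).trans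
      (h1 k t a (by linarith))
  have b := BoostAux.one_side hp hp1 hQ hw (hF0.trans hF1) hn.le (m := m) fun k t a b =>
    h3 k t a (by linarith)
  rw [mul_assoc (18 * (n : ℝ)) (18 * n) F]
  exact ⟨a.1, b.1, a.2, b.2⟩

end

end Pool.Agent.MP_db8016_pr

end

section

/-! Initial confinement, second moments from exponential tails, and negligible means. -/

namespace Pool.Agent.MP_db8016_pr
open MeasureTheory ProbabilityTheory Filter
open scoped ENNReal

namespace MomAux

theorem exists_ins {S : Type} (ρ ζ : S → ℝ) (l : List S) : ∀ x, ∃ F, Ins ρ ζ F x l := by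
  induction l with
  | nil => exact fun x => ⟨|x|, le_rfl⟩
  | cons σ l ih =>
    intro x
    obtain ⟨F, hF⟩ := ih (x + ζ σ)
    exact ⟨max F (|x| + ρ σ), le_max_right _ _, hF.mono (le_max_left _ _)⟩

theorem ck_nonneg (k : ℕ) : 0 ≤ ck k := by unfold ck; positivity

theorem sum_ck (k n : ℕ) : ∑ i ∈ Finset.range n, ((k + i : ℕ) + 1 : ℝ) ^ 2 * (1 / 2) ^ (k + i) =
    ck k - ck (k + n) := by
  induction n with
  | zero => simp
  | succ n ih =>
    rw [Finset.sum_range_succ, ih, ← add_assoc]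
    simp only [ck, pow_succ (1 / 2 : ℝ) (k + n)]
    push_cast
    ring

theorem tendsto_ck : Tendsto ck atTop (nhds 0) := by
  have h := fun j => tendsto_pow_const_mul_const_pow_of_abs_lt_one j (r := (1 / 2 : ℝ))
    (by rw [abs_of_pos] <;> norm_num)
  have := (((h 2).const_mul 2).add ((h 1).const_mul 8)).add ((h 0).const_mul 12)
  simp only [mul_zero, add_zero] at this
  refine this.congr fun k => ?_
  simp only [ck]
  ring

variable {S : Type} [MeasurableSpace S] [DiscreteMeasurableSpace S] {P : Side S} {p : ℝ}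

theorem lint_le {w m F : ℝ} (hw : 0 < w) (hF : 0 < F) (ht : P.Tail w m F) {k : ℕ} (hk : 1 ≤ k) :
    ∫⁻ σ in {σ | P.W σ ≤ w ∧ k * F < P.R m σ}, ENNReal.ofReal ((P.R m σ) ^ 2) ∂P.f ≤
      ENNReal.ofReal (ck k * F ^ 2 / w) := by
  rw [← lintegral_indicator MeasurableSet.of_discrete]
  calc _ ≤ ∫⁻ σ, ∑' i : ℕ, {σ | P.W σ ≤ w ∧ (k + i : ℕ) * F < P.R m σ}.indicator
        (fun _ => ENNReal.ofReal ((((k + i : ℕ) + 1 : ℝ) * F) ^ 2)) σ ∂P.f := by
        refine lintegral_mono fun σ => ?_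
        by_cases hσ : σ ∈ {σ | P.W σ ≤ w ∧ k * F < P.R m σ}
        · rw [Set.indicator_of_mem hσ]
          have h1 : (k : ℝ) < P.R m σ / F := (lt_div_iff₀ hF).2 hσ.2
          obtain ⟨i, hi⟩ : ∃ i, ⌈P.R m σ / F⌉₊ = k + i + 1 :=
            Nat.exists_eq_add_of_lt (Nat.lt_ceil.2 h1)
          have h2 : ((k + i : ℕ) : ℝ) < P.R m σ / F := Nat.lt_ceil.1 (by omega)
          have h3 : P.R m σ / F ≤ (k + i : ℕ) + 1 := by
            have := Nat.le_ceil (P.R m σ / F)
            rw [hi] at this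
            exact_mod_cast this
          refine le_trans ?_ (ENNReal.le_tsum i)
          rw [Set.indicator_of_mem (by exact ⟨hσ.1, (lt_div_iff₀ hF).1 h2⟩)]
          refine ENNReal.ofReal_le_ofReal (pow_le_pow_left₀ ?_ ((div_le_iff₀ hF).1 h3) 2)
          exact le_trans (by positivity) hσ.2.le
        · rw [Set.indicator_of_notMem hσ]
          exact zero_le
    _ ≤ ∑' i : ℕ, ENNReal.ofReal
        (((k + i : ℕ) + 1 : ℝ) ^ 2 * (1 / 2) ^ (k + i) * (F ^ 2 / w)) := by
        rw [lintegral_tsum fun _ => Measurable.of_discrete.aemeasurable]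
        refine ENNReal.tsum_le_tsum fun i => ?_
        rw [lintegral_indicator_const MeasurableSet.of_discrete]
        refine (mul_le_mul' le_rfl (ht (k + i) (by omega))).trans (le_of_eq ?_)
        rw [← ENNReal.ofReal_mul (by positivity)]
        congr 1
        ring
    _ ≤ _ := by
        refine ENNReal.tsum_le_of_sum_range_le fun n => ?_
        rw [← ENNReal.ofReal_sum_of_nonneg fun i _ => by positivity, ← Finset.sum_mul, sum_ck,
          mul_div_assoc]
        refine ENNReal.ofReal_le_ofReal (mul_le_mul_of_nonneg_right ?_ (by positivity))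
        linarith [ck_nonneg (k + n)]

theorem int_of_tail (h : P.Ok p) (hr : P.Ren) {w F : ℝ} (hw : 0 < w) (hF : 0 < F)
    (ht : P.Tail w 0 F) (m : ℝ) :
    IntegrableOn (fun σ => (P.R m σ) ^ 2) {σ | P.W σ ≤ w} P.f := by
  have := hr.prob
  have h1 : IntegrableOn (fun σ => (P.R 0 σ) ^ 2)
      {σ | P.W σ ≤ w ∧ (1 : ℕ) * F < P.R 0 σ} P.f :=
    ⟨Measurable.of_discrete.aestronglyMeasurable,
      (hasFiniteIntegral_iff_ofReal (Eventually.of_forall fun σ => sq_nonneg _)).2
        ((lint_le hw hF ht le_rfl).trans_lt ENNReal.ofReal_lt_top)⟩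
  rw [← integrable_indicator_iff MeasurableSet.of_discrete] at h1 ⊢
  refine ((h1.const_mul 2).add (integrable_const (2 * F ^ 2 + 2 * (|m| * w) ^ 2))).mono'
    Measurable.of_discrete.aestronglyMeasurable (Eventually.of_forall fun σ => ?_)
  have h2 : 0 ≤ {σ | P.W σ ≤ w ∧ (1 : ℕ) * F < P.R 0 σ}.indicator (fun σ => (P.R 0 σ) ^ 2) σ :=
    Set.indicator_nonneg (fun _ _ => sq_nonneg _) σ
  simp only [Pi.add_apply]
  by_cases hσ : P.W σ ≤ w
  · rw [Set.indicator_of_mem (by exact hσ), Real.norm_of_nonneg (sq_nonneg _)]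
    have h3 := h.R_lip 0 m σ
    rw [zero_sub, abs_neg] at h3
    have h4 : P.R m σ ≤ P.R 0 σ + |m| * w :=
      h3.trans (by gcongr)
    have h5 : P.R m σ ^ 2 ≤ 2 * P.R 0 σ ^ 2 + 2 * (|m| * w) ^ 2 := by
      have := pow_le_pow_left₀ (P.R_nonneg h m σ) h4 2
      nlinarith [sq_nonneg (P.R 0 σ - |m| * w)]
    by_cases h6 : (1 : ℕ) * F < P.R 0 σ
    · rw [Set.indicator_of_mem (by exact ⟨hσ, h6⟩)]
      nlinarith [sq_nonneg F]
    · have h7 : P.R 0 σ ≤ F := by simpa using h6
      have := pow_le_pow_left₀ (P.R_nonneg h 0 σ) h7 2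
      linarith
  · rw [Set.indicator_of_notMem (by exact hσ), norm_zero]
    positivity

theorem M_sub_le (h : P.Ok p) (hr : P.Ren) (hi : P.Int2) (hm : P.Mom) {w w' m F : ℝ}
    (hw : w ≤ w') (hw' : 0 < w') (hF : 0 < F) (ht : P.Tail w' m F) {k : ℕ} (hk : 1 ≤ k) :
    |P.M w' m - P.M w m| ≤ k * F * P.f.real {σ | w < P.W σ} + ck k * F / w' := by
  have := hr.prob
  have hz : ∀ v, Integrable ({σ | P.W σ ≤ v}.indicator (P.ζ m)) P.f := fun v => by
    rw [integrable_indicator_iff MeasurableSet.of_discrete]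
    refine Integrable.mono' ((hi v m).add (integrable_const 1))
      Measurable.of_discrete.aestronglyMeasurable (Eventually.of_forall fun σ => ?_)
    have := h.ζ_le m σ
    simp only [Pi.add_apply, Real.norm_eq_abs]
    nlinarith [sq_nonneg (P.R m σ - 1), sq_nonneg (P.R m σ)]
  have h1 : IntegrableOn (fun σ => (P.R m σ) ^ 2) {σ | P.W σ ≤ w' ∧ k * F < P.R m σ} P.f :=
    (hi w' m).mono_set fun σ hσ => hσ.1
  have h2 := hm w' m F hw' hF ht k hk
  have h3 : Integrable ({σ | w < P.W σ}.indicator fun _ => k * F) P.f :=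
    (integrable_const _).indicator MeasurableSet.of_discrete
  rw [← integrable_indicator_iff MeasurableSet.of_discrete] at h1
  rw [← integral_indicator MeasurableSet.of_discrete] at h2
  rw [Side.M, Side.M, ← integral_indicator MeasurableSet.of_discrete,
    ← integral_indicator MeasurableSet.of_discrete, ← integral_sub (hz w') (hz w),
    ← Real.norm_eq_abs]
  refine (norm_integral_le_of_norm_le (h3.add (h1.div_const F))
    (Eventually.of_forall fun σ => ?_)).trans ?_
  · have i1 : 0 ≤ {σ | w < P.W σ}.indicator (fun _ => k * F) σ :=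
      Set.indicator_nonneg (fun _ _ => by positivity) σ
    have i2 : 0 ≤ {σ | P.W σ ≤ w' ∧ k * F < P.R m σ}.indicator (fun σ => (P.R m σ) ^ 2) σ / F :=
      div_nonneg (Set.indicator_nonneg (fun _ _ => sq_nonneg _) σ) hF.le
    simp only [Pi.add_apply]
    by_cases c1 : P.W σ ≤ w
    · rw [Set.indicator_of_mem (s := {σ | P.W σ ≤ w}) (by exact c1),
        Set.indicator_of_mem (s := {σ | P.W σ ≤ w'}) (by exact c1.trans hw), sub_self, norm_zero]
      linarith
    rw [Set.indicator_of_notMem (s := {σ | P.W σ ≤ w}) (by exact c1), sub_zero]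
    by_cases c2 : P.W σ ≤ w'
    · rw [Set.indicator_of_mem (s := {σ | P.W σ ≤ w'}) (by exact c2), Real.norm_eq_abs]
      have := h.ζ_le m σ
      by_cases c3 : k * F < P.R m σ
      · rw [Set.indicator_of_mem (s := {σ | P.W σ ≤ w' ∧ k * F < P.R m σ}) (by exact ⟨c2, c3⟩)]
        have k1 : (1 : ℝ) ≤ k := by exact_mod_cast hk
        have : P.R m σ ≤ P.R m σ ^ 2 / F := by
          rw [le_div_iff₀ hF]
          nlinarith [P.R_nonneg h m σ, mul_le_mul_of_nonneg_right k1 hF.le]
        linarith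
      · rw [Set.indicator_of_mem (s := {σ | w < P.W σ}) (by exact not_le.1 c1)]
        linarith [not_lt.1 c3]
    · rw [Set.indicator_of_notMem (s := {σ | P.W σ ≤ w'}) (by exact c2), norm_zero]
      linarith
  · simp only [Pi.add_apply]
    rw [integral_add h3 (h1.div_const F), integral_indicator_const _ MeasurableSet.of_discrete,
      integral_div, smul_eq_mul, mul_comm]
    refine add_le_add le_rfl ((div_le_iff₀ hF).2 (h2.trans (le_of_eq ?_)))
    ring

end MomAux

open MomAux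

section
variable {S T : Type} [MeasurableSpace S] [MeasurableSpace T] [Countable S] [DiscreteMeasurableSpace S]
  [Countable T] [DiscreteMeasurableSpace T] {P : Side S} {Q : Side T} {p : ℝ}

set_option linter.unusedSectionVars false

theorem init (hp : 0 < p) (h : P.Ok p) (w : ℝ) : ∃ F, 2 ≤ F ∧ P.Good p w 0 F := by
  have hfin : P.LM {l | P.TW l < w + 1} ≠ ∞ := by
    have h1 : {l | P.TW l < w + 1} ⊆ ⋃ j ∈ Finset.range (⌈w + 1⌉₊), P.win j := fun l hl => by
      have h0 := P.TW_nonneg h l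
      refine Set.mem_iUnion₂.2 ⟨⌊P.TW l⌋₊, Finset.mem_range.2 ?_, Nat.floor_le h0,
        Nat.lt_floor_add_one _⟩
      exact Nat.lt_ceil.2 ((Nat.floor_le h0).trans_lt hl)
    refine ne_top_of_le_ne_top ?_ ((measure_mono h1).trans (measure_biUnion_finset_le _ _))
    exact ENNReal.sum_ne_top.2 fun j _ => ne_top_of_le_ne_top ENNReal.one_ne_top (h.U1 j)
  have key := tendsto_measure_iInter_atTop (μ := P.LM)
    (s := fun n : ℕ => {l | P.TW l < w + 1} ∩ {l | ¬ Ins (P.R 0) (P.ζ 0) n 0 l})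
    (fun _ => MeasurableSet.of_discrete.nullMeasurableSet)
    (fun a b hab l hl => ⟨hl.1, fun h' => hl.2 (h'.mono (Nat.cast_le.2 hab))⟩)
    ⟨0, ne_top_of_le_ne_top hfin (measure_mono Set.inter_subset_left)⟩
  have e : ⋂ n : ℕ, {l | P.TW l < w + 1} ∩ {l | ¬ Ins (P.R 0) (P.ζ 0) n 0 l} = ∅ := by
    refine Set.eq_empty_of_forall_notMem fun l hl => ?_
    obtain ⟨F, hF⟩ := exists_ins (P.R 0) (P.ζ 0) l 0
    exact (Set.mem_iInter.1 hl ⌈F⌉₊).2 (hF.mono (Nat.le_ceil F))
  rw [e, measure_empty] at key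
  obtain ⟨n, hn, hn2⟩ := ((key.eventually (gt_mem_nhds (ENNReal.ofReal_pos.2
    (show 0 < p / 4 by positivity)))).and (eventually_ge_atTop 2)).exists
  refine ⟨n, by exact_mod_cast hn2, fun t _ ht => le_trans (measure_mono ?_) hn.le⟩
  exact fun l hl => ⟨lt_of_lt_of_le hl.1.2 (by linarith), hl.2⟩

theorem mom (h : P.Ok p) : P.Mom := by
  intro w m F hw hF ht k hk
  have := h.W_ge
  rw [integral_eq_lintegral_of_nonneg_ae (Eventually.of_forall fun σ => sq_nonneg _)
    Measurable.of_discrete.aestronglyMeasurable]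
  have := ck_nonneg k
  exact ENNReal.toReal_le_of_le_ofReal (by positivity) (lint_le hw hF ht hk)

theorem int2 (hp : 0 < p) (hP : P.Ok p) (hQ : Q.Ok p) (rP : P.Ren) (rQ : Q.Ren) {Λ : ℝ} (hΛ : 1 ≤ Λ)
    (hb : P.Boost Q p Λ) : P.Int2 ∧ Q.Int2 := by
  have key : ∀ w, ∃ F, 0 < F ∧ P.Tail (max w 5) 0 F ∧ Q.Tail (max w 5) 0 F := fun w => by
    obtain ⟨F, hF, hG⟩ := init hp hQ (4 * max w 5)
    obtain ⟨h1, h2, -⟩ := hb (max w 5) 0 F (le_max_right _ _) (by simpa using hF) hG
    exact ⟨Λ * F, by positivity, h1, h2⟩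
  have hw : ∀ w : ℝ, 0 < max w 5 := fun w => lt_of_lt_of_le (by norm_num) (le_max_right _ _)
  constructor <;> intro w m <;> obtain ⟨F, hF, h1, h2⟩ := key w
  · exact (int_of_tail hP rP (hw w) hF h1 m).mono_set fun σ (hσ : P.W σ ≤ w) =>
      hσ.trans (le_max_left w 5)
  · exact (int_of_tail hQ rQ (hw w) hF h2 m).mono_set fun σ (hσ : Q.W σ ≤ w) =>
      hσ.trans (le_max_left w 5)

theorem mean (h : P.Ok p) (hr : P.Ren) (hi : P.Int2) (hm : P.Mom) {m K C : ℝ} {w F : ℕ → ℝ}
    (hK : 4 ≤ K) (hw0 : 2 ≤ w 0) (hw : ∀ j, w (j + 1) = K * w j) (hF : ∀ j, 0 < F j)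
    (hF' : ∀ j, F (j + 1) ≤ K / 2 * F j) (ht : ∀ j, P.Tail (w j) m (F j))
    (hM : ∀ j, |P.M (w j) m| ≤ C * F j / w j) : P.Mean m w F := by
  intro θ hθ
  have w1 : ∀ j : ℕ, (j : ℝ) + 1 ≤ w j := by
    intro j
    induction j with
    | zero => push_cast; linarith
    | succ j ih =>
      rw [hw]
      push_cast
      nlinarith [Nat.cast_nonneg (α := ℝ) j]
  have w0 : ∀ j, 0 < w j := fun j => lt_of_lt_of_le (by positivity) (w1 j)
  have wt : Tendsto w atTop atTop :=
    tendsto_atTop_mono w1 (tendsto_atTop_add_const_right _ _ tendsto_natCast_atTop_atTop)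
  have a0 : ∀ j, 0 < F j / w j := fun j => div_pos (hF j) (w0 j)
  have a1 : ∀ j, F (j + 1) / w (j + 1) ≤ F j / w j / 2 := fun j => by
    rw [div_le_iff₀ (w0 _), hw]
    refine (hF' j).trans (le_of_eq ?_)
    have := (w0 j).ne'
    field_simp
  obtain ⟨k, hk, hk1⟩ := ((tendsto_ck.eventually (gt_mem_nhds (half_pos hθ))).and
    (eventually_ge_atTop 1)).exists
  have t1 := (hr.tendsto_r.comp wt).const_mul (k * K)
  rw [mul_zero] at t1
  obtain ⟨j₀, hj₀⟩ := eventually_atTop.1 (t1.eventually (gt_mem_nhds (half_pos hθ)))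
  have step : ∀ l, j₀ ≤ l → |P.M (w (l + 1)) m - P.M (w l) m| ≤
      θ * (F l / w l - F (l + 1) / w (l + 1)) := fun l hl => by
    have h1 := M_sub_le h hr hi hm (w := w l) (w' := w (l + 1))
      (by rw [hw]; nlinarith [w0 l]) (w0 _) (hF _) (ht _) hk1
    have h2 : k * K * (w l * P.f.real {σ | w l < P.W σ}) < θ / 2 := hj₀ l hl
    have e : k * F (l + 1) * P.f.real {σ | w l < P.W σ} + ck k * F (l + 1) / w (l + 1) =
        (k * K * (w l * P.f.real {σ | w l < P.W σ}) + ck k) * (F (l + 1) / w (l + 1)) := by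
      have := (w0 l).ne'
      have : K ≠ 0 := by linarith
      rw [hw]
      field_simp
    rw [e] at h1
    refine h1.trans ((mul_le_mul_of_nonneg_right (show _ ≤ θ by linarith) (a0 _).le).trans ?_)
    exact mul_le_mul_of_nonneg_left (by linarith [a1 l]) hθ.le
  filter_upwards [eventually_ge_atTop j₀] with j hj
  have key : ∀ n, |P.M (w (j + n)) m - P.M (w j) m| ≤ θ * (F j / w j - F (j + n) / w (j + n)) ∧
      F (j + n) / w (j + n) ≤ F j / w j * (1 / 2) ^ n := by
    intro n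
    induction n with
    | zero => simp
    | succ n ih =>
      rw [← add_assoc]
      refine ⟨?_, ?_⟩
      · have := abs_sub_le (P.M (w (j + n + 1)) m) (P.M (w (j + n)) m) (P.M (w j) m)
        linarith [step (j + n) (by omega), ih.1]
      · rw [pow_succ]
        linarith [a1 (j + n), ih.2]
  have t2 : Tendsto (fun n : ℕ => θ * F j / w j + |C| * (F j / w j * (1 / 2) ^ n)) atTop
      (nhds (θ * F j / w j)) := by
    simpa using (((tendsto_pow_atTop_nhds_zero_of_lt_one (r := (1 / 2 : ℝ)) (by norm_num)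
      (by norm_num)).const_mul (F j / w j)).const_mul |C|).const_add (θ * F j / w j)
  refine ge_of_tendsto' t2 fun n => ?_
  have h1 := (key n).1
  have h2 := hM (j + n)
  have h3 : C * F (j + n) / w (j + n) ≤ |C| * (F j / w j * (1 / 2) ^ n) := by
    rw [mul_div_assoc]
    exact mul_le_mul (le_abs_self C) (key n).2 (a0 _).le (abs_nonneg C)
  have h4 := abs_sub_abs_le_abs_sub (P.M (w j) m) (P.M (w (j + n)) m)
  rw [abs_sub_comm] at h4
  have h5 := mul_pos hθ (a0 (j + n))
  rw [mul_div_assoc]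
  linarith

end

end Pool.Agent.MP_db8016_pr

end
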