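import Pool.Agent.Mg.Fdb8016a.G43c2de

/-! Truncated moments and one step of the induction over scales. -/

set_option linter.unusedSectionVars false

namespace Pool.Agent.MP_db8016_pr.Sc
open MeasureTheory ProbabilityTheory Filter
open scoped ENNReal

variable {S T : Type} [MeasurableSpace S] [MeasurableSpace T] [Countable S]
  [DiscreteMeasurableSpace S] [Countable T] [DiscreteMeasurableSpace T] {P : Side S} {Q : Side T}
  {p : ℝ}

/-- Truncated first moment of the width. -/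
noncomputable def A (P : Side S) (w : ℝ) : ℝ := ∫ σ in {σ | P.W σ ≤ w}, P.W σ ∂P.f

/-- Truncated second moment of the width. -/
noncomputable def E (P : Side S) (w : ℝ) : ℝ := ∫ σ in {σ | P.W σ ≤ w}, (P.W σ) ^ 2 ∂P.f

lemma int_sq (h : P.Ok p) (hi : P.Int2) (w m : ℝ) :
    IntegrableOn (fun σ => (P.ζ m σ) ^ 2) {σ | P.W σ ≤ w} P.f := by
  refine Integrable.mono' (hi w m) Measurable.of_discrete.aestronglyMeasurable
    (Eventually.of_forall fun σ => ?_)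
  rw [Real.norm_eq_abs, abs_of_nonneg (sq_nonneg _)]
  exact sq_le_sq' (by linarith [abs_le.1 (h.ζ_le m σ)]) (abs_le.1 (h.ζ_le m σ)).2

lemma int_one (h : P.Ok p) (hr : P.Ren) (hi : P.Int2) (w m : ℝ) :
    IntegrableOn (fun σ => P.ζ m σ) {σ | P.W σ ≤ w} P.f := by
  have := hr.prob
  refine Integrable.mono' ((int_sq h hi w m).add (integrable_const (1 : ℝ)))
    Measurable.of_discrete.aestronglyMeasurable (Eventually.of_forall fun σ => ?_)
  rw [Real.norm_eq_abs, Pi.add_apply, ← sq_abs]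
  nlinarith [sq_nonneg (|P.ζ m σ| - 1), abs_nonneg (P.ζ m σ)]

lemma int_Wsq (h : P.Ok p) (hr : P.Ren) (w : ℝ) :
    IntegrableOn (fun σ => (P.W σ) ^ 2) {σ | P.W σ ≤ w} P.f := by
  have := hr.prob
  refine Integrable.mono' (integrable_const (w ^ 2)) Measurable.of_discrete.aestronglyMeasurable
    ((ae_restrict_iff' MeasurableSet.of_discrete).2 (Eventually.of_forall fun σ hσ => ?_))
  rw [Real.norm_eq_abs, abs_of_nonneg (sq_nonneg _)]
  have h1 : P.W σ ≤ w := hσ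
  nlinarith [h.W_ge σ]

lemma M_shift (h : P.Ok p) (hr : P.Ren) (hi : P.Int2) (w m m' : ℝ) :
    P.M w m' = P.M w m + (m - m') * A P w := by
  rw [Side.M, Side.M, A, ← integral_const_mul, ← integral_add (int_one h hr hi w m)
    (hr.intW.integrableOn.const_mul _)]
  refine integral_congr_ae (Eventually.of_forall fun σ => ?_)
  simp only [Side.ζ]; ring

lemma V_shift (h : P.Ok p) (hr : P.Ren) (hi : P.Int2) (w m m' : ℝ) :
    P.V w m' ≤ 2 * P.V w m + 2 * (m - m') ^ 2 * E P w := by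
  rw [Side.V, Side.V, E, ← integral_const_mul, ← integral_const_mul,
    ← integral_add ((int_sq h hi w m).const_mul _) ((int_Wsq h hr w).const_mul _)]
  refine integral_mono (int_sq h hi w m')
    (((int_sq h hi w m).const_mul _).add ((int_Wsq h hr w).const_mul _)) fun σ => ?_
  simp only [Side.ζ]
  nlinarith [sq_nonneg (P.ξ σ - m * P.W σ - (m - m') * P.W σ)]

lemma V_nonneg (w m : ℝ) : 0 ≤ P.V w m := integral_nonneg fun _ => sq_nonneg _

lemma E_nonneg (w : ℝ) : 0 ≤ E P w := integral_nonneg fun _ => sq_nonneg _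

lemma V_mono (h : P.Ok p) (hi : P.Int2) {w w' : ℝ} (hw : w ≤ w') (m : ℝ) :
    P.V w m ≤ P.V w' m :=
  setIntegral_mono_set (int_sq h hi w' m) (Eventually.of_forall fun _ => sq_nonneg _)
    (Eventually.of_forall fun _ hσ => le_trans hσ hw)

lemma A_ge (h : P.Ok p) (hr : P.Ren) (w : ℝ) : P.f.real {σ | P.W σ ≤ w} ≤ A P w := by
  have := hr.prob
  have h1 : ∫ _ in {σ | P.W σ ≤ w}, (1 : ℝ) ∂P.f ≤ A P w :=
    integral_mono (integrable_const _) hr.intW.integrableOn fun σ => h.W_ge σ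
  simpa using h1

lemma A_le (h : P.Ok p) (hr : P.Ren) (w : ℝ) : A P w ≤ ∫ σ, P.W σ ∂P.f :=
  setIntegral_le_integral hr.intW (Eventually.of_forall fun σ => by
    have := h.W_ge σ; simp only [Pi.zero_apply]; linarith)

lemma ex_slope (h : P.Ok p) (hr : P.Ren) (hi : P.Int2) {w : ℝ}
    (hw : 1 / 2 ≤ P.f.real {σ | P.W σ ≤ w}) : ∃ m', P.M w m' = 0 := by
  have h1 : A P w ≠ 0 := by linarith [A_ge h hr w]
  refine ⟨P.M w 0 / A P w, ?_⟩
  rw [M_shift h hr hi w 0]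
  field_simp; ring

lemma V_up (h : P.Ok p) (hr : P.Ren) (hi : P.Int2) {w w' : ℝ} (m G : ℝ) (hG : 0 ≤ G) :
    P.V w' m ≤ P.V w m + G ^ 2 * P.f.real {σ | w < P.W σ} +
      ∫ σ in {σ | P.W σ ≤ w' ∧ G < P.R m σ}, (P.R m σ) ^ 2 ∂P.f := by
  have := hr.prob
  have i1 := (integrable_indicator_iff MeasurableSet.of_discrete).2 (int_sq h hi w m)
  have i2 : Integrable ({σ | w < P.W σ}.indicator fun _ => G ^ 2) P.f :=
    (integrable_const _).indicator MeasurableSet.of_discrete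
  have i3 : Integrable ({σ | P.W σ ≤ w' ∧ G < P.R m σ}.indicator fun σ => (P.R m σ) ^ 2) P.f :=
    (integrable_indicator_iff MeasurableSet.of_discrete).2 ((hi w' m).mono_set fun _ hσ => hσ.1)
  have i12 : Integrable (fun σ => ({σ | P.W σ ≤ w}.indicator fun σ => (P.ζ m σ) ^ 2) σ +
      ({σ | w < P.W σ}.indicator fun _ => G ^ 2) σ) P.f := i1.add i2
  have e2 : G ^ 2 * P.f.real {σ | w < P.W σ} =
      ∫ σ, ({σ | w < P.W σ}.indicator fun _ => G ^ 2) σ ∂P.f := by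
    rw [integral_indicator MeasurableSet.of_discrete]; simp [mul_comm]
  rw [Side.V, Side.V, e2, ← integral_indicator MeasurableSet.of_discrete,
    ← integral_indicator MeasurableSet.of_discrete, ← integral_indicator MeasurableSet.of_discrete,
    ← integral_add i1 i2, ← integral_add i12 i3]
  refine integral_mono ((integrable_indicator_iff MeasurableSet.of_discrete).2 (int_sq h hi w' m))
    (i12.add i3) fun σ => ?_
  have z1 : P.ζ m σ ^ 2 ≤ P.R m σ ^ 2 :=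
    sq_le_sq' (by linarith [abs_le.1 (h.ζ_le m σ)]) (abs_le.1 (h.ζ_le m σ)).2
  have z2 := P.R_nonneg h m σ
  simp only [Set.indicator, Set.mem_ofPred_eq]
  by_cases c1 : P.W σ ≤ w' <;> by_cases c2 : P.W σ ≤ w <;> by_cases c3 : G < P.R m σ <;>
    simp only [c1, c2, c3, not_lt.2, ← not_le, if_true, if_false, not_false_iff,
      and_true, and_false] <;>
    nlinarith [sq_nonneg G, sq_nonneg (P.R m σ), sq_nonneg (P.ζ m σ)]

lemma V_pos (h : P.Ok p) (hr : P.Ren) (hi : P.Int2) {m : ℝ} {σ : S} (h1 : P.f {σ} ≠ 0)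
    (h2 : P.ζ m σ ≠ 0) : 0 < P.V (P.W σ) m := by
  have := hr.prob
  have h3 : ∫ τ in {σ}, (P.ζ m τ) ^ 2 ∂P.f ≤ P.V (P.W σ) m :=
    setIntegral_mono_set (int_sq h hi _ m) (Eventually.of_forall fun _ => sq_nonneg _)
      (Eventually.of_forall fun τ hτ => by
        have : τ = σ := hτ
        subst this; exact le_refl (P.W τ))
  refine lt_of_lt_of_le ?_ h3
  rw [integral_singleton, smul_eq_mul]
  exact mul_pos (ENNReal.toReal_pos h1 (measure_ne_top _ _)) (by positivity)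

lemma tail_shift (h : P.Ok p) {w m m' D : ℝ} (hD : |m - m'| * w ≤ D) {σ : S} (hσ : P.W σ ≤ w) :
    P.R m' σ ≤ P.R m σ + D :=
  (h.R_lip m m' σ).trans (by nlinarith [abs_nonneg (m - m')])

/-- The invariant for one side. -/
structure Inv (P : Side S) (p w m F : ℝ) : Prop where
  tail : P.Tail w m F
  good : P.Good p w m F
  var : P.V w m ≤ F ^ 2 / w

/-- The scale is large. -/
structure Lg (P : Side S) (ε δ w : ℝ) : Prop where
  e : E P w ≤ ε * w
  r : w * P.f.real {σ | w < P.W σ} ≤ δ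
  half : 1 / 2 ≤ P.f.real {σ | P.W σ ≤ w}

lemma eventually_lg (h : P.Ok p) (hr : P.Ren) {ε δ : ℝ} (hε : 0 < ε) (hδ : 0 < δ) :
    ∀ᶠ w in atTop, Lg P ε δ w := by
  filter_upwards [(hr.tendsto_e h.W_ge).eventually (gt_mem_nhds hε),
    hr.tendsto_r.eventually (gt_mem_nhds hδ), hr.eventually_half, eventually_gt_atTop (0 : ℝ)]
    with w h1 h2 h3 h4
  exact ⟨((div_lt_iff₀ h4).1 h1).le, h2.le, h3⟩

lemma V_near (h : P.Ok p) (hr : P.Ren) (hi : P.Int2) {ε δ w m m' D : ℝ} (hw : 0 < w)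
    (hl : Lg P ε δ w) (hD : |m - m'| * w ≤ D) : P.V w m' ≤ 2 * P.V w m + 2 * ε * D ^ 2 / w := by
  have h1 := V_shift h hr hi w m m'
  have h2 : (m - m') ^ 2 * w ^ 2 ≤ D ^ 2 := by
    rw [← sq_abs, ← mul_pow]
    exact pow_le_pow_left₀ (by positivity) hD 2
  have h3 : 0 ≤ ε := by
    by_contra hc
    nlinarith [hl.e, E_nonneg (P := P) w]
  have h4 : (m - m') ^ 2 * E P w ≤ ε * D ^ 2 / w := by
    rw [le_div_iff₀ hw]
    calc (m - m') ^ 2 * E P w * w ≤ (m - m') ^ 2 * (ε * w) * w := by gcongr; exact hl.e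
      _ = ε * ((m - m') ^ 2 * w ^ 2) := by ring
      _ ≤ ε * D ^ 2 := by gcongr
  have : 2 * ε * D ^ 2 / w = 2 * (ε * D ^ 2 / w) := by ring
  linarith

lemma inv_up (hp1 : p ≤ 1) (h : P.Ok p) (hr : P.Ren) (hi : P.Int2) (hm : P.Mom)
    {ε K w m F : ℝ} (hw : 0 < w) (hK : 0 < K) (hF : 0 < F) (hl : Lg P ε (p / (242 * K)) w)
    (ht : P.Tail (K * w) m F) (hg : P.Good p (K * w) m F) (hV : 4 * (K * w) * P.V w m ≤ F ^ 2) :
    Inv P p (K * w) m F := by
  refine ⟨ht, hg, ?_⟩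
  have hKw : 0 < K * w := by positivity
  have h1 := V_up h hr hi (w := w) (w' := K * w) m (((11 : ℕ) : ℝ) * F) (by positivity)
  have h2 := hm (K * w) m F hKw hF ht 11 (by norm_num)
  have h3 : ck 11 ≤ 1 / 4 := by norm_num [ck]
  have h4 : ck 11 * F ^ 2 / (K * w) ≤ 1 / 4 * (F ^ 2 / (K * w)) := by
    rw [mul_div_assoc]; gcongr
  have h5 : P.V w m ≤ 1 / 4 * (F ^ 2 / (K * w)) := by
    rw [← mul_div_assoc, le_div_iff₀ hKw]; linarith
  have h6 : (((11 : ℕ) : ℝ) * F) ^ 2 * P.f.real {σ | w < P.W σ} ≤ 1 / 2 * (F ^ 2 / (K * w)) := by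
    have h7 := hl.r
    rw [le_div_iff₀ (by positivity)] at h7
    rw [← mul_div_assoc, le_div_iff₀ hKw]
    push_cast
    nlinarith [sq_nonneg F]
  refine h1.trans ((add_le_add (add_le_add h5 h6) (h2.trans h4)).trans (le_of_eq ?_))
  ring

lemma good_up (hp : 0 < p) (h : Q.Ok p) (hr : Q.Ren) (hi : Q.Int2) (kQ : Q.Kolm)
    {ε K w m m' F F₁ C : ℝ} {k : ℕ} (hk : 1 ≤ k) (hw : 1 ≤ w) (hK : 1 ≤ K) (hF : 0 < F)
    (hC : 0 ≤ C) (hF₁ : 0 < F₁) (hl : Lg Q ε (p / (242 * K)) w) (hkK : 5 * K * (1 / 2) ^ k ≤ p / 16)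
    (ht : Q.Tail w m F) (hD : |m - m'| * w ≤ C * F) (hM : Q.M w m' = 0)
    (hV : 80 * (K * w) * Q.V w m' ≤ p * F₁ ^ 2) : Q.Good p (4 * (K * w)) m' (F₁ + (k + C) * F) := by
  intro t _ ht2
  have := hr.prob
  have hKw : 1 ≤ K * w := one_le_mul_of_one_le_of_one_le hK hw
  have h1 := kQ (Q.R m') (Q.ζ m') w F₁ ((k + C) * F) hF₁ (by positivity) (int_sq h hi w m') hM
    ⌈4 * (K * w)⌉₊ t (ht2.trans (Nat.le_ceil _))
  refine h1.trans (ENNReal.ofReal_le_ofReal ?_)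
  have h2 : (⌈4 * (K * w)⌉₊ : ℝ) ≤ 5 * (K * w) := by
    have := Nat.ceil_lt_add_one (show 0 ≤ 4 * (K * w) by positivity)
    linarith
  have h3 : 5 * (K * w) * Q.f.real {σ | w < Q.W σ} ≤ p / 16 := by
    have h7 := hl.r
    rw [le_div_iff₀ (by positivity)] at h7
    nlinarith
  have h4 : 5 * (K * w) * Q.f.real {σ | Q.W σ ≤ w ∧ (k + C) * F < Q.R m' σ} ≤ p / 16 := by
    have a1 : Q.f.real {σ | Q.W σ ≤ w ∧ (k + C) * F < Q.R m' σ} ≤ (1 / 2) ^ k / w := by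
      refine ENNReal.toReal_le_of_le_ofReal (by positivity) (le_trans (measure_mono ?_) (ht k hk))
      intro σ hσ
      exact ⟨hσ.1, by linarith [tail_shift h hD hσ.1, hσ.2]⟩
    calc _ ≤ 5 * (K * w) * ((1 / 2) ^ k / w) := by gcongr
      _ = 5 * K * (1 / 2) ^ k := by field_simp
      _ ≤ _ := hkK
  have h5 : 5 * (K * w) * (Q.V w m' / F₁ ^ 2) ≤ p / 16 := by
    rw [← mul_div_assoc, div_le_iff₀ (by positivity)]; linarith
  have h6 : 0 ≤ Q.f.real {σ | w < Q.W σ} +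
      Q.f.real {σ | Q.W σ ≤ w ∧ (k + C) * F < Q.R m' σ} + Q.V w m' / F₁ ^ 2 :=
    add_nonneg (add_nonneg measureReal_nonneg measureReal_nonneg)
      (div_nonneg (V_nonneg _ _) (sq_nonneg _))
  have h7 := mul_le_mul_of_nonneg_right h2 h6
  change _ * (_ + _ + Q.V w m' / F₁ ^ 2) ≤ _
  linarith

lemma step (hp : 0 < p) (hp1 : p ≤ 1) (hP : P.Ok p) (hQ : Q.Ok p) (rP : P.Ren) (rQ : Q.Ren)
    (iP : P.Int2) (iQ : Q.Int2) (mP : P.Mom) (mQ : Q.Mom) (kQ : Q.Kolm) {C w₀ Λ : ℝ} (hC : 1 ≤ C)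
    (lQ : Q.Link p C w₀) (hΛ : 1 ≤ Λ) (hb : P.Boost Q p Λ) {ε s : ℝ} {k : ℕ} (hk : 1 ≤ k)
    (hε : 2 * ε * C ^ 2 ≤ 1) (s1 : 2 * Λ * (k + C + 1) ≤ s) (s2 : 1 + 6 * (Λ * (80 / p)) ≤ s)
    (hkK : 5 * s ^ 2 * (1 / 2) ^ k ≤ p / 16) {w m F : ℝ} (hw : 5 ≤ w) (hw₀ : w₀ ≤ w)
    (hwC : 2 * C ≤ w) (lgP : Lg P ε (p / (242 * s ^ 2)) w) (lgQ : Lg Q ε (p / (242 * s ^ 2)) w)
    (IP : Inv P p w m F) (IQ : Inv Q p w m F) (hm : 2 * |m| + 2 ≤ F) :
    ∃ m' F', (Inv P p (s ^ 2 * w) m' F' ∧ Inv Q p (s ^ 2 * w) m' F' ∧ 2 * |m'| + 2 ≤ F') ∧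
      |m - m'| * w ≤ C * F ∧ 2 * F ≤ F' ∧ F' ≤ s ^ 2 / 2 * F ∧
      F' ^ 2 ≤ s ^ 2 * F ^ 2 / 2 +
        2 * (Λ * (80 / p)) ^ 2 * (s ^ 2 * w) * (P.V w m' + Q.V w m') := by
  have hF : 0 < F := by linarith [abs_nonneg m]
  have hw0 : 0 < w := by linarith
  set B0 := 80 / p with hB0
  have b0 : 80 ≤ B0 := by rw [hB0, le_div_iff₀ hp]; linarith
  have b1 : p * B0 = 80 := by rw [hB0]; field_simp
  set B := Λ * B0 with hB
  have b2 : 80 ≤ B := by nlinarith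
  have s3 : 4 ≤ s := by linarith
  have hK : 16 ≤ s ^ 2 := by nlinarith
  obtain ⟨m', hm'⟩ := ex_slope hQ rQ iQ lgQ.half
  have hD : |m - m'| * w ≤ C * F := by
    rw [abs_sub_comm]; exact lQ w m m' F hw₀ hF IQ.good IQ.var hm'
  have hεF : 2 * ε * (C * F) ^ 2 / w ≤ F ^ 2 / w := by
    gcongr; nlinarith [sq_nonneg F]
  have v1 := V_near hP rP iP hw0 lgP hD
  have v2 := V_near hQ rQ iQ hw0 lgQ hD
  have v3 := V_nonneg (P := P) w m'
  have v4 := V_nonneg (P := Q) w m'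
  set V' := P.V w m' + Q.V w m' with hV'
  have v5 : w * V' ≤ 6 * F ^ 2 := by
    have : V' ≤ 6 * (F ^ 2 / w) := by linarith [IP.var, IQ.var]
    rw [← mul_div_assoc, le_div_iff₀ hw0] at this
    linarith
  set u := √(w * V') with hu
  have u0 : 0 ≤ u := Real.sqrt_nonneg _
  have u1 : u ^ 2 = w * V' := Real.sq_sqrt (by positivity)
  have u2 : u ≤ 3 * F := by
    refine abs_le_of_sq_le_sq' ?_ (by positivity) |>.2
    nlinarith [sq_nonneg F]
  have su : 0 ≤ s * u := by positivity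
  have g1 : Q.Good p (4 * (s ^ 2 * w)) m' (B0 * (s * u) + F + (k + C) * F) := by
    refine good_up hp hQ rQ iQ kQ hk (by linarith) (by linarith) hF (by linarith) (by positivity)
      lgQ hkK IQ.tail hD hm' ?_
    calc 80 * (s ^ 2 * w) * Q.V w m' ≤ 80 * (s ^ 2 * w) * V' := by gcongr; linarith
      _ = 80 * 1 * (s * u) ^ 2 := by rw [mul_pow, u1]; ring
      _ ≤ 80 * B0 * (s * u) ^ 2 := by gcongr; linarith
      _ = p * (B0 * (s * u)) ^ 2 := by rw [← b1]; ring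
      _ ≤ p * (B0 * (s * u) + F) ^ 2 := by gcongr; linarith
  have hk' : (1 : ℝ) ≤ k := by exact_mod_cast hk
  have m1 : 2 * |m'| + 2 ≤ B0 * (s * u) + F + (k + C) * F := by
    have a1 : |m'| ≤ |m| + |m - m'| := by
      have := abs_sub m (m - m'); rwa [sub_sub_cancel] at this
    have a2 : 2 * |m - m'| ≤ F := by
      refine le_of_mul_le_mul_right ?_ hw0
      nlinarith
    have a3 : 0 ≤ B0 * (s * u) := by positivity
    nlinarith
  obtain ⟨t1, t2, t3, t4⟩ := hb (s ^ 2 * w) m' _ (by nlinarith) m1 g1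
  have f1 : Λ * (B0 * (s * u) + F + (k + C) * F) ≤ s * F / 2 + B * (s * u) := by
    have := mul_le_mul_of_nonneg_right s1 hF.le
    rw [hB]; linarith
  have f0 : 0 ≤ B * (s * u) := by positivity
  have f2 : 2 * F ≤ s * F / 2 + B * (s * u) := by nlinarith
  have f3 : 4 * (s ^ 2 * w) * V' ≤ (s * F / 2 + B * (s * u)) ^ 2 := by
    calc 4 * (s ^ 2 * w) * V' = (2 * (s * u)) ^ 2 := by rw [mul_pow, mul_pow, u1]; ring
      _ ≤ (s * F / 2 + B * (s * u)) ^ 2 := by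
        gcongr
        have : 0 ≤ s * F / 2 := by positivity
        nlinarith
  have hKw : 0 ≤ 4 * (s ^ 2 * w) := by positivity
  refine ⟨m', s * F / 2 + B * (s * u), ⟨inv_up hp1 hP rP iP mP hw0 (by linarith) (by linarith) lgP
    (Side.Tail.mono P t1 f1) (Side.Good.mono P t3 le_rfl f1)
    (le_trans (mul_le_mul_of_nonneg_left (by linarith) hKw) f3),
    inv_up hp1 hQ rQ iQ mQ hw0 (by linarith) (by linarith) lgQ
    (Side.Tail.mono Q t2 f1) (Side.Good.mono Q t4 le_rfl f1)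
    (le_trans (mul_le_mul_of_nonneg_left (by linarith) hKw) f3), ?_⟩, hD, f2, ?_, ?_⟩
  · refine m1.trans (le_trans ?_ f1)
    have : 0 ≤ B0 * (s * u) + F + (k + C) * F := by positivity
    nlinarith
  · have a1 : B * (s * u) ≤ B * (s * (3 * F)) := by gcongr
    have a2 : (1 + 6 * B) * (s * F) ≤ s * (s * F) := by gcongr
    nlinarith
  · have : 2 * B ^ 2 * (s ^ 2 * w) * V' = 2 * (B * (s * u)) ^ 2 := by
      rw [mul_pow B, mul_pow s, u1]; ring
    rw [this]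
    nlinarith [sq_nonneg (s * F / 2 - B * (s * u))]

end Pool.Agent.MP_db8016_pr.Sc
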