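import Pool.Agent.Mg.Fdb8016a.G43c2de
import Pool.Agent.Mg.Fdb8016a.G0d793c
import Pool.Agent.Mg.Fdb8016a.G782c3f
import Pool.Agent.Mg.Fdb8016a.G186a64
import Pool.Agent.Mg.Fdb8016a.G095323
import Pool.Agent.Mg.Fdb8016a.G6ef5a8

section

/-! The law of the pieces is a probability measure and the width is integrable. -/

namespace Pool.Agent.MP_db8016_pr
open MeasureTheory ProbabilityTheory Filter
open scoped ENNReal

namespace RenewalAux
variable {S : Type} [MeasurableSpace S] {P : Side S} {p : ℝ}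

/-- Lists of total width at most `T`. -/
def Lo (P : Side S) (T : ℝ) : Set (List S) := {l | P.TW l ≤ T}

/-- Lists that pass the level `T` exactly with their first piece. -/
def Cr (P : Side S) (T : ℝ) : Set (List S) := {l | P.TW l.tail ≤ T ∧ T < P.TW l}

lemma lo_le (h : P.Ok p) (n : ℕ) : P.LM (Lo P n) ≤ (n + 1 : ℕ) := by
  have hsub : Lo P n ⊆ ⋃ j ∈ Finset.range (n + 1), P.win (j : ℝ) := by
    intro l hl
    have h0 := P.TW_nonneg h l
    simp only [Set.mem_iUnion, Finset.mem_range]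
    refine ⟨⌊P.TW l⌋₊, ?_, Nat.floor_le h0, Nat.lt_floor_add_one _⟩
    have : ⌊P.TW l⌋₊ ≤ n := Nat.floor_le_of_le hl
    omega
  calc P.LM (Lo P n) ≤ ∑ j ∈ Finset.range (n + 1), P.LM (P.win (j : ℝ)) :=
        (measure_mono hsub).trans (measure_biUnion_finset_le _ _)
    _ ≤ ∑ _j ∈ Finset.range (n + 1), (1 : ℝ≥0∞) := Finset.sum_le_sum fun j _ => h.U1 _
    _ = (n + 1 : ℕ) := by simp

lemma sum_win_le (h : P.Ok p) (m : ℕ) (g : List S → ℝ≥0∞) (c : ℕ → ℝ≥0∞)
    (hc : ∀ i < m, ∀ l ∈ P.win ((m : ℝ) - i), c i ≤ g l) :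
    ENNReal.ofReal p * ∑ i ∈ Finset.range m, c i ≤ ∫⁻ l, g l ∂P.LM := by
  have hd : Set.PairwiseDisjoint (↑(Finset.range m) : Set ℕ)
      (fun i : ℕ => P.win ((m : ℝ) - i)) := by
    intro i _ j _ hij
    refine Set.disjoint_left.2 fun l hl hl' => hij ?_
    have h1 : (i : ℝ) < j + 1 := by linarith [hl.1, hl.2, hl'.1, hl'.2]
    have h2 : (j : ℝ) < i + 1 := by linarith [hl.1, hl.2, hl'.1, hl'.2]
    have h3 : i < j + 1 := by exact_mod_cast h1
    have h4 : j < i + 1 := by exact_mod_cast h2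
    omega
  calc ENNReal.ofReal p * ∑ i ∈ Finset.range m, c i
      = ∑ i ∈ Finset.range m, c i * ENNReal.ofReal p := by
        rw [Finset.mul_sum]; exact Finset.sum_congr rfl fun i _ => mul_comm _ _
    _ ≤ ∑ i ∈ Finset.range m, ∫⁻ l in P.win ((m : ℝ) - i), g l ∂P.LM := by
        refine Finset.sum_le_sum fun i hi => ?_
        have hi' := Finset.mem_range.1 hi
        have h1 : (1 : ℝ) ≤ (m : ℝ) - i := by
          have : ((i + 1 : ℕ) : ℝ) ≤ m := by exact_mod_cast hi'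
          push_cast at this
          linarith
        calc c i * ENNReal.ofReal p ≤ c i * P.LM (P.win ((m : ℝ) - i)) :=
              mul_le_mul' le_rfl (h.U2 _ h1)
          _ = ∫⁻ _l in P.win ((m : ℝ) - i), c i ∂P.LM := (setLIntegral_const _ _).symm
          _ ≤ _ := setLIntegral_mono Measurable.of_discrete (hc i hi')
    _ = ∫⁻ l in ⋃ i ∈ Finset.range m, P.win ((m : ℝ) - i), g l ∂P.LM :=
        (lintegral_biUnion_finset hd (fun _ _ => MeasurableSet.of_discrete) g).symm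
    _ ≤ _ := setLIntegral_le_lintegral _ _

lemma le_lo (h : P.Ok p) (m : ℕ) : ENNReal.ofReal p * m ≤ P.LM (Lo P ((m + 1 : ℕ) : ℝ)) := by
  have := sum_win_le h m ((Lo P ((m + 1 : ℕ) : ℝ)).indicator 1) (fun _ => 1) (by
    intro i _ l hl
    rw [Set.indicator_of_mem]
    · simp
    · have h2 := hl.2
      have h3 : (0 : ℝ) ≤ i := Nat.cast_nonneg i
      change P.TW l ≤ ((m + 1 : ℕ) : ℝ)
      push_cast
      linarith)
  rw [lintegral_indicator_one MeasurableSet.of_discrete] at this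
  simpa using this

lemma eq_nil_of_cr (h : P.Ok p) {T : ℝ} {a π : List S} (h1 : a ++ π ∈ Cr P T)
    (h2 : π ∈ Cr P T) : a = [] := by
  cases a with
  | nil => rfl
  | cons s a =>
    exfalso
    have e1 : P.TW (a ++ π) ≤ T := h1.1
    rw [Side.TW_append] at e1
    linarith [h2.2, P.TW_nonneg h a]

lemma cr_le (h : P.Ok p) (T : ℝ) : ENNReal.ofReal p * P.LM (Cr P T) ≤ 1 := by
  have hU : Cr P T = ⋃ N : ℕ, Cr P T ∩ {l | P.TW l ≤ (N : ℝ) - 1} := by
    ext l
    simp only [Set.mem_iUnion, Set.mem_inter_iff, Set.mem_ofPred_eq]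
    constructor
    · intro hl
      obtain ⟨N, hN⟩ := exists_nat_ge (P.TW l + 1)
      exact ⟨N, hl, by linarith⟩
    · rintro ⟨_, hl, _⟩
      exact hl
  have hm : Monotone fun N : ℕ => Cr P T ∩ {l | P.TW l ≤ (N : ℝ) - 1} := by
    intro N M hNM l hl
    refine ⟨hl.1, ?_⟩
    have h1 : (N : ℝ) ≤ M := by exact_mod_cast hNM
    have h2 : P.TW l ≤ (N : ℝ) - 1 := hl.2
    change P.TW l ≤ (M : ℝ) - 1
    linarith
  rw [hU, hm.measure_iUnion, ENNReal.mul_iSup]
  refine iSup_le fun N => le_trans ?_ (h.U1 (N : ℝ))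
  refine P.glue_le (fun π l => l ++ π) (fun π l => by simp [mul_comm]) _ _
    (fun π => P.win ((N : ℝ) - P.TW π)) ?_ ?_ _ ?_
  · intro π hπ π' hπ' l l' e
    rcases List.append_eq_append_iff.1 e with ⟨a, e1, e2⟩ | ⟨a, e1, e2⟩
    · have : a = [] := eq_nil_of_cr h (e2 ▸ hπ.1) hπ'.1
      subst this
      exact ⟨by simpa using e2, by simpa using e1.symm⟩
    · have : a = [] := eq_nil_of_cr h (e2 ▸ hπ'.1) hπ.1
      subst this
      exact ⟨by simpa using e2.symm, by simpa using e1⟩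
  · intro π _ l hl
    have h1 := hl.1
    have h2 := hl.2
    constructor
    · rw [Side.TW_append]; linarith
    · rw [Side.TW_append]; linarith
  · intro π hπ
    have h2 : P.TW π ≤ (N : ℝ) - 1 := hπ.2
    exact h.U2 _ (by linarith)

variable [Countable S] [DiscreteMeasurableSpace S]

lemma cr_eq {T : ℝ} (hT : 0 ≤ T) :
    P.LM (Cr P T) = ∫⁻ l, P.f {σ | P.TW l ≤ T ∧ T < P.W σ + P.TW l} ∂P.LM := by
  rw [P.LM_cons', Set.indicator_of_notMem, zero_add]
  · rfl
  · intro hn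
    have := hn.2
    simp only [Side.TW_nil] at this
    linarith

lemma balance (h : P.Ok p) {T : ℝ} (hT : 0 ≤ T) :
    1 + P.f Set.univ * P.LM (Lo P T) = P.LM (Lo P T) + P.LM (Cr P T) := by
  have e1 : P.LM (Lo P T) = 1 + ∫⁻ l, P.f {σ | P.W σ + P.TW l ≤ T} ∂P.LM := by
    rw [P.LM_cons', Set.indicator_of_mem]
    · rfl
    · simpa [Lo] using hT
  have e2 : P.f Set.univ * P.LM (Lo P T) = ∫⁻ l, (P.f {σ | P.W σ + P.TW l ≤ T}
      + P.f {σ | P.TW l ≤ T ∧ T < P.W σ + P.TW l}) ∂P.LM := by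
    rw [← setLIntegral_const, ← lintegral_indicator MeasurableSet.of_discrete]
    refine lintegral_congr fun l => ?_
    by_cases hl : P.TW l ≤ T
    · rw [Set.indicator_of_mem (show l ∈ Lo P T from hl)]
      have : {σ | P.TW l ≤ T ∧ T < P.W σ + P.TW l} = {σ | P.W σ + P.TW l ≤ T}ᶜ := by
        ext σ; simp [hl]
      rw [this, measure_add_measure_compl MeasurableSet.of_discrete]
    · rw [Set.indicator_of_notMem (show l ∉ Lo P T from hl)]
      have a1 : {σ | P.TW l ≤ T ∧ T < P.W σ + P.TW l} = ∅ := by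
        ext σ; simp [hl]
      have a2 : {σ | P.W σ + P.TW l ≤ T} = ∅ := by
        ext σ
        simp only [Set.mem_ofPred_eq, Set.mem_empty_iff_false, iff_false]
        intro hσ
        exact hl (by linarith [h.W_ge σ])
      simp [a1, a2]
  rw [e2, lintegral_add_left Measurable.of_discrete, ← cr_eq hT, ← add_assoc, ← e1]

omit [Countable S] [DiscreteMeasurableSpace S] in
lemma lo_ne_top (h : P.Ok p) (n : ℕ) : P.LM (Lo P n) ≠ ∞ :=
  ne_top_of_le_ne_top (ENNReal.natCast_ne_top _) (lo_le h n)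

omit [Countable S] [DiscreteMeasurableSpace S] in
lemma cr_ne_top (hp : 0 < p) (h : P.Ok p) (T : ℝ) : P.LM (Cr P T) ≠ ∞ := by
  intro e
  have := cr_le h T
  rw [e, ENNReal.mul_top (by simpa using hp)] at this
  simp at this

lemma univ_eq_one (hp : 0 < p) (h : P.Ok p) : P.f Set.univ = 1 := by
  have hq : P.f Set.univ ≠ ∞ := by
    intro e
    have b := balance h (T := ((1 + 1 : ℕ) : ℝ)) (Nat.cast_nonneg _)
    have l0 : P.LM (Lo P ((1 + 1 : ℕ) : ℝ)) ≠ 0 := by
      intro e0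
      have := le_lo h 1
      rw [e0] at this
      simp only [Nat.cast_one, mul_one, nonpos_iff_eq_zero, ENNReal.ofReal_eq_zero] at this
      linarith
    rw [e, ENNReal.top_mul l0, add_top] at b
    exact ENNReal.add_ne_top.2 ⟨lo_ne_top h _, cr_ne_top hp h _⟩ b.symm
  set q := (P.f Set.univ).toReal with hqdef
  have key : ∀ m : ℕ, |q - 1| * (p * m) ≤ 1 + 1 / p := by
    intro m
    have b := balance h (T := ((m + 1 : ℕ) : ℝ)) (Nat.cast_nonneg _)
    have b' := congrArg ENNReal.toReal b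
    rw [ENNReal.toReal_add (by simp) (ENNReal.mul_ne_top hq (lo_ne_top h _)),
      ENNReal.toReal_add (lo_ne_top h _) (cr_ne_top hp h _), ENNReal.toReal_mul,
      ENNReal.toReal_one, ← hqdef] at b'
    have c1 := ENNReal.toReal_mono (lo_ne_top h _) (le_lo h m)
    rw [ENNReal.toReal_mul, ENNReal.toReal_ofReal hp.le, ENNReal.toReal_natCast] at c1
    have c2 := ENNReal.toReal_mono ENNReal.one_ne_top (cr_le h ((m + 1 : ℕ) : ℝ))
    rw [ENNReal.toReal_mul, ENNReal.toReal_ofReal hp.le, ENNReal.toReal_one] at c2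
    set a := (P.LM (Lo P ((m + 1 : ℕ) : ℝ))).toReal
    set φ := (P.LM (Cr P ((m + 1 : ℕ) : ℝ))).toReal
    have φ0 : 0 ≤ φ := ENNReal.toReal_nonneg
    have a0 : 0 ≤ a := ENNReal.toReal_nonneg
    have φ1 : φ ≤ 1 / p := by rw [le_div_iff₀ hp]; linarith
    have p1 : 0 < 1 / p := by positivity
    calc |q - 1| * (p * m) ≤ |q - 1| * a := mul_le_mul_of_nonneg_left c1 (abs_nonneg _)
      _ = |φ - 1| := by
          rw [← abs_of_nonneg a0, ← abs_mul]
          congr 1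
          linarith
      _ ≤ 1 + 1 / p := abs_le.2 ⟨by linarith, by linarith⟩
  have hq1 : q = 1 := by
    by_contra hne
    have h0 : 0 < |q - 1| * p := mul_pos (abs_pos.2 (sub_ne_zero.2 hne)) hp
    obtain ⟨m, hm⟩ := exists_nat_gt ((1 + 1 / p) / (|q - 1| * p))
    rw [div_lt_iff₀ h0] at hm
    have := key m
    nlinarith
  rw [← ENNReal.ofReal_toReal hq, ← hqdef, hq1, ENNReal.ofReal_one]

lemma tail_sum (hp : 0 < p) (h : P.Ok p) (m : ℕ) :
    ENNReal.ofReal p * ∑ i ∈ Finset.range m, P.f {σ | (i : ℝ) + 1 < P.W σ} ≤ 1 := by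
  have b := balance h (T := ((m + 1 : ℕ) : ℝ)) (Nat.cast_nonneg _)
  rw [univ_eq_one hp h, one_mul, add_comm, ENNReal.add_right_inj (lo_ne_top h _)] at b
  rw [b, cr_eq (Nat.cast_nonneg _)]
  refine sum_win_le h m _ _ fun i _ l hl => measure_mono fun σ hσ => ?_
  have h1 := hl.1
  have h2 := hl.2
  have h3 : (0 : ℝ) ≤ i := Nat.cast_nonneg i
  have h4 : (i : ℝ) + 1 < P.W σ := hσ
  constructor
  · push_cast; linarith
  · push_cast; linarith

omit [Countable S] [DiscreteMeasurableSpace S] in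
lemma ofReal_le (h : P.Ok p) (σ : S) :
    ‖P.W σ‖ₑ ≤ 1 + ∑' i : ℕ, {σ | (i : ℝ) + 1 < P.W σ}.indicator 1 σ := by
  have h1 := h.W_ge σ
  have h0 : 0 ≤ P.W σ := by linarith
  obtain ⟨k, hk⟩ : ∃ k, ⌈P.W σ⌉₊ = k + 1 :=
    Nat.exists_eq_succ_of_ne_zero (Nat.ceil_pos.2 (by linarith)).ne'
  have h2 : P.W σ ≤ (k + 1 : ℕ) := hk ▸ Nat.le_ceil _
  have h3 : (k : ℝ) < P.W σ := Nat.lt_ceil.1 (by omega)
  calc ‖P.W σ‖ₑ = ENNReal.ofReal (P.W σ) := Real.enorm_eq_ofReal h0
    _ ≤ ((k + 1 : ℕ) : ℝ≥0∞) := by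
        rw [← ENNReal.ofReal_natCast]; exact ENNReal.ofReal_le_ofReal h2
    _ = 1 + ∑ i ∈ Finset.range k, {σ | (i : ℝ) + 1 < P.W σ}.indicator (1 : S → ℝ≥0∞) σ := by
        rw [Finset.sum_congr rfl (g := fun _ => (1 : ℝ≥0∞))]
        · simp [add_comm]
        · intro i hi
          have h5 : ((i + 1 : ℕ) : ℝ) ≤ k := by exact_mod_cast Finset.mem_range.1 hi
          push_cast at h5
          rw [Set.indicator_of_mem]
          · rfl
          · change (i : ℝ) + 1 < P.W σ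
            linarith
    _ ≤ _ := add_le_add le_rfl (ENNReal.sum_le_tsum _)

end RenewalAux

section
variable {S : Type} [MeasurableSpace S] [Countable S] [DiscreteMeasurableSpace S]
  {P : Side S} {p : ℝ}

theorem renewal (hp : 0 < p) (h : P.Ok p) : P.Ren := by
  have h1 := RenewalAux.univ_eq_one hp h
  refine ⟨⟨h1⟩, Measurable.of_discrete.aestronglyMeasurable, ?_⟩
  have hs : ENNReal.ofReal p * ∑' i : ℕ, P.f {σ | (i : ℝ) + 1 < P.W σ} ≤ 1 := by
    rw [ENNReal.tsum_eq_iSup_nat, ENNReal.mul_iSup]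
    exact iSup_le fun m => RenewalAux.tail_sum hp h m
  have hs' : ∑' i : ℕ, P.f {σ | (i : ℝ) + 1 < P.W σ} ≠ ∞ := by
    intro e
    rw [e, ENNReal.mul_top (by simpa using hp)] at hs
    simp at hs
  refine lt_of_le_of_lt (lintegral_mono (RenewalAux.ofReal_le h)) ?_
  rw [lintegral_add_left measurable_const,
    lintegral_tsum fun _ => Measurable.of_discrete.aemeasurable]
  simp only [lintegral_indicator_one MeasurableSet.of_discrete, lintegral_const, h1, mul_one]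
  exact ENNReal.add_lt_top.2 ⟨ENNReal.one_lt_top, hs'.lt_top⟩

end

end Pool.Agent.MP_db8016_pr

end

section

/-! Assembly of the zero-one law for the law of the step sequence. -/

namespace Pool.Agent.MP_db8016_pr
open MeasureTheory ProbabilityTheory Filter
open scoped ENNReal

theorem analysis {S T : Type} [MeasurableSpace S] [MeasurableSpace T] [Countable S]
    [DiscreteMeasurableSpace S] [Countable T] [DiscreteMeasurableSpace T] {P : Side S}
    {Q : Side T} {p : ℝ} (hp : 0 < p) (hp1 : p ≤ 1) (hP : P.Ok p) (hQ : Q.Ok p)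
    (hPQ : P.Bar Q p) (hQP : Q.Bar P p) (hnd : ∀ m, ∃ σ, P.f {σ} ≠ 0 ∧ P.ζ m σ ≠ 0) :
    P.Blow Q := by
  have rP := renewal hp hP
  have rQ := renewal hp hQ
  obtain ⟨Λ, hΛ, hb⟩ := boost hp hp1 hP hQ hPQ hQP
  obtain ⟨iP, iQ⟩ := int2 hp hP hQ rP rQ hΛ hb
  obtain ⟨C₁, w₁, hC₁, l₁⟩ := link hp hp1 hP rP iP (kolm hP rP)
  obtain ⟨C₂, w₂, hC₂, l₂⟩ := link hp hp1 hQ rQ iQ (kolm hQ rQ)
  have lP : P.Link p (max C₁ C₂) (max w₁ w₂) := fun w m m' F h1 h2 h3 h4 h5 =>
    (l₁ w m m' F ((le_max_left _ _).trans h1) h2 h3 h4 h5).trans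
      (mul_le_mul_of_nonneg_right (le_max_left _ _) h2.le)
  have lQ : Q.Link p (max C₁ C₂) (max w₁ w₂) := fun w m m' F h1 h2 h3 h4 h5 =>
    (l₂ w m m' F ((le_max_right _ _).trans h1) h2 h3 h4 h5).trans
      (mul_le_mul_of_nonneg_right (le_max_right _ _) h2.le)
  obtain ⟨m, K, C, w, F, hs⟩ := scales hp hp1 hP hQ rP rQ iP iQ (mom hP) (mom hQ) (kolm hQ rQ)
    (hC₁.trans (le_max_left _ _)) lP lQ hΛ hb (init hp hQ) hnd
  have hF : ∀ j, 0 < F j := by
    intro j
    induction j with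
    | zero => exact hs.F_zero
    | succ j ih => linarith [hs.F_lo j]
  exact blow hP hQ rP rQ iP iQ (mom hP) (mom hQ) hs
    (mean hP rP iP (mom hP) hs.K_ge hs.w_zero hs.w_succ hF hs.F_hi hs.tailP hs.MP)
    (mean hQ rQ iQ (mom hQ) hs.K_ge hs.w_zero hs.w_succ hF hs.F_hi hs.tailQ hs.MQ)

theorem exists_real_le {a b : ℝ≥0∞} (ha : a ≠ 0) (hb : b ≠ 0) :
    ∃ p : ℝ, 0 < p ∧ p ≤ 1 ∧ ENNReal.ofReal p ≤ a ∧ ENNReal.ofReal p ≤ b := by
  have h : min (min a b) 1 ≠ 0 := by simp [ha, hb]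
  have h' : min (min a b) 1 ≠ ∞ := ne_top_of_le_ne_top ENNReal.one_ne_top (min_le_right _ _)
  refine ⟨(min (min a b) 1).toReal, ENNReal.toReal_pos h h', ?_, ?_, ?_⟩
  · exact ENNReal.toReal_le_of_le_ofReal zero_le_one (by simp)
  · rw [ENNReal.ofReal_toReal h']; exact (min_le_left _ _).trans (min_le_left _ _)
  · rw [ENNReal.ofReal_toReal h']; exact (min_le_left _ _).trans (min_le_right _ _)

theorem core : CoreStmt := by
  intro vec hv s hs0 hs1 ν hν κ hκ hU S hS hcyl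
  by_cases h1 : S (Transi vec (lev s 1)) = 0
  · exact Or.inl h1
  right
  obtain ⟨d₁, hd₁⟩ := exists_lev_one (s := s) hv (Or.inl rfl)
  obtain ⟨d₂, hd₂⟩ := exists_lev_one (s := s) hv (Or.inr rfl)
  obtain ⟨q, hq, hE⟩ := esc_of_trans vec ν S (lev s 1)
    (lev_step_le hv hs0 hs1 (Or.inl rfl)) d₁ hd₁ hκ hU hcyl h1
  have h2 : S (Transi vec (lev s (-1))) = 0 := by
    by_contra h2
    obtain ⟨q', hq', hE'⟩ := esc_of_trans vec ν S (lev s (-1))
      (lev_step_le hv hs0 hs1 (Or.inr rfl)) d₂ hd₂ hκ hU hcyl h2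
    obtain ⟨p, hp, hp1, ha, hb⟩ := exists_real_le (mul_ne_zero hκ hq) (mul_ne_zero hκ hq')
    have hP := side_ok ν hv hs0 hs1 (Or.inl rfl) hU hE ha
    have hQ := side_ok ν hv hs0 hs1 (Or.inr rfl) hU hE' hb
    exact not_blow hv hs0 hs1 ν hκ hU hp hQ (analysis hp hp1 hP hQ
      (side_bar ν flow hv hs0 hs1 (Or.inl rfl) rfl hp hp1 hQ)
      (side_bar ν flow hv hs0 hs1 (Or.inr rfl) (by simp) hp hp1 hP)
      (side_nondeg ν hv hs0 hκ hU))
  have h3 := trans_or vec ν S (lev s 1) (lev_step_le hv hs0 hs1 (Or.inl rfl)) d₁ hd₁ hκ hU hcyl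
    hq hE
  have e : (fun z => -lev s 1 z) = lev s (-1) := by ext z; simp [lev_apply]
  rw [e] at h3
  refine le_antisymm prob_le_one ?_
  calc (1 : ℝ≥0∞) = S Set.univ := measure_univ.symm
    _ ≤ S ((Transi vec (lev s 1) ∪ Transi vec (lev s (-1))) ∪
        (Transi vec (lev s 1) ∪ Transi vec (lev s (-1)))ᶜ) := by rw [Set.union_compl_self]
    _ ≤ S (Transi vec (lev s 1)) + S (Transi vec (lev s (-1))) +
        S (Transi vec (lev s 1) ∪ Transi vec (lev s (-1)))ᶜ :=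
      (measure_union_le _ _).trans (add_le_add (measure_union_le _ _) le_rfl)
    _ = S (Transi vec (lev s 1)) := by rw [h2, h3]; simp

end Pool.Agent.MP_db8016_pr

end
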